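import Mathlib.Tactic.Abel
import Mathlib.Tactic.NormNum.Ineq
import Mathlib.Tactic.Ring.RingNF
import Mathlib.Algebra.Module.Prod
import Mathlib.Algebra.Notation.Lemmas
import Mathlib.Tactic.SuppressCompilation
import Mathlib.Data.Sym.Sym2
import Mathlib.Algebra.Field.ZMod
import Mathlib.Algebra.Order.Ring.Star
import Mathlib.Order.CompletePartialOrder
import Mathlib.Tactic.Cases

-- ======== part 0: formerly Pool.Agent.MP_e6539c_co.h19.Basic
section MrgPart0

/-! Multigraphs given by an end map `E → Sym2 V`; cuts, boundaries and flows in characteristic 2. -/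

namespace Pool.Agent.MP_e6539c_co.h19

open Finset Classical

set_option linter.unusedSectionVars false

variable {V E : Type} [Fintype V] [Fintype E]

/-- The pair `z` has one end in `S` and one end outside. -/
def cr (S : Set V) (z : Sym2 V) : Prop := ∃ x y, z = s(x, y) ∧ x ∈ S ∧ y ∉ S

lemma cr_mk (S : Set V) (x y : V) : cr S s(x, y) ↔ ¬ (x ∈ S ↔ y ∈ S) := by
  constructor
  · rintro ⟨p, q, h, hp, hq⟩
    rcases Sym2.eq_iff.1 h with ⟨rfl, rfl⟩ | ⟨rfl, rfl⟩ <;> tauto
  · intro h
    by_cases hx : x ∈ S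
    · exact ⟨x, y, rfl, hx, fun hy => h (by tauto)⟩
    · exact ⟨y, x, Sym2.eq_swap, by tauto, hx⟩

/-- The edge cut of `S`. -/
noncomputable def cut (G : E → Sym2 V) (S : Set V) : Finset E := univ.filter (fun e => cr S (G e))

lemma mem_cut {G : E → Sym2 V} {S : Set V} {e : E} : e ∈ cut G S ↔ cr S (G e) := by
  simp [cut]

lemma mem_cut_of {G : E → Sym2 V} {S : Set V} {e : E} {x y : V} (h : G e = s(x, y)) :
    e ∈ cut G S ↔ ¬ (x ∈ S ↔ y ∈ S) := by
  rw [mem_cut, h, cr_mk]

lemma exists_ends (G : E → Sym2 V) (e : E) : ∃ x y, G e = s(x, y) := by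
  induction' h : G e using Sym2.ind with x y
  exact ⟨x, y, rfl⟩

lemma cut_compl (G : E → Sym2 V) (S : Set V) : cut G Sᶜ = cut G S := by
  ext e
  obtain ⟨x, y, h⟩ := exists_ends G e
  rw [mem_cut_of h, mem_cut_of h]
  simp only [Set.mem_compl_iff]
  tauto

lemma cut_union (G : E → Sym2 V) {S T : Set V} (h : Disjoint S T) :
    cut G (S ∪ T) = symmDiff (cut G S) (cut G T) := by
  ext e
  obtain ⟨x, y, he⟩ := exists_ends G e
  have h1 : ∀ x, x ∈ S → x ∉ T := fun x hx => Set.disjoint_left.1 h hx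
  rw [Finset.mem_symmDiff, mem_cut_of he, mem_cut_of he, mem_cut_of he]
  simp only [Set.mem_union]
  have := h1 x
  have := h1 y
  tauto

lemma mem_cut_single {G : E → Sym2 V} {v : V} {e : E} :
    e ∈ cut G {v} ↔ ∃ y, y ≠ v ∧ G e = s(v, y) := by
  rw [mem_cut]
  constructor
  · rintro ⟨x, y, h, hx, hy⟩
    rw [Set.mem_singleton_iff] at hx hy
    subst hx
    exact ⟨y, hy, h⟩
  · rintro ⟨y, hy, h⟩
    exact ⟨v, y, h, rfl, hy⟩

/-- Boundary of an edge function. -/
noncomputable def bd {M : Type} [AddCommMonoid M] (G : E → Sym2 V) (f : E → M) : V → M :=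
  fun v => ∑ e ∈ cut G {v}, f e

section bd
variable {M N : Type} [AddCommGroup M] [AddCommGroup N]

lemma bd_add (G : E → Sym2 V) (f g : E → M) : bd G (f + g) = bd G f + bd G g := by
  ext v; simp [bd, Finset.sum_add_distrib]

lemma bd_zero (G : E → Sym2 V) : bd G (0 : E → M) = 0 := by
  ext v; simp [bd]

lemma bd_hom (G : E → Sym2 V) (L : M →+ N) (f : E → M) (v : V) :
    bd G (fun e => L (f e)) v = L (bd G f v) := by
  simp [bd, map_sum]

lemma bd_single (h2 : ∀ x : M, x + x = 0) {G : E → Sym2 V} {e : E} {x y : V} (h : G e = s(x, y))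
    (k : M) : bd G (Pi.single e k) = Pi.single x k + Pi.single y k := by
  ext v
  simp only [bd, Pi.add_apply]
  by_cases hv : e ∈ cut G {v}
  · rw [Finset.sum_eq_single e (fun b _ hb => by simp [hb]) (fun h => absurd hv h)]
    rw [mem_cut_of h] at hv
    simp only [Set.mem_singleton_iff] at hv
    by_cases hx : x = v
    · have hy : y ≠ v := by tauto
      subst hx
      simp [hy.symm]
    · have hy : y = v := by tauto
      subst hy
      simp [Ne.symm hx]
  · rw [Finset.sum_eq_zero (fun b hb => by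
      have : b ≠ e := fun hh => hv (hh ▸ hb)
      simp [this])]
    rw [mem_cut_of h] at hv
    simp only [Set.mem_singleton_iff, not_not] at hv
    by_cases hx : x = v
    · have hy : y = v := by tauto
      subst hx; subst hy
      simp [h2]
    · have hy : y ≠ v := by tauto
      simp [Ne.symm hx, Ne.symm hy]

lemma bd_congr {G G' : E → Sym2 V} {f : E → M} (h : ∀ e, G e ≠ G' e → f e = 0) :
    bd G f = bd G' f := by
  ext v
  simp only [bd, cut, Finset.sum_filter]
  refine Finset.sum_congr rfl (fun e _ => ?_)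
  by_cases he : G e = G' e
  · rw [he]
  · simp [h e he]

lemma bd_congr_at {G : E → Sym2 V} {f g : E → M} {v : V} (h : ∀ e ∈ cut G {v}, f e = g e) :
    bd G f v = bd G g v := Finset.sum_congr rfl h

lemma sum_cut (h2 : ∀ x : M, x + x = 0) (G : E → Sym2 V) (S : Set V) (f : E → M) :
    ∑ e ∈ cut G S, f e = ∑ v ∈ univ.filter (· ∈ S), bd G f v := by
  have key : ∀ e, (if e ∈ cut G S then f e else 0) =
      ∑ v ∈ univ.filter (· ∈ S), (if e ∈ cut G {v} then f e else 0) := by
    intro e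
    obtain ⟨x, y, he⟩ := exists_ends G e
    have h1 : ∀ v, (if e ∈ cut G {v} then f e else 0) =
        (Pi.single x (f e) + Pi.single y (f e) : V → M) v := by
      intro v
      rw [← bd_single h2 he]
      simp only [bd]
      by_cases hv : e ∈ cut G {v}
      · rw [Finset.sum_eq_single e (fun b _ hb => by simp [hb]) (fun h => absurd hv h)]
        simp [hv]
      · rw [Finset.sum_eq_zero (fun b hb => by
          have : b ≠ e := fun hh => hv (hh ▸ hb)
          simp [this])]
        simp [hv]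
    rw [Finset.sum_congr rfl (fun v _ => h1 v)]
    simp only [Pi.add_apply, Finset.sum_add_distrib, Finset.sum_pi_single', mem_cut_of he]
    by_cases hx : x ∈ S <;> by_cases hy : y ∈ S <;> simp [hx, hy, h2]
  have l1 : ∑ e ∈ cut G S, f e = ∑ e, (if e ∈ cut G S then f e else 0) := by
    rw [← Finset.sum_filter]; congr 1; ext e; simp
  have l2 : ∀ v, bd G f v = ∑ e, (if e ∈ cut G {v} then f e else 0) := by
    intro v
    rw [← Finset.sum_filter]; simp only [bd]; congr 1; ext e; simp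
  rw [l1]
  simp only [l2, key]
  exact Finset.sum_comm

lemma sum_cut_zero (h2 : ∀ x : M, x + x = 0) {G : E → Sym2 V} {S : Set V} {f : E → M}
    (h : ∀ v ∈ S, bd G f v = 0) : ∑ e ∈ cut G S, f e = 0 := by
  rw [sum_cut h2]
  exact Finset.sum_eq_zero (fun v hv => h v (by simpa using hv))

lemma sum_cut_zero' (h2 : ∀ x : M, x + x = 0) {G : E → Sym2 V} {S : Set V} {f : E → M}
    (h : ∀ v ∉ S, bd G f v = 0) : ∑ e ∈ cut G S, f e = 0 := by
  rw [← cut_compl]
  exact sum_cut_zero h2 h

end bd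

/-- The Klein four-group. -/
abbrev K := ZMod 2 × ZMod 2

lemma K2 : ∀ x : K, x + x = 0 := by decide

lemma Z2 : ∀ x : ZMod 2, x + x = 0 := by decide

/-- A nowhere-zero flow with values in the Klein group exists. -/
def HasFlow (G : E → Sym2 V) : Prop := ∃ f : E → K, (∀ e, f e ≠ 0) ∧ bd G f = 0

/-- No cut of size one. -/
def Bl (G : E → Sym2 V) : Prop := ∀ S : Set V, (cut G S).card ≠ 1

/-- Vertices of odd degree. -/
noncomputable def Od (G : E → Sym2 V) : Finset V := univ.filter (fun v => Odd (cut G {v}).card)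

lemma mem_Od {G : E → Sym2 V} {v : V} : v ∈ Od G ↔ Odd (cut G {v}).card := by simp [Od]

lemma mem_Od' {G : E → Sym2 V} {v : V} : v ∈ Od G ↔ bd G (fun _ => (1 : ZMod 2)) v = 1 := by
  rw [mem_Od]
  simp only [bd, Finset.sum_const, nsmul_eq_mul, mul_one]
  exact (ZMod.natCast_eq_one_iff_odd).symm

lemma odd_cut_iff (G : E → Sym2 V) (S : Set V) :
    Odd (cut G S).card ↔ Odd ((Od G).filter (· ∈ S)).card := by
  have h := sum_cut Z2 G S (fun _ => (1 : ZMod 2))
  have h1 : ∀ v, bd G (fun _ => (1 : ZMod 2)) v = if v ∈ Od G then 1 else 0 := by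
    intro v
    by_cases hv : v ∈ Od G
    · simp [hv, mem_Od'.1 hv]
    · simp only [hv, if_false]
      rw [mem_Od'] at hv
      revert hv
      generalize bd G (fun _ => (1 : ZMod 2)) v = t
      revert t; decide
  simp only [h1, Finset.sum_const, nsmul_eq_mul, mul_one, ← Finset.sum_filter] at h
  rw [← ZMod.natCast_eq_one_iff_odd, ← ZMod.natCast_eq_one_iff_odd, h]
  have : filter (fun v => v ∈ Od G) (filter (· ∈ S) univ) = (Od G).filter (· ∈ S) := by
    ext v; simp [and_comm]
  rw [this]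

lemma exists_odd_of_cut {G : E → Sym2 V} {S : Set V} (h : Odd (cut G S).card) :
    ∃ v ∈ Od G, v ∈ S := by
  rw [odd_cut_iff] at h
  obtain ⟨v, hv⟩ := Finset.card_pos.1 h.pos
  exact ⟨v, (Finset.mem_filter.1 hv).1, (Finset.mem_filter.1 hv).2⟩

lemma even_Od (G : E → Sym2 V) : Even (Od G).card := by
  have h := odd_cut_iff G Set.univ
  have h1 : cut G Set.univ = ∅ := by
    ext e
    obtain ⟨x, y, he⟩ := exists_ends G e
    simp [mem_cut_of he]
  simp only [h1, Set.mem_univ, Finset.filter_true, Finset.card_empty] at h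
  rw [← Nat.not_odd_iff_even, ← h]
  decide

/-- Image of a graph under a vertex map. -/
def gmap {W : Type} (G : E → Sym2 V) (p : V → W) : E → Sym2 W := fun e => (G e).map p

lemma gmap_of {W : Type} {G : E → Sym2 V} (p : V → W) {e : E} {x y : V} (h : G e = s(x, y)) :
    gmap G p e = s(p x, p y) := by simp [gmap, h]

lemma cut_gmap {W : Type} [Fintype W] (G : E → Sym2 V) (p : V → W) (S : Set W) :
    cut (gmap G p) S = cut G (p ⁻¹' S) := by
  ext e
  obtain ⟨x, y, he⟩ := exists_ends G e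
  rw [mem_cut_of he, mem_cut_of (gmap_of p he)]
  simp

/-- Number of non-loop edges. -/
noncomputable def mu (G : E → Sym2 V) : ℕ := (univ.filter (fun e => ¬ (G e).IsDiag)).card

/-- Adjacency of the Petersen graph on `Fin 10`. -/
def adj (l m : Fin 10) : Bool :=
  (257617904308990774908043727922 : ℕ).testBit (l.val * 10 + m.val)

lemma adj_symm : ∀ l m, adj l m = adj m l := by decide +kernel

lemma adj_irrefl : ∀ l, adj l l = false := by decide +kernel

/-- The graph maps onto the Petersen graph, edges between classes matching bijectively. -/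
def QP (G : E → Sym2 V) : Prop :=
  ∃ p : V → Fin 10, ∀ l m, l ≠ m →
    (univ.filter (fun e => gmap G p e = s(l, m))).card = if adj l m then 1 else 0

lemma card_cut_fin (H : E → Sym2 (Fin 10)) (l : Fin 10) :
    (cut H {l}).card = ∑ m ∈ univ.filter (· ≠ l), (univ.filter (fun e => H e = s(l, m))).card := by
  rw [← Finset.card_biUnion]
  · congr 1
    ext e
    simp [mem_cut_single]
  · intro x _ y _ hxy
    simp only [Function.onFun, Finset.disjoint_left, Finset.mem_filter, Finset.mem_univ, true_and]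
    intro e h1 h2
    rw [h1] at h2
    exact hxy (Sym2.congr_right.1 h2)

lemma card_Od_ge {G : E → Sym2 V} (p : V → Fin 10) (h : ∀ l, Odd (cut G (p ⁻¹' {l})).card) :
    10 ≤ (Od G).card := by
  have h1 : ∀ l, ∃ v ∈ Od G, p v = l := fun l => by
    obtain ⟨v, hv, hl⟩ := exists_odd_of_cut (h l)
    exact ⟨v, hv, hl⟩
  have : (univ : Finset (Fin 10)) ⊆ (Od G).image p := fun l _ => by
    obtain ⟨v, hv, hl⟩ := h1 l
    exact Finset.mem_image.2 ⟨v, hv, hl⟩
  have h2 := (Finset.card_le_card this).trans Finset.card_image_le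
  simpa using h2

lemma QP.ten {G : E → Sym2 V} (h : QP G) : 10 ≤ (Od G).card := by
  obtain ⟨p, hp⟩ := h
  refine card_Od_ge p (fun l => ?_)
  rw [← cut_gmap, card_cut_fin]
  rw [Finset.sum_congr rfl (fun m hm => hp l m (Ne.symm (by simpa using hm)))]
  revert l
  decide +kernel

lemma QP.of_gmap {G : E → Sym2 V} {q : V → V} (h : QP (gmap G q)) : QP G := by
  obtain ⟨p, hp⟩ := h
  refine ⟨p ∘ q, fun l m hlm => ?_⟩
  rw [← hp l m hlm]
  congr 2
  ext e
  simp [gmap, Sym2.map_map]

end Pool.Agent.MP_e6539c_co.h19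

end MrgPart0

-- ======== part 1: formerly Pool.Agent.MP_e6539c_co.h19.Reduce
section MrgPart1

/-! Reductions in a minimal counterexample: small cuts and short cycles. -/

namespace Pool.Agent.MP_e6539c_co.h19

open Finset Classical

set_option linter.unusedSectionVars false

variable {V E : Type} [Fintype V] [Fintype E]

/-- Collapse the set `S` to the vertex `s`. -/
noncomputable def col (S : Set V) (s : V) : V → V := fun v => if v ∈ S then s else v

/-- Some non-loop edge lies inside `S`. -/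
def Inner (G : E → Sym2 V) (S : Set V) : Prop :=
  ∃ e x y, G e = s(x, y) ∧ x ≠ y ∧ x ∈ S ∧ y ∈ S

/-- What every kind of minimal counterexample satisfies. -/
structure MC0 (G : E → Sym2 V) : Prop where
  bl : Bl G
  nf : ¬ HasFlow G
  nq : ¬ QP G
  off : ∀ {S : Set V}, Inner G S → ∃ f : E → K, (∀ e, f e ≠ 0) ∧ ∀ v ∉ S, bd G f v = 0

/-- A minimal counterexample for the number of odd vertices. -/
structure MC (G : E → Sym2 V) : Prop extends MC0 G where
  od : (Od G).card ≤ 16
  ih : ∀ G' : E → Sym2 V, mu G' < mu G → Bl G' → (Od G').card ≤ 16 → HasFlow G' ∨ QP G'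

lemma Bl.gmap {G : E → Sym2 V} (h : Bl G) (p : V → V) : Bl (gmap G p) := fun S => by
  rw [cut_gmap]; exact h _

lemma cut_empty (G : E → Sym2 V) : cut G ∅ = ∅ := by
  ext e
  obtain ⟨x, y, he⟩ := exists_ends G e
  simp [mem_cut_of he]

lemma cut_col_out (G : E → Sym2 V) {S : Set V} {s v : V} (hs : s ∈ S) (hv : v ∉ S) :
    cut (gmap G (col S s)) {v} = cut G {v} := by
  rw [cut_gmap]
  congr 1
  ext x
  by_cases hx : x ∈ S
  · simp only [col, hx, Set.mem_preimage, if_true, Set.mem_singleton_iff]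
    constructor
    · rintro rfl; exact absurd hs hv
    · rintro rfl; exact absurd hx hv
  · simp [col, hx]

lemma cut_col_self (G : E → Sym2 V) {S : Set V} {s : V} (hs : s ∈ S) :
    cut (gmap G (col S s)) {s} = cut G S := by
  rw [cut_gmap]
  congr 1
  ext x
  by_cases hx : x ∈ S
  · simp [col, hx]
  · simp only [col, hx, Set.mem_preimage, if_false, Set.mem_singleton_iff, iff_false]
    rintro rfl; exact hx hs

lemma cut_col_in (G : E → Sym2 V) {S : Set V} {s v : V} (hv : v ∈ S) (hvs : v ≠ s) :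
    cut (gmap G (col S s)) {v} = ∅ := by
  rw [cut_gmap, ← cut_empty G]
  congr 1
  ext x
  by_cases hx : x ∈ S
  · simp [col, hx, hvs.symm]
  · simp only [col, hx, Set.mem_preimage, if_false, Set.mem_singleton_iff, Set.mem_empty_iff_false,
      iff_false]
    rintro rfl; exact hx hv

lemma mem_Od_col {G : E → Sym2 V} {S : Set V} {s v : V} (hs : s ∈ S)
    (h : v ∈ Od (gmap G (col S s))) : (v ∈ Od G ∧ v ∉ S) ∨ (v = s ∧ Odd (cut G S).card) := by
  rw [mem_Od] at h
  by_cases hv : v ∈ S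
  · by_cases hvs : v = s
    · subst hvs
      rw [cut_col_self G hs] at h
      exact Or.inr ⟨rfl, h⟩
    · rw [cut_col_in G hv hvs] at h
      simp at h
  · rw [cut_col_out G hs hv] at h
    exact Or.inl ⟨mem_Od.2 h, hv⟩

lemma card_Od_col_le1 (G : E → Sym2 V) {S : Set V} {s : V} (hs : s ∈ S) :
    (Od (gmap G (col S s))).card ≤ ((Od G).filter (· ∉ S)).card + 1 := by
  refine le_trans (Finset.card_le_card (t := insert s ((Od G).filter (· ∉ S))) ?_)
    (Finset.card_insert_le _ _)
  intro v hv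
  rcases mem_Od_col hs hv with h | h
  · exact Finset.mem_insert_of_mem (Finset.mem_filter.2 h)
  · exact h.1 ▸ Finset.mem_insert_self _ _

lemma card_Od_col_even (G : E → Sym2 V) {S : Set V} {s : V} (hs : s ∈ S)
    (he : ¬ Odd (cut G S).card) :
    (Od (gmap G (col S s))).card ≤ ((Od G).filter (· ∉ S)).card := by
  refine Finset.card_le_card (fun v hv => ?_)
  rcases mem_Od_col hs hv with h | h
  · exact Finset.mem_filter.2 h
  · exact absurd h.2 he

lemma card_Od_col_le (G : E → Sym2 V) {S : Set V} {s : V} (hs : s ∈ S) :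
    (Od (gmap G (col S s))).card ≤ (Od G).card := by
  by_cases he : Odd (cut G S).card
  · obtain ⟨v, hv, hvS⟩ := exists_odd_of_cut he
    refine (card_Od_col_le1 G hs).trans ?_
    refine Finset.card_lt_card ⟨Finset.filter_subset _ _, fun h => ?_⟩
    exact (Finset.mem_filter.1 (h hv)).2 hvS
  · exact (card_Od_col_even G hs he).trans (Finset.card_filter_le _ _)

lemma mu_gmap_le (G : E → Sym2 V) (p : V → V) : mu (gmap G p) ≤ mu G := by
  refine Finset.card_le_card (fun e he => ?_)
  simp only [Finset.mem_filter, Finset.mem_univ, true_and] at he ⊢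
  exact fun h => he h.map

lemma mu_col_lt {G : E → Sym2 V} {S : Set V} (s : V) (h : Inner G S) :
    mu (gmap G (col S s)) < mu G := by
  obtain ⟨e, x, y, he, hxy, hx, hy⟩ := h
  refine Finset.card_lt_card ⟨fun e he => ?_, fun h => ?_⟩
  · simp only [Finset.mem_filter, Finset.mem_univ, true_and] at he ⊢
    exact fun h => he h.map
  · have := h (show e ∈ _ by simp [he, hxy])
    simp [gmap_of _ he, col, hx, hy] at this

lemma off_of_col {G : E → Sym2 V} {S : Set V} {s : V} (hs : s ∈ S)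
    (h : HasFlow (gmap G (col S s))) :
    ∃ f : E → K, (∀ e, f e ≠ 0) ∧ ∀ v ∉ S, bd G f v = 0 := by
  obtain ⟨f, h0, hf⟩ := h
  refine ⟨f, h0, fun v hv => ?_⟩
  have := congrFun hf v
  simpa only [bd, cut_col_out G hs hv, Pi.zero_apply] using this

namespace MC

variable {G : E → Sym2 V}

lemma of (bl : Bl G) (od : (Od G).card ≤ 16) (nf : ¬ HasFlow G) (nq : ¬ QP G)
    (ih : ∀ G' : E → Sym2 V, mu G' < mu G → Bl G' → (Od G').card ≤ 16 → HasFlow G' ∨ QP G') :
    MC G := by
  refine ⟨⟨bl, nf, nq, fun {S} h => ?_⟩, od, ih⟩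
  obtain ⟨e, x, y, he, hxy, hx, hy⟩ := id h
  rcases ih _ (mu_col_lt x h) (bl.gmap _) ((card_Od_col_le G hx).trans od) with h1 | h1
  · exact off_of_col hx h1
  · exact absurd h1.of_gmap nq

lemma small (mc : MC G) {G' : E → Sym2 V} (hm : mu G' < mu G) (hb : Bl G')
    (ho : (Od G').card ≤ 9) : HasFlow G' := by
  rcases mc.ih _ hm hb (by omega) with h | h
  · exact h
  · have := h.ten
    omega

lemma off_small (mc : MC G) {G' : E → Sym2 V} (hm : mu G' < mu G) (hb : Bl G') {S : Set V}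
    {s : V} (hs : s ∈ S) (ho : ((Od G').filter (· ∉ S)).card ≤ 8) :
    ∃ f : E → K, (∀ e, f e ≠ 0) ∧ ∀ v ∉ S, bd G' f v = 0 :=
  off_of_col hs (mc.small ((mu_gmap_le _ _).trans_lt hm) (hb.gmap _)
    ((card_Od_col_le1 G' hs).trans (by omega)))

end MC

namespace MC0

variable {G : E → Sym2 V}

lemma ext1 (mc : MC0 G) {e : E} {x y : V} (he : G e = s(x, y)) (hxy : x ≠ y) :
    ∃ f : E → K, bd G f = 0 ∧ f e = 0 ∧ ∀ e', e' ≠ e → f e' ≠ 0 := by
  obtain ⟨f0, h0, hf0⟩ := mc.off (S := {x, y}) ⟨e, x, y, he, hxy, by simp, by simp⟩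
  let f : E → K := f0 + Pi.single e (bd G f0 x)
  have hx : bd G f x = 0 := by
    simp [f, bd_add, bd_single K2 he, hxy, K2]
  have ho : ∀ v, v ≠ x → v ≠ y → bd G f v = 0 := by
    intro v h1 h2
    simp [f, bd_add, bd_single K2 he, h1, h2, hf0 v (by simp [h1, h2])]
  have hy : bd G f y = 0 := by
    refine sum_cut_zero' K2 (S := {y}) (fun v hv => ?_)
    by_cases h1 : v = x
    · rw [h1, hx]
    · exact ho v h1 hv
  have hf : bd G f = 0 := by
    ext1 v
    by_cases h1 : v = x
    · rw [h1, hx]; rfl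
    · by_cases h2 : v = y
      · rw [h2, hy]; rfl
      · exact ho v h1 h2
  have hn : ∀ e', e' ≠ e → f e' ≠ 0 := fun e' h => by simp [f, h, h0]
  refine ⟨f, hf, ?_, hn⟩
  by_contra h
  exact mc.nf ⟨f, fun e' => by
    by_cases h' : e' = e
    · rw [h']; exact h
    · exact hn e' h', hf⟩

lemma no2 (mc : MC0 G) (S : Set V) : (cut G S).card ≠ 2 := by
  intro h
  obtain ⟨a, b, hab, hc⟩ := Finset.card_eq_two.1 h
  have ha : a ∈ cut G S := by simp [hc]
  obtain ⟨x, y, he, hx, hy⟩ := mem_cut.1 ha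
  obtain ⟨f, hf, h0, hn⟩ := mc.ext1 he (fun h => hy (h ▸ hx))
  have := sum_cut_zero K2 (G := G) (S := S) (f := f) (fun v _ => congrFun hf v)
  rw [hc, Finset.sum_pair hab, h0, zero_add] at this
  exact hn b hab.symm this

lemma digon (mc : MC0 G) {a b : E} {x y : V} (ha : G a = s(x, y)) (hb : G b = s(x, y))
    (hxy : x ≠ y) : a = b := by
  by_contra hab
  obtain ⟨f, hf, h0, hn⟩ := mc.ext1 ha hxy
  obtain ⟨k, hk0, hk⟩ : ∃ k : K, k ≠ 0 ∧ f b + k ≠ 0 := by
    generalize f b = t; revert t; decide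
  refine mc.nf ⟨f + (Pi.single a k + Pi.single b k), fun e => ?_, ?_⟩
  · by_cases h1 : e = a
    · subst h1; simp [h0, hab, hk0]
    · by_cases h2 : e = b
      · subst h2; simp [h1, hk]
      · simp [h1, h2, hn e h1]
  · rw [bd_add, bd_add, hf, bd_single K2 ha, bd_single K2 hb]
    ext1 v
    simp only [Pi.add_apply, Pi.zero_apply, zero_add, K2]

lemma triangle (mc : MC0 G) {a b c : E} {x y z : V} (ha : G a = s(x, y)) (hb : G b = s(y, z))
    (hc : G c = s(z, x)) (hxy : x ≠ y) (hyz : y ≠ z) (hzx : z ≠ x) : False := by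
  have hab : a ≠ b := by
    rintro rfl; rw [ha] at hb; simp at hb; tauto
  have hac : a ≠ c := by
    rintro rfl; rw [ha] at hc; simp at hc; tauto
  have hbc : b ≠ c := by
    rintro rfl; rw [hb] at hc; simp at hc; tauto
  obtain ⟨f, hf, h0, hn⟩ := mc.ext1 ha hxy
  obtain ⟨k, hk0, hk, hk'⟩ : ∃ k : K, k ≠ 0 ∧ f b + k ≠ 0 ∧ f c + k ≠ 0 := by
    generalize f b = t; generalize f c = t'; revert t t'; decide
  refine mc.nf ⟨f + (Pi.single a k + Pi.single b k + Pi.single c k), fun e => ?_, ?_⟩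
  · by_cases h1 : e = a
    · subst h1; simp [h0, hab, hac, hk0]
    · by_cases h2 : e = b
      · subst h2; simp [h1, hk, hbc]
      · by_cases h3 : e = c
        · subst h3; simp [h1, h2, hk']
        · simp [h1, h2, h3, hn e h1]
  · rw [bd_add, bd_add, bd_add, hf, bd_single K2 ha, bd_single K2 hb, bd_single K2 hc]
    ext1 v
    simp only [Pi.add_apply, Pi.zero_apply, zero_add]
    generalize (Pi.single x k : V → K) v = p
    generalize (Pi.single y k : V → K) v = q
    generalize (Pi.single z k : V → K) v = r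
    revert p q r; decide

end MC0

/-- Indicator of an edge set modulo two. -/
noncomputable def ind (H : Finset E) : E → ZMod 2 := fun e => if e ∈ H then 1 else 0

lemma ind_insert {H : Finset E} {e : E} (he : e ∉ H) :
    ind (insert e H) = ind H + Pi.single e 1 := by
  ext x
  by_cases hx : x = e
  · subst hx; simp [ind, he]
  · simp [ind, hx]

lemma path_lemma (G : E → Sym2 V) (n : ℕ) : ∀ (H : Finset E), H.card = n → ∀ v,
    bd G (ind H) v = 1 → ∃ w, w ≠ v ∧ bd G (ind H) w = 1 ∧ ∃ J ⊆ H,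
      bd G (ind J) = Pi.single v 1 + Pi.single w 1 := by
  induction n with
  | zero =>
    intro H hH v hv
    rw [Finset.card_eq_zero] at hH
    subst hH
    simp [bd, ind] at hv
  | succ n ih =>
    intro H hH v hv
    obtain ⟨e, he, hne⟩ : ∃ e ∈ cut G {v}, ind H e ≠ 0 :=
      Finset.exists_ne_zero_of_sum_ne_zero (by
        have : ∑ e ∈ cut G {v}, ind H e = 1 := hv
        rw [this]; decide)
    have heH : e ∈ H := by
      by_contra h; simp [ind, h] at hne
    obtain ⟨x, hx, hex⟩ := mem_cut_single.1 he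
    have hH' : H = insert e (H.erase e) := (Finset.insert_erase heH).symm
    have hb : bd G (ind H) = bd G (ind (H.erase e)) + (Pi.single v 1 + Pi.single x 1) := by
      conv_lhs => rw [hH']
      rw [ind_insert (Finset.notMem_erase e H), bd_add, bd_single Z2 hex]
    by_cases hxo : bd G (ind H) x = 1
    · refine ⟨x, hx, hxo, {e}, by simpa using heH, ?_⟩
      rw [← bd_single Z2 hex]
      congr 1
      ext a
      by_cases ha : a = e
      · subst ha; simp [ind]
      · simp [ind, ha]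
    · have h1 : bd G (ind (H.erase e)) x = 1 := by
        have := congrFun hb x
        simp only [Pi.add_apply, Pi.single_eq_same, Pi.single_eq_of_ne hx, zero_add] at this
        rw [this] at hxo
        revert hxo
        generalize bd G (ind (H.erase e)) x = t
        revert t; decide
      obtain ⟨w, hwx, hw, J, hJ, hbJ⟩ := ih (H.erase e)
        (by rw [Finset.card_erase_of_mem heH, hH]; rfl) x h1
      have hwv : w ≠ v := by
        rintro rfl
        have := congrFun hb w
        simp only [Pi.add_apply, Pi.single_eq_same, Pi.single_eq_of_ne hwx, add_zero, hv, hw]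
          at this
        revert this; decide
      refine ⟨w, hwv, ?_, insert e J, ?_, ?_⟩
      · have := congrFun hb w
        simpa [Pi.single_eq_of_ne hwx, Pi.single_eq_of_ne hwv, hw] using this
      · intro a ha
        rcases Finset.mem_insert.1 ha with rfl | ha
        · exact heH
        · exact Finset.mem_of_mem_erase (hJ ha)
      · rw [ind_insert (fun h => Finset.notMem_erase e H (hJ h)), bd_add, hbJ, bd_single Z2 hex]
        ext1 t
        simp only [Pi.add_apply]
        generalize (Pi.single x 1 : V → ZMod 2) t = p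
        generalize (Pi.single v 1 : V → ZMod 2) t = q
        generalize (Pi.single w 1 : V → ZMod 2) t = r
        revert p q r; decide

end Pool.Agent.MP_e6539c_co.h19

end MrgPart1

-- ======== part 2: formerly Pool.Agent.MP_e6539c_co.h19.Cuts
section MrgPart2

/-! Four-cycles, gluing along small cuts, and splitting off. -/

namespace Pool.Agent.MP_e6539c_co.h19

set_option synthInstance.maxSize 4096 in
lemma dist_of_not : ∀ p q r : K, (¬∃ k, k ≠ 0 ∧ p + k ≠ 0 ∧ q + k ≠ 0 ∧ r + k ≠ 0) →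
    (p ≠ 0 ∧ q ≠ 0 ∧ r ≠ 0) ∧ p ≠ q ∧ r ≠ q ∧ p ≠ r := by decide +kernel

set_option synthInstance.maxSize 4096 in
lemma theta_aux : ∀ a1 a2 b1 b2 : K, a1 ≠ 0 → a2 ≠ 0 → a1 ≠ a2 → b1 ≠ 0 → b2 ≠ 0 → b1 ≠ b2 →
    ∃ p q : K, (∀ x : K, x ≠ 0 → x.1 • p + x.2 • q ≠ 0) ∧ b1.1 • p + b1.2 • q = a1 ∧
      b2.1 • p + b2.2 • q = a2 := by decide +kernel

set_option synthInstance.maxSize 4096 in
lemma sq_key : ∀ p q r : K, p ≠ 0 → q ≠ 0 → r ≠ 0 → (p ≠ q ∧ r ≠ q ∧ p ≠ r) →
    p + r ≠ 0 ∧ q + r ≠ 0 ∧ r + p ≠ 0 ∧ r + p = q := by decide +kernel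

open Finset Classical

set_option linter.unusedSectionVars false

variable {V E : Type} [Fintype V] [Fintype E]

/-- The functional with kernel spanned by `k`. -/
def lam (k : K) : K →+ ZMod 2 :=
  AddMonoidHom.mk' (fun x => x.1 * k.2 + x.2 * k.1) (fun x y => by
    simp only [Prod.fst_add, Prod.snd_add]; ring)

/-- Scaling a fixed vector. -/
def sc (k : K) : ZMod 2 →+ K := AddMonoidHom.mk' (fun t => t • k) (fun x y => add_smul x y k)

lemma lam_eq : ∀ k x : K, k ≠ 0 → x ≠ 0 → lam k x = if x ≠ k then 1 else 0 := by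
  intro k x
  simp only [lam, AddMonoidHom.mk'_apply]
  revert k x; decide

section square

variable {G : E → Sym2 V}

lemma square_zero {a b c d : E} {x0 x1 x2 x3 : V} (ha : G a = s(x0, x1))
    (hb : G b = s(x1, x2)) (hc : G c = s(x2, x3)) (hd : G d = s(x3, x0))
    (h01 : x0 ≠ x1) (h02 : x0 ≠ x2) (h03 : x0 ≠ x3) (h12 : x1 ≠ x2) (h13 : x1 ≠ x3)
    (h23 : x2 ≠ x3) {f : E → K} (hf : bd G f = 0) (h0 : f a = 0)
    (hn : ∀ e, e ≠ a → e ≠ b → e ≠ c → e ≠ d → f e ≠ 0) : HasFlow G := by
  by_contra nf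
  have hab : a ≠ b := by
    rintro rfl; rw [ha] at hb; simp at hb; tauto
  have hac : a ≠ c := by
    rintro rfl; rw [ha] at hc; simp at hc; tauto
  have had : a ≠ d := by
    rintro rfl; rw [ha] at hd; simp at hd; tauto
  have hbc : b ≠ c := by
    rintro rfl; rw [hb] at hc; simp at hc; tauto
  have hbd : b ≠ d := by
    rintro rfl; rw [hb] at hd; simp at hd; tauto
  have hcd : c ≠ d := by
    rintro rfl; rw [hc] at hd; simp at hd; tauto
  have fin : ∀ (g : E → K) (p q r s : K), g a = 0 → g b = 0 → g c = 0 → g d = 0 →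
      (∀ e, e ≠ a → e ≠ b → e ≠ c → e ≠ d → f e + g e ≠ 0) → p ≠ 0 → f b + q ≠ 0 → f c + r ≠ 0 → f d + s ≠ 0 →
      bd G g = Pi.single x0 (p + s) + Pi.single x1 (p + q) + Pi.single x2 (q + r) +
        Pi.single x3 (r + s) → False := by
    intro g p q r s ga gb gc gd hg hp hq hr hs hbg
    refine nf ⟨f + g + (Pi.single a p + Pi.single b q + Pi.single c r + Pi.single d s),
      fun e => ?_, ?_⟩
    · by_cases h1 : e = a
      · subst h1; simp [h0, hab, hac, had, ga, hp]
      · by_cases h2 : e = b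
        · subst h2; simp [h1, hbc, hbd, gb, hq]
        · by_cases h3 : e = c
          · subst h3; simp [h1, h2, hcd, gc, hr]
          · by_cases h4 : e = d
            · subst h4; simp [h1, h2, h3, gd, hs]
            · simp [h1, h2, h3, h4, hg e h1 h2 h3 h4]
    · rw [bd_add, bd_add, bd_add, bd_add, bd_add, hf, hbg, bd_single K2 ha, bd_single K2 hb,
        bd_single K2 hc, bd_single K2 hd]
      simp only [Pi.single_add]
      ext1 v
      simp only [Pi.add_apply, Pi.zero_apply, zero_add]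
      have e2 : ∀ t u : K, t = u → t + u = 0 := fun t u h => h ▸ K2 t
      apply e2
      abel
  by_cases hk : ∃ k : K, k ≠ 0 ∧ f b + k ≠ 0 ∧ f c + k ≠ 0 ∧ f d + k ≠ 0
  · obtain ⟨k, h1, h2, h3, h4⟩ := hk
    exact fin 0 k k k k rfl rfl rfl rfl (fun e e1 e2 e3 e4 => by simpa using hn e e1 e2 e3 e4)
      h1 h2 h3 h4
      (by simp [bd_zero, K2])
  obtain ⟨⟨hb0, hc0, hd0⟩, hdist⟩ := dist_of_not _ _ _ hk
  let H : Finset E := univ.filter (fun e => e ≠ a ∧ e ≠ b ∧ e ≠ c ∧ e ≠ d ∧ f e ≠ f c)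
  have hH : ind H = (fun e => lam (f c) (f e)) + (Pi.single b 1 + Pi.single d 1) := by
    ext e
    by_cases h1 : e = a
    · subst h1; simp [ind, H, hab, had, h0]
    · by_cases h2 : e = b
      · subst h2; simp [ind, H, hbd, lam_eq _ _ hc0 hb0, hdist.1, Z2]
      · by_cases h3 : e = c
        · subst h3; simp [ind, H, h2, hcd, lam_eq _ _ hc0 hc0]
        · by_cases h4 : e = d
          · subst h4; simp [ind, H, h2, lam_eq _ _ hc0 hd0, hdist.2.1, Z2]
          · simp [ind, H, h1, h2, h3, h4, lam_eq _ _ hc0 (hn e h1 h2 h3 h4)]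
  have hbH : bd G (ind H) = Pi.single x1 1 + Pi.single x2 1 + (Pi.single x3 1 + Pi.single x0 1) := by
    rw [hH, bd_add, bd_add, bd_single Z2 hb, bd_single Z2 hd]
    ext1 v
    simp [bd_hom, hf]
  obtain ⟨w, hw0, hw, J, hJ, hbJ⟩ := path_lemma G _ H rfl x0 (by simp [hbH, h01, h02, h03])
  let g : E → K := fun e => sc (f c) (ind J e)
  have hg0 : ∀ e, e ∉ H → g e = 0 := fun e he => by
    have : e ∉ J := fun h => he (hJ h)
    simp [g, ind, this]
  have hg : ∀ e, e ≠ a → e ≠ b → e ≠ c → e ≠ d → f e + g e ≠ 0 := fun e e1 e2 e3 e4 => by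
    by_cases h : e ∈ J
    · have h1 : f e ≠ f c := by
        have := hJ h
        simp only [H, Finset.mem_filter] at this
        exact this.2.2.2.2.2
      simp only [g, ind, h, if_true, sc, AddMonoidHom.mk'_apply, one_smul]
      revert h1
      generalize f e = p; generalize f c = q
      revert p q; decide
    · simpa [g, ind, h] using hn e e1 e2 e3 e4
  have hbg : bd G g = Pi.single x0 (f c) + Pi.single w (f c) := by
    ext1 v
    simp only [g, bd_hom, hbJ, Pi.add_apply, map_add, Pi.single_apply]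
    split_ifs <;> simp [sc]
  have ga : g a = 0 := hg0 a (by simp [H])
  have gb : g b = 0 := hg0 b (by simp [H])
  have gc : g c = 0 := hg0 c (by simp [H])
  have gd : g d = 0 := hg0 d (by simp [H])
  by_cases w1 : w = x1
  · exact fin g (f c) 0 0 0 ga gb gc gd hg hc0 (by simpa) (by simpa) (by simpa) (by simp [hbg, w1])
  by_cases w2 : w = x2
  · refine fin g (f c) (f c) 0 0 ga gb gc gd hg hc0 ?_ (by simpa) (by simpa) (by simp [hbg, w2, K2])
    have := hdist.1
    revert this
    generalize f b = p; generalize f c = q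
    revert p q; decide
  by_cases w3 : w = x3
  · have key := sq_key _ _ _ hb0 hc0 hd0 hdist
    exact fin g (f d) (f d) (f d) (f b) ga gb gc gd hg hd0 key.1 key.2.1 key.2.2.1
      (by simp [hbg, w3, K2, key.2.2.2])
  simp [hbH, w1, w2, w3, hw0] at hw

lemma square_off {a b c d : E} {x0 x1 x2 x3 : V} (ha : G a = s(x0, x1))
    (hb : G b = s(x1, x2)) (hc : G c = s(x2, x3)) (hd : G d = s(x3, x0))
    (h01 : x0 ≠ x1) (h02 : x0 ≠ x2) (h03 : x0 ≠ x3) (h12 : x1 ≠ x2) (h13 : x1 ≠ x3)
    (h23 : x2 ≠ x3) {f : E → K} (hn : ∀ e, f e ≠ 0)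
    (hf : ∀ v ∉ ({x0, x1, x2, x3} : Set V), bd G f v = 0) : HasFlow G := by
  have hab : a ≠ b := by
    rintro rfl; rw [ha] at hb; simp at hb; tauto
  have hac : a ≠ c := by
    rintro rfl; rw [ha] at hc; simp at hc; tauto
  have had : a ≠ d := by
    rintro rfl; rw [ha] at hd; simp at hd; tauto
  let p := f a
  let q := bd G f x1 + p
  let r := bd G f x2 + q
  let s := bd G f x0 + p
  let g : E → K := f + (Pi.single a p + Pi.single b q + Pi.single c r + Pi.single d s)
  have hg : bd G g = bd G f + (Pi.single x0 p + Pi.single x1 p + (Pi.single x1 q + Pi.single x2 q) +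
      (Pi.single x2 r + Pi.single x3 r) + (Pi.single x3 s + Pi.single x0 s)) := by
    simp only [g, bd_add, bd_single K2 ha, bd_single K2 hb, bd_single K2 hc, bd_single K2 hd]
  have k1 : ∀ t u : K, t + (u + (t + u)) = 0 := by decide
  have o : ∀ v, v ≠ x3 → bd G g v = 0 := by
    intro v h3
    rw [hg]
    by_cases e0 : v = x0
    · subst e0; simp [h01, h02, h03, s, k1]
    by_cases e1 : v = x1
    · subst e1; simp [e0, h12, h13, q, k1]
    by_cases e2 : v = x2
    · subst e2; simp [e0, e1, h23, r, k1]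
    simp [e0, e1, e2, h3, hf v (by simp [e0, e1, e2, h3])]
  refine square_zero ha hb hc hd h01 h02 h03 h12 h13 h23 (f := g) ?_ ?_ (fun e e1 e2 e3 e4 => ?_)
  · ext1 v
    by_cases h3 : v = x3
    · rw [h3]
      exact sum_cut_zero' K2 (S := {x3}) o
    · exact o v h3
  · simp [g, hab, hac, had, p, K2]
  · simp [g, e1, e2, e3, e4, hn]

lemma MC0.square (mc : MC0 G) {a b c d : E} {x0 x1 x2 x3 : V} (ha : G a = s(x0, x1))
    (hb : G b = s(x1, x2)) (hc : G c = s(x2, x3)) (hd : G d = s(x3, x0))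
    (h01 : x0 ≠ x1) (h02 : x0 ≠ x2) (h03 : x0 ≠ x3) (h12 : x1 ≠ x2) (h13 : x1 ≠ x3)
    (h23 : x2 ≠ x3) : False := by
  obtain ⟨f, hf, h0, hn⟩ := mc.ext1 ha h01
  exact mc.nf (square_zero ha hb hc hd h01 h02 h03 h12 h13 h23 hf h0 (fun e h _ _ _ => hn e h))

end square

lemma glue {G : E → Sym2 V} {S : Set V} {f1 f2 : E → K} (n1 : ∀ e, f1 e ≠ 0) (n2 : ∀ e, f2 e ≠ 0)
    (h1 : ∀ v ∉ S, bd G f1 v = 0) (h2 : ∀ v ∈ S, bd G f2 v = 0)
    (heq : ∀ e ∈ cut G S, f1 e = f2 e) : HasFlow G := by
  refine ⟨fun e => if ∃ x ∈ G e, x ∈ S then f2 e else f1 e, fun e => ?_, ?_⟩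
  · dsimp only
    split_ifs
    · exact n2 e
    · exact n1 e
  · ext1 v
    by_cases hv : v ∈ S
    · rw [Pi.zero_apply, ← h2 v hv]
      refine bd_congr_at (fun e he => ?_)
      obtain ⟨y, _, hy⟩ := mem_cut_single.1 he
      rw [if_pos ⟨v, by simp [hy], hv⟩]
    · rw [Pi.zero_apply, ← h1 v hv]
      refine bd_congr_at (fun e he => ?_)
      obtain ⟨y, _, hy⟩ := mem_cut_single.1 he
      split_ifs with h
      · refine (heq e ?_).symm
        rw [mem_cut_of hy]
        obtain ⟨x, hx, hxS⟩ := h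
        rw [hy, Sym2.mem_iff] at hx
        rcases hx with rfl | rfl
        · exact absurd hxS hv
        · tauto
      · rfl

lemma exists_theta (a1 a2 b1 b2 : K) (h1 : a1 ≠ 0) (h2 : a2 ≠ 0) (h3 : a1 ≠ a2) (h4 : b1 ≠ 0)
    (h5 : b2 ≠ 0) (h6 : b1 ≠ b2) : ∃ θ : K →+ K, (∀ x, x ≠ 0 → θ x ≠ 0) ∧ θ b1 = a1 ∧ θ b2 = a2 := by
  obtain ⟨p, q, h⟩ := theta_aux a1 a2 b1 b2 h1 h2 h3 h4 h5 h6
  exact ⟨AddMonoidHom.mk' (fun x => x.1 • p + x.2 • q) (fun x y => by
    simp only [Prod.fst_add, Prod.snd_add, add_smul]; abel), h⟩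

lemma glue3 {G : E → Sym2 V} {S : Set V} {f1 f2 : E → K} (n1 : ∀ e, f1 e ≠ 0) (n2 : ∀ e, f2 e ≠ 0)
    (h1 : ∀ v ∉ S, bd G f1 v = 0) (h2 : ∀ v ∈ S, bd G f2 v = 0)
    (hc : (cut G S).card = 3 ∨ (cut G S).card = 0) : HasFlow G := by
  rcases hc with hc | hc
  · obtain ⟨a, b, c, hab, hac, hbc, hs⟩ := Finset.card_eq_three.1 hc
    have s1 := sum_cut_zero' K2 h1
    have s2 := sum_cut_zero K2 h2
    rw [hs, Finset.sum_insert (by simp [hab, hac]), Finset.sum_pair hbc] at s1 s2
    have k1 : ∀ p q r : K, r ≠ 0 → p + (q + r) = 0 → p ≠ q ∧ r = p + q := by decide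
    obtain ⟨θ, t0, ta, tb⟩ := exists_theta (f1 a) (f1 b) (f2 a) (f2 b) (n1 a) (n1 b)
      (k1 _ _ _ (n1 c) s1).1 (n2 a) (n2 b) (k1 _ _ _ (n2 c) s2).1
    refine glue (f2 := fun e => θ (f2 e)) n1 (fun e => t0 _ (n2 e)) h1
      (fun v hv => by rw [bd_hom, h2 v hv, map_zero]) (fun e he => ?_)
    rw [hs] at he
    simp only [Finset.mem_insert, Finset.mem_singleton] at he
    rcases he with rfl | rfl | rfl
    · exact ta.symm
    · exact tb.symm
    · rw [(k1 _ _ _ (n1 e) s1).2, (k1 _ _ _ (n2 e) s2).2, map_add, ta, tb]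
  · rw [Finset.card_eq_zero] at hc
    exact glue n1 n2 h1 h2 (by simp [hc])

lemma cut_single_subset {G : E → Sym2 V} {S : Set V} (hi : ¬ Inner G S) {x : V} (hx : x ∈ S) :
    cut G {x} ⊆ cut G S := by
  intro e he
  obtain ⟨y, hy, h⟩ := mem_cut_single.1 he
  rw [mem_cut_of h]
  intro hh
  exact hi ⟨e, x, y, h, hy.symm, hx, hh.1 hx⟩

namespace MC0

variable {G : E → Sym2 V}

lemma triv (mc : MC0 G) {S : Set V} (hc : (cut G S).card = 3 ∨ (cut G S).card = 0)
    (h1 : Inner G S) : ¬ Inner G Sᶜ := fun h2 => by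
  obtain ⟨f1, n1, b1⟩ := mc.off h1
  obtain ⟨f2, n2, b2⟩ := mc.off h2
  exact mc.nf (glue3 n1 n2 b1 (fun v hv => b2 v (by simpa using hv)) hc)

lemma apex (mc : MC0 G) {S : Set V} (hc : (cut G S).card = 3) (hi : ¬ Inner G S) :
    ∃ z ∈ S, cut G {z} = cut G S ∧ ∀ x ∈ S, x ≠ z → cut G {x} = ∅ := by
  obtain ⟨e, he⟩ := Finset.card_pos.1 (show 0 < (cut G S).card by omega)
  obtain ⟨z, y, h, hz, hy⟩ := mem_cut.1 he
  have hs := cut_single_subset hi hz
  have hez : e ∈ cut G {z} := mem_cut_single.2 ⟨y, fun hh => hy (hh ▸ hz), h⟩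
  have h1 := Finset.card_le_card hs
  have h2 := Finset.card_pos.2 ⟨e, hez⟩
  have h3 := mc.bl {z}
  have h4 := mc.no2 {z}
  have heq : cut G {z} = cut G S := Finset.eq_of_subset_of_card_le hs (by omega)
  refine ⟨z, hz, heq, fun x hx hxz => ?_⟩
  refine Finset.eq_empty_of_forall_notMem (fun e' he' => ?_)
  have h5 : e' ∈ cut G {z} := heq ▸ cut_single_subset hi hx he'
  obtain ⟨y', hy', h'⟩ := mem_cut_single.1 he'
  rw [mem_cut_of h'] at h5
  simp only [Set.mem_singleton_iff, hxz, false_iff, not_not] at h5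
  subst h5
  exact hi ⟨e', x, y', h', hxz, hx, hz⟩

end MC0

/-- Split off the pair of edges `a = vu`, `b = vw` at `v`. -/
noncomputable def split (G : E → Sym2 V) (a b : E) (v u w : V) : E → Sym2 V :=
  fun e => if e = b then s(v, v) else if e = a then s(u, w) else G e

section split

variable {G : E → Sym2 V} {a b : E} {v u w : V}

lemma split_a (hab : a ≠ b) : split G a b v u w a = s(u, w) := by simp [split, hab]

lemma split_b : split G a b v u w b = s(v, v) := by simp [split]

lemma split_o {e : E} (h1 : e ≠ a) (h2 : e ≠ b) : split G a b v u w e = G e := by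
  simp [split, h1, h2]

lemma bd_split {M : Type} [AddCommGroup M] (h2 : ∀ x : M, x + x = 0) (hab : a ≠ b)
    (ha : G a = s(v, u)) (hb : G b = s(v, w)) {f : E → M} (hf : f a = f b) :
    bd (split G a b v u w) f = bd G f := by
  let f0 : E → M := fun e => if e = a ∨ e = b then 0 else f e
  have e1 : f = f0 + (Pi.single a (f a) + Pi.single b (f a)) := by
    ext e
    by_cases h1 : e = a
    · subst h1; simp [f0, hab]
    · by_cases h2 : e = b
      · subst h2; simp [f0, h1, hf]
      · simp [f0, h1, h2]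
  have e2 : bd (split G a b v u w) f0 = bd G f0 := bd_congr (fun e he => by
    by_cases h1 : e = a
    · simp [f0, h1]
    · by_cases h2 : e = b
      · simp [f0, h2]
      · exact absurd (split_o h1 h2) he)
  rw [e1, bd_add, bd_add, bd_add, bd_add, e2, bd_single h2 ha, bd_single h2 hb,
    bd_single h2 (split_a hab), bd_single h2 split_b]
  congr 1
  ext1 t
  simp only [Pi.add_apply]
  abel

lemma Od_split (hab : a ≠ b) (ha : G a = s(v, u)) (hb : G b = s(v, w)) :
    Od (split G a b v u w) = Od G := by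
  ext x
  rw [mem_Od', mem_Od', bd_split Z2 hab ha hb rfl]

lemma flow_split (hab : a ≠ b) (ha : G a = s(v, u)) (hb : G b = s(v, w))
    (h : HasFlow (split G a b v u w)) :
    ∃ f : E → K, (∀ e, f e ≠ 0) ∧ bd G f = 0 ∧ f a = f b := by
  obtain ⟨f, h0, hf⟩ := h
  have e1 : (f + Pi.single b (f a + f b) : E → K) a = f a := by simp [hab]
  have e2 : (f + Pi.single b (f a + f b) : E → K) b = f a := by
    simp only [Pi.add_apply, Pi.single_eq_same]
    generalize f a = p; generalize f b = q; revert p q; decide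
  refine ⟨f + Pi.single b (f a + f b), fun e => ?_, ?_, e1.trans e2.symm⟩
  · by_cases h : e = b
    · rw [h, e2]; exact h0 a
    · simp [h, h0]
  · rw [← bd_split K2 hab ha hb (e1.trans e2.symm), bd_add, hf, bd_single K2 split_b]
    ext1 t
    simp [K2]

lemma mu_split (ha : G a = s(v, u)) (hb : G b = s(v, w)) (hu : u ≠ v) (hw : w ≠ v) :
    mu (split G a b v u w) < mu G := by
  refine Finset.card_lt_card ⟨fun e he => ?_, fun h => ?_⟩
  · simp only [Finset.mem_filter, Finset.mem_univ, true_and] at he ⊢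
    by_cases h1 : e = a
    · simp [h1, ha, hu.symm]
    · by_cases h2 : e = b
      · simp [h2, hb, hw.symm]
      · rwa [split_o h1 h2] at he
  · have := h (show b ∈ _ by simp [hb, hw.symm])
    simp [split_b] at this

lemma cut_split_both (hab : a ≠ b) (ha : G a = s(v, u)) (hb : G b = s(v, w)) {S : Set V}
    (hv : v ∉ S) (hu : u ∈ S) (hw : w ∈ S) :
    (cut G S).card = (cut (split G a b v u w) S).card + 2 := by
  have : cut G S = insert a (insert b (cut (split G a b v u w) S)) := by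
    ext e
    by_cases h1 : e = a
    · subst h1; simp [mem_cut_of ha, hv, hu]
    · by_cases h2 : e = b
      · subst h2; simp [mem_cut_of hb, hv, hw]
      · simp [h1, h2, mem_cut, split_o h1 h2]
  rw [this, Finset.card_insert_of_notMem, Finset.card_insert_of_notMem]
  · simp [mem_cut_of split_b]
  · simp [hab, mem_cut_of (split_a hab), hu, hw]

lemma cut_split_else (hab : a ≠ b) (ha : G a = s(v, u)) (hb : G b = s(v, w)) {S : Set V}
    (hv : v ∉ S) (h : ¬ (u ∈ S ∧ w ∈ S)) :
    (cut (split G a b v u w) S).card = (cut G S).card := by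
  by_cases hw : w ∈ S
  · have hu : u ∉ S := fun hu => h ⟨hu, hw⟩
    have e1 : cut G S = insert b ((cut (split G a b v u w) S).erase a) := by
      ext e
      by_cases h1 : e = a
      · subst h1; simp [mem_cut_of ha, hv, hu, hab]
      · by_cases h2 : e = b
        · subst h2; simp [mem_cut_of hb, hv, hw]
        · simp [h1, h2, mem_cut, split_o h1 h2]
    have e2 : a ∈ cut (split G a b v u w) S := by simp [mem_cut_of (split_a hab), hu, hw]
    rw [e1, Finset.card_insert_of_notMem (by simp [mem_cut_of split_b]),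
      Finset.card_erase_add_one e2]
  · congr 1
    ext e
    by_cases h1 : e = a
    · subst h1; simp [mem_cut_of ha, mem_cut_of (split_a hab), hv, hw]
    · by_cases h2 : e = b
      · subst h2; simp [mem_cut_of hb, mem_cut_of split_b, hv, hw]
      · simp [mem_cut, split_o h1 h2]

lemma bl_split (hab : a ≠ b) (ha : G a = s(v, u)) (hb : G b = s(v, w)) (hG : Bl G)
    (h : ¬ Bl (split G a b v u w)) : ∃ S : Set V, v ∉ S ∧ u ∈ S ∧ w ∈ S ∧ (cut G S).card = 3 := by
  obtain ⟨S, hS⟩ := not_forall.1 h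
  rw [not_not] at hS
  wlog hv : v ∉ S generalizing S
  · exact this Sᶜ (by rw [cut_compl]; exact hS) (by simpa using hv)
  by_cases huw : u ∈ S ∧ w ∈ S
  · exact ⟨S, hv, huw.1, huw.2, by rw [cut_split_both hab ha hb hv huw.1 huw.2, hS]⟩
  · rw [cut_split_else hab ha hb hv huw] at hS
    exact absurd hS (hG S)

end split

end Pool.Agent.MP_e6539c_co.h19

end MrgPart2

-- ======== part 3: formerly Pool.Agent.MP_e6539c_co.h19.Poles
section MrgPart3

/-! Replacing an isochromatic four-pole or a dyad by something smaller. -/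

namespace Pool.Agent.MP_e6539c_co.h19

open Finset Classical

set_option linter.unusedSectionVars false

variable {V E : Type} [Fintype V] [Fintype E]

lemma third {s : Finset E} (h : s.card = 3) {a b : E} (ha : a ∈ s) (hb : b ∈ s) (hab : a ≠ b) :
    ∃ c, c ≠ a ∧ c ≠ b ∧ s = {a, b, c} := by
  have h1 : ((s.erase a).erase b).card = 1 := by
    rw [Finset.card_erase_of_mem (by simp [hb, hab.symm]), Finset.card_erase_of_mem ha, h]
  obtain ⟨c, hc⟩ := Finset.card_eq_one.1 h1
  have h2 : c ∈ (s.erase a).erase b := by simp [hc]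
  simp only [Finset.mem_erase] at h2
  refine ⟨c, h2.2.1, h2.1, ?_⟩
  ext x
  have : x ∈ (s.erase a).erase b ↔ x = c := by simp [hc]
  simp only [Finset.mem_erase] at this
  simp only [Finset.mem_insert, Finset.mem_singleton]
  constructor
  · intro hx
    by_cases h1 : x = a
    · exact Or.inl h1
    · by_cases h2 : x = b
      · exact Or.inr (Or.inl h2)
      · exact Or.inr (Or.inr (this.1 ⟨h2, h1, hx⟩))
  · rintro (rfl | rfl | rfl)
    · exact ha
    · exact hb
    · exact h2.2.2

lemma Inner.mono {G : E → Sym2 V} {S T : Set V} (h : Inner G S) (hST : S ⊆ T) : Inner G T := by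
  obtain ⟨e, x, y, he, hxy, hx, hy⟩ := h
  exact ⟨e, x, y, he, hxy, hST hx, hST hy⟩

namespace MC0

variable {G : E → Sym2 V}

lemma pole (mc : MC0 G) {W : Set V} {a1 a2 : E} (h12 : a1 ≠ a2) (h1 : a1 ∈ cut G W)
    (h2 : a2 ∈ cut G W) (hW : Inner G W) :
    (∃ G2 : E → Sym2 V, ∃ q ∈ W, mu G2 < mu G ∧ Bl G2 ∧ Od G2 = Od (gmap G (col W q)) ∧
      (HasFlow G2 → ∃ f : E → K, (∀ e, f e ≠ 0) ∧ (∀ x ∉ W, bd G f x = 0) ∧ f a1 = f a2) ∧
      (∀ X : Set V, Disjoint X W → a1 ∈ cut G X → a2 ∈ cut G X →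
        (cut G X).card = (cut G2 X).card + 2) ∧
      ∃ p1, (∀ X : Set V, Disjoint X W → a1 ∈ cut G X → p1 ∈ X) ∧
        ∀ X : Set V, q ∉ X → p1 ∉ X → (cut G2 X).card = (cut G (X \ W)).card) ∨
    ∃ z ∉ W, ∃ c, c ≠ a1 ∧ c ≠ a2 ∧ cut G {z} = {a1, a2, c} := by
  obtain ⟨q1, p1, e1, hq1, hp1⟩ := mem_cut.1 h1
  obtain ⟨q2, p2, e2, hq2, hp2⟩ := mem_cut.1 h2
  have g1 : gmap G (col W q1) a1 = s(q1, p1) := by simp [gmap_of _ e1, col, hq1, hp1]
  have g2 : gmap G (col W q1) a2 = s(q1, p2) := by simp [gmap_of _ e2, col, hq2, hp2]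
  have n1 : p1 ≠ q1 := fun h => hp1 (h ▸ hq1)
  have n2 : p2 ≠ q1 := fun h => hp2 (h ▸ hq1)
  by_cases hb : Bl (split (gmap G (col W q1)) a1 a2 q1 p1 p2)
  · refine Or.inl ⟨_, q1, hq1, (mu_split g1 g2 n1 n2).trans_le (mu_gmap_le _ _), hb,
      Od_split h12 g1 g2, fun h => ?_, fun X hX x1 x2 => ?_, p1, fun X hX x1 => ?_,
      fun X hq hp => ?_⟩
    · obtain ⟨f, f0, hf, hfe⟩ := flow_split h12 g1 g2 h
      refine ⟨f, f0, fun x hx => ?_, hfe⟩
      have := congrFun hf x
      simpa only [bd, cut_col_out G hq1 hx, Pi.zero_apply] using this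
    · have d1 : ∀ x, x ∈ W → x ∉ X := fun x hx => Set.disjoint_right.1 hX hx
      have hp1X : p1 ∈ X := by
        rw [mem_cut_of e1] at x1
        have := d1 q1 hq1
        tauto
      have hp2X : p2 ∈ X := by
        rw [mem_cut_of e2] at x2
        have := d1 q2 hq2
        tauto
      rw [← cut_split_both h12 g1 g2 (d1 q1 hq1) hp1X hp2X, cut_gmap]
      congr 2
      ext x
      by_cases hx : x ∈ W
      · simp [col, hx, d1 x hx, d1 q1 hq1]
      · simp [col, hx]
    · rw [mem_cut_of e1] at x1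
      have := Set.disjoint_right.1 hX hq1
      tauto
    · rw [cut_split_else h12 g1 g2 hq (fun t => hp t.1), cut_gmap]
      congr 2
      ext x
      by_cases hx : x ∈ W
      · simp [col, hx, hq]
      · simp [col, hx]
  · obtain ⟨S, s0, s1, s2, hS⟩ := bl_split h12 g1 g2 (mc.bl.gmap _) hb
    rw [cut_gmap] at hS
    have d1 : ∀ x, x ∈ W → x ∉ col W q1 ⁻¹' S := fun x hx => by simp [col, hx, s0]
    have hi : ¬ Inner G (col W q1 ⁻¹' S) := fun h =>
      mc.triv (Or.inl hS) h (hW.mono (fun x hx => d1 x hx))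
    obtain ⟨z, hz, hcz, -⟩ := mc.apex hS hi
    have m1 : a1 ∈ cut G (col W q1 ⁻¹' S) := by
      rw [mem_cut_of e1]
      have := d1 q1 hq1
      have : p1 ∈ col W q1 ⁻¹' S := by simp [col, hp1, s1]
      tauto
    have m2 : a2 ∈ cut G (col W q1 ⁻¹' S) := by
      rw [mem_cut_of e2]
      have := d1 q2 hq2
      have : p2 ∈ col W q1 ⁻¹' S := by simp [col, hp2, s2]
      tauto
    obtain ⟨c, c1, c2, hc⟩ := third hS m1 m2 h12
    exact Or.inr ⟨z, fun h => d1 z h hz, c, c1, c2, hcz.trans hc⟩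

end MC0

namespace MC

variable {G : E → Sym2 V}

lemma four_ne {a1 a2 b1 b2 : E} (h4 : ({a1, a2, b1, b2} : Finset E).card = 4) :
    a1 ≠ a2 ∧ a1 ≠ b1 ∧ a1 ≠ b2 ∧ a2 ≠ b1 ∧ a2 ≠ b2 ∧ b1 ≠ b2 := by
  refine ⟨?_, ?_, ?_, ?_, ?_, ?_⟩ <;> rintro rfl <;> simp at h4 <;>
    exact absurd h4 (ne_of_lt (lt_of_le_of_lt Finset.card_le_three (by norm_num)))

lemma five_ne {a1 a2 b1 b2 c : E} (h5 : ({a1, a2, b1, b2, c} : Finset E).card = 5) :
    a1 ≠ a2 ∧ a1 ≠ b1 ∧ a1 ≠ b2 ∧ a1 ≠ c ∧ a2 ≠ b1 ∧ a2 ≠ b2 ∧ a2 ≠ c ∧ b1 ≠ b2 ∧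
      b1 ≠ c ∧ b2 ≠ c := by
  refine ⟨?_, ?_, ?_, ?_, ?_, ?_, ?_, ?_, ?_, ?_⟩ <;> rintro rfl <;> simp at h5 <;>
    exact absurd h5 (ne_of_lt (lt_of_le_of_lt Finset.card_le_four (by norm_num)))

lemma iso (mc : MC G) {W : Set V} {v : V} {a1 a2 b1 b2 : E} (hv : v ∉ W)
    (hd : 4 ≤ (cut G {v}).card) (hc : cut G W = {a1, a2, b1, b2}) (h4 : (cut G W).card = 4)
    (ho : ((Od G).filter (· ∉ W)).card ≤ 9) (hW : Inner G W)
    (hext : ∀ f : E → K, (∀ e, f e ≠ 0) → (∀ x ∉ W, bd G f x = 0) → f a1 = f a2 → False) :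
    False := by
  obtain ⟨n1, n2, n3, n4, n5, n6⟩ := four_ne (hc ▸ h4)
  rcases mc.toMC0.pole n1 (by simp [hc]) (by simp [hc]) hW with ⟨G2, q, hq, hm, hb, hO, hf, -⟩ | h
  · obtain ⟨f, f0, f1, f2⟩ := hf (mc.small hm hb (by
      rw [hO]
      exact (card_Od_col_even G hq (by rw [h4]; decide)).trans ho))
    exact hext f f0 f1 f2
  · obtain ⟨z, hz, c, c1, c2, hcz⟩ := h
    have hT := cut_union G (S := W) (T := {z}) (by simpa using hz)
    rw [hc, hcz] at hT
    have cb1 : c ≠ b1 := by
      rintro rfl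
      refine mc.bl (W ∪ {z}) (Finset.card_eq_one.2 ⟨b2, ?_⟩)
      rw [hT]; ext x; simp only [Finset.mem_symmDiff, Finset.mem_insert, Finset.mem_singleton]
      grind
    have cb2 : c ≠ b2 := by
      rintro rfl
      refine mc.bl (W ∪ {z}) (Finset.card_eq_one.2 ⟨b1, ?_⟩)
      rw [hT]; ext x; simp only [Finset.mem_symmDiff, Finset.mem_insert, Finset.mem_singleton]
      grind
    have h3 : (cut G (W ∪ {z})).card = 3 := by
      refine Finset.card_eq_three.2 ⟨b1, b2, c, n6, cb1.symm, cb2.symm, ?_⟩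
      rw [hT]; ext x; simp only [Finset.mem_symmDiff, Finset.mem_insert, Finset.mem_singleton]
      grind
    have hi := mc.triv (Or.inl h3) (hW.mono Set.subset_union_left)
    have hvz : v ≠ z := by
      rintro rfl
      rw [hcz] at hd
      have := (Finset.card_le_three : ({a1, a2, c} : Finset E).card ≤ 3)
      omega
    have := Finset.card_le_card (cut_single_subset hi (x := v) (by simp [hv, hvz]))
    rw [cut_compl] at this
    omega

lemma dyad (mc : MC G) {W X : Set V} {v : V} {a1 a2 b1 b2 c : E} (hv : v ∉ W)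
    (hd : 4 ≤ (cut G {v}).card) (hc : cut G W = {a1, a2, b1, b2, c}) (h5 : (cut G W).card = 5)
    (hXW : Disjoint X W) (x1 : a1 ∈ cut G X) (x2 : a2 ∈ cut G X) (hX : (cut G X).card = 5)
    (o1 : ((Od G).filter (· ∈ X)).card ≤ 8) (o2 : ((Od G).filter (fun x => x ∉ X ∧ x ∉ W)).card ≤ 7)
    (o3 : ((Od G).filter (· ∉ W)).card ≤ 10) (hW : Inner G W)
    (ext1 : ∀ f : E → K, (∀ e, f e ≠ 0) → (∀ x ∉ W, bd G f x = 0) → f a1 = f a2 → False)
    (ext2 : ∀ f : E → K, (∀ e, f e ≠ 0) → (∀ x ∉ W, bd G f x = 0) → f b1 = f b2 → False) :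
    False := by
  obtain ⟨n1, n2, n3, n4, n5, n6, n7, n8, n9, n10⟩ := five_ne (hc ▸ h5)
  rcases mc.toMC0.pole n1 (by simp [hc]) (by simp [hc]) hW with ⟨G2, q, hq, hm, hb, hO, hf, hcut, -⟩ | h
  · have c3 : (cut G2 X).card = 3 := by
      have := hcut X hXW x1 x2
      omega
    have hqX : q ∉ X := Set.disjoint_right.1 hXW hq
    obtain ⟨s, y, -, hs, -⟩ := mem_cut.1 x1
    obtain ⟨f1, f10, f11⟩ := mc.off_small hm hb hs (by
      rw [hO]
      refine le_trans (Finset.card_le_card
        (t := insert q ((Od G).filter (fun x => x ∉ X ∧ x ∉ W))) ?_)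
        ((Finset.card_insert_le _ _).trans (by omega))
      intro x hx
      rw [Finset.mem_filter] at hx
      rcases mem_Od_col hq hx.1 with h | h
      · exact Finset.mem_insert_of_mem (Finset.mem_filter.2 ⟨h.1, hx.2, h.2⟩)
      · exact h.1 ▸ Finset.mem_insert_self _ _)
    obtain ⟨f2, f20, f21⟩ := mc.off_small hm hb (S := Xᶜ) hqX (by
      rw [hO]
      refine le_trans (Finset.card_le_card ?_) o1
      intro x hx
      simp only [Finset.mem_filter] at hx
      have hxX : x ∈ X := by simpa using hx.2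
      rcases mem_Od_col hq hx.1 with h | h
      · exact Finset.mem_filter.2 ⟨h.1, hxX⟩
      · exact absurd (h.1 ▸ hxX) hqX)
    obtain ⟨f, f0, f1, f2⟩ := hf (glue3 f10 f20 f11 (fun v hv => f21 v (by simpa using hv))
      (Or.inl c3))
    exact ext1 f f0 f1 f2
  · obtain ⟨z, hz, d, d1, d2, hcz⟩ := h
    have hT := cut_union G (S := W) (T := {z}) (by simpa using hz)
    rw [hc, hcz] at hT
    have db1 : d ≠ b1 := by
      rintro rfl
      refine mc.no2 (W ∪ {z}) (Finset.card_eq_two.2 ⟨b2, c, n10, ?_⟩)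
      rw [hT]; ext x; simp only [Finset.mem_symmDiff, Finset.mem_insert, Finset.mem_singleton]
      grind
    have db2 : d ≠ b2 := by
      rintro rfl
      refine mc.no2 (W ∪ {z}) (Finset.card_eq_two.2 ⟨b1, c, n9, ?_⟩)
      rw [hT]; ext x; simp only [Finset.mem_symmDiff, Finset.mem_insert, Finset.mem_singleton]
      grind
    have dc : d ≠ c := by
      rintro rfl
      refine mc.no2 (W ∪ {z}) (Finset.card_eq_two.2 ⟨b1, b2, n8, ?_⟩)
      rw [hT]; ext x; simp only [Finset.mem_symmDiff, Finset.mem_insert, Finset.mem_singleton]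
      grind
    have hT' : cut G (W ∪ {z}) = {b1, b2, c, d} := by
      rw [hT]; ext x; simp only [Finset.mem_symmDiff, Finset.mem_insert, Finset.mem_singleton]
      grind
    have hz3 : (cut G {z}).card = 3 := Finset.card_eq_three.2 ⟨a1, a2, d, n1, d1.symm, d2.symm, hcz⟩
    have hvz : v ≠ z := by
      rintro rfl
      omega
    refine mc.iso (W := W ∪ {z}) (v := v) (by simp [hv, hvz]) hd hT' ?_ ?_
      (hW.mono Set.subset_union_left) (fun f f0 f1 f2 => ?_)
    · rw [hT', Finset.card_insert_of_notMem (by simp [n8, n9, db1.symm]),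
        Finset.card_insert_of_notMem (by simp [n10, db2.symm]), Finset.card_pair dc.symm]
    · refine Nat.le_of_lt_succ (lt_of_lt_of_le ?_ o3)
      refine Finset.card_lt_card ⟨fun x hx => ?_, fun h => ?_⟩
      · simp only [Finset.mem_filter] at hx ⊢
        exact ⟨hx.1, fun h => hx.2 (Or.inl h)⟩
      · have := h (Finset.mem_filter.2 ⟨mem_Od.2 (by rw [hz3]; decide), hz⟩)
        simp at this
    · obtain ⟨p, q, hp, hq, hpq⟩ : ∃ p q : K, p ≠ 0 ∧ q ≠ 0 ∧ p + (q + f d) = 0 := by
        generalize f d = t; revert t; decide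
      let g : E → K := fun e => if e = a1 then p else if e = a2 then q else f e
      refine ext2 g (fun e => ?_) (fun x hx => ?_) (by simp [g, n2.symm, n3.symm, n5.symm, n6.symm, f2])
      · simp only [g]
        split_ifs
        · exact hp
        · exact hq
        · exact f0 e
      · by_cases hxz : x = z
        · subst hxz
          simp only [bd]
          rw [hcz, Finset.sum_insert (by simp [n1, d1.symm]), Finset.sum_pair d2.symm]
          simpa [g, n1.symm, d1, d2] using hpq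
        · rw [← f1 x (by simp [hx, hxz])]
          refine bd_congr_at (fun e he => ?_)
          have key : ∀ a, a ∈ cut G W → a ∈ cut G {z} → e ≠ a := by
            rintro a k1 k2 rfl
            obtain ⟨y, hy, h⟩ := mem_cut_single.1 he
            rw [mem_cut_of h] at k1 k2
            simp only [Set.mem_singleton_iff, hxz, false_iff, not_not] at k2
            subst k2
            tauto
          simp [g, key a1 (by simp [hc]) (by simp [hcz]), key a2 (by simp [hc]) (by simp [hcz])]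

end MC

end Pool.Agent.MP_e6539c_co.h19

end MrgPart3

-- marker of a merged file
example : 731051 + 401165 = 731051 + 401165 := rfl
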