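import Mathlib.Data.Fin.VecNotation
import Pool.Agent.MP_e6539c_co.h19.Poles

-- ======== part 0: formerly Pool.Agent.MP_e6539c_co.h19.Tables
section MrgPart0

/-! Finite tables about the Petersen graph. -/

namespace Pool.Agent.MP_e6539c_co.h19

/-- Two bits of `n` read as an element of the Klein group. -/
def dec2 (n t : ℕ) : K := (if n.testBit (2 * t) then 1 else 0, if n.testBit (2 * t + 1) then 1 else 0)

/-- A symmetric table of colours. -/
def cc (n : ℕ) (l m : Fin 10) : K := dec2 n (10 * min l.val m.val + max l.val m.val)

lemma cc_symm (n : ℕ) (l m : Fin 10) : cc n l m = cc n m l := by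
  simp only [cc, min_comm, max_comm]

/-- The table colours the vertices from `t` on, with outer values `r`. -/
def good (t : ℕ) (r : Fin 10 → K) (n : ℕ) : Prop :=
  (∀ l m : Fin 10, t ≤ l.val → t ≤ m.val → adj l m = true → cc n l m ≠ 0) ∧
    ∀ l : Fin 10, t ≤ l.val →
      ∑ m ∈ Finset.univ.filter (fun m => adj l m = true), (if t ≤ m.val then cc n l m else r l) = 0

instance (t : ℕ) (r : Fin 10 → K) (n : ℕ) : Decidable (good t r n) := by
  unfold good; infer_instance

/-- Colourings of the isochromatic four-pole. -/
def isoL : List ℕ := [
  365376628905019543452277587818337824299439620096,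
  365376541792733611692031016752301977312356728832,
  365376193343527577405654737644916757936394469376,
  730752038237724503498852006629837106853930074112,
  730751951125438571738605435563801259866847182848,
  1096127012009020574248540057247255990251672305664,
  365376628904853389952804623859656489886845763584,
  730751951125355494988868953584460592660550254592,
  1096127012008937497498803575267915323045375377408]

/-- Colourings of the dyad. -/
def dyL : List ℕ := [
  365376193343527577405654737644880658770631327744,
  365376541792733611692031016752247863748084105216,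
  1096126750672183548472146831185229129933092028416,
  365376628905019543452277587818283640366422818816,
  730751428451681443436082501460424956790643359744,
  365376367568099440926147879776952212007308754944,
  730751341339312434926099448710196418145360543744,
  1096126750672162779284712691874715007947775148032,
  730751341339437050050704133457553698228614987776,
  1096126837784303326732920438882879382497542537216,
  1096126837784365634295222781256558022539169759232,
  730751428451639905061214222839396712820009598976,
  1096127012009041343435974196557734013071226044416,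
  365376193343527577405654737349732753591278501888,
  365376193343589884967957079723411393632905723904,
  1096127012009020574248540057247219891085909164032,
  730751951125438571738605435563747146302574559232,
  730751341339312434926099448415048512966007717888,
  730752038237724503498852006629782922920913272832,
  730751428451598366686346019481084289584346431488,
  365376367568016364176411397797611544801011826688,
  1096127186233447053456994375321420042254015266816,
  1096127186233509361019296717695098682295642488832,
  365376367567995594988977258487097422815694946304,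
  730751951125397033363737232205434723066911391744,
  365376541792671304129728673788273413347751231488,
  365376541792733611692031016161952053389378453504,
  730752038237599888374247321587277737658306002944,
  365376628904874159140238763170116427939145842688,
  730752038237724503498852006334635017741560446976,
  1096127012008937497498803575267879223879612235776,
  730751951125355494988868953584406479096277630976,
  1096126750672017394972673867226547795520498171904,
  365376628904853389952804623859602305953828962304,
  1096126837784303326732920438292583572138836885504,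
  1096127186233509361019296717399950777116289662976]

/-- Automorphisms. -/
def autL : List ℕ := [
  654820258320, 444685427520, 507495416640, 496375268880, 560008100160, 173733407040,
  517902316545, 581524726020, 580712305665, 423074821380, 516020592900, 165114250500,
  589860913170, 508307836995, 442803703875, 495305965590, 628259950680, 176486039640,
  436349240370, 641686831395, 624752330115, 487787398200, 498907545960, 156557706630,
  384523322145, 371389895220, 305901099105, 100437874740, 103719917460, 354455393940,
  641141736225, 434194969140, 555493828500, 499709524065, 486707652660, 159299896980,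
  298776233490, 362666275350, 281595291480, 91813476675, 349774047555, 86439794520, 369502950450,
  382374273315, 305099121000, 107479201155, 98823476280, 283519841670, 620154542130, 414754297635,
  620427088440, 483540473475, 481658749830, 139340237160, 40071424050, 27137447715, 38996898360,
  31231910790, 30419490435, 9683958120]

lemma iso_tab : ∀ x y : K, x ≠ 0 → y ≠ 0 →
    ∃ n ∈ isoL, good 2 ![0, 0, y, 0, x, x, y, 0, 0, 0] n := by decide +kernel

set_option synthInstance.maxSize 4096 in
lemma dy_tab : ∀ x1 x2 y1 y2 w : K, x1 ≠ 0 → x2 ≠ 0 → y1 ≠ 0 → y2 ≠ 0 → w ≠ 0 →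
    x1 + (x2 + (y1 + (y2 + w))) = 0 → (x1 = x2 ∨ y1 = y2) →
    ∃ n ∈ dyL, good 3 ![0, 0, 0, y1, x1, x2, w, y2, 0, 0] n := by decide +kernel

/-- A vertex map read from the digits of `n`. -/
def sg (n : ℕ) (l : Fin 10) : Fin 10 := Fin.ofNat 10 (n / 16 ^ l.val % 16)

lemma aut_ok : ∀ n ∈ autL, (∀ l m, sg n l = sg n m → l = m) ∧
    ∀ l m, adj (sg n l) (sg n m) = adj l m := by decide +kernel

lemma aut_ex : ∀ i j : Fin 10, i ≠ j →
    ∃ n ∈ autL, sg n i = 0 ∧ sg n j = if adj i j then 1 else 2 := by decide +kernel

end Pool.Agent.MP_e6539c_co.h19

end MrgPart0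

-- ======== part 1: formerly Pool.Agent.MP_e6539c_co.h19.Check
section MrgPart1

/-! The checker for search certificates. -/

namespace Pool.Agent.MP_e6539c_co.h19

/-- Certificates: lists of children, each a recolouring leaf, a Petersen leaf or a branching. -/
inductive T : Type
  | nil : T
  | R (j n : ℕ) (rest : T) : T
  | P (j n : ℕ) (rest : T) : T
  | B (j m i c : ℕ) (ch rest : T) : T

/-- Listed edges: two labels and a colour. -/
abbrev Ed := ℕ × ℕ × ℕ

/-- Bit test. -/
def tb (m n : ℕ) : Bool := Nat.beq (Nat.land (Nat.shiftRight m n) 1) 1

/-- Listed degree. -/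
def dg (i : ℕ) : List Ed → ℕ
  | [] => 0
  | p :: L => cond (Nat.beq p.1 i || Nat.beq p.2.1 i) (Nat.succ (dg i L)) (dg i L)

/-- Sum of the listed colours at a label. -/
def xr (i : ℕ) : List Ed → ℕ
  | [] => 0
  | p :: L => cond (Nat.beq p.1 i || Nat.beq p.2.1 i) (Nat.xor (xr i L) p.2.2) (xr i L)

/-- Evaluate the argument first. -/
def frc (n : ℕ) (k : ℕ → ℕ) : ℕ :=
  match n with
  | 0 => k 0
  | a + 1 => k (Nat.succ a)

/-- One step of neighbourhood growth. -/
def grow (b : ℕ) : List Ed → ℕ
  | [] => b
  | p :: L => cond (tb b p.1) (Nat.lor (grow b L) (Nat.shiftLeft 1 p.2.1))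
      (cond (tb b p.2.1) (Nat.lor (grow b L) (Nat.shiftLeft 1 p.1)) (grow b L))

/-- A further edge of colour `c` is possible. -/
def okc (d x c : ℕ) : Bool :=
  cond (Nat.beq d 1) (!(Nat.beq x c)) (cond (Nat.beq d 2) (Nat.beq x c) (Nat.beq d 0))

/-- A further edge of colour `c` must exist. -/
def forced (d x c : ℕ) : Bool :=
  cond (Nat.beq d 2) (Nat.beq x c)
    (Nat.beq d 1 && !(Nat.beq x 0) && !(Nat.beq c 0) && !(Nat.beq x c) && Nat.ble c 3)

/-- Old labels that can be the far end. -/
def cAux (b : ℕ) (L : List Ed) (c : ℕ) : ℕ → ℕ
  | 0 => 0
  | j + 1 => cond (tb b j) (cAux b L c j)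
      (cond (okc (dg j L) (xr j L) c) (Nat.lor (cAux b L c j) (Nat.shiftLeft 1 j)) (cAux b L c j))

/-- Candidates for the far end of a new edge. -/
def cm (m : ℕ) (L : List Ed) (i c : ℕ) : ℕ :=
  frc (Nat.shiftLeft 1 i) fun b0 => frc (grow b0 L) fun b1 => frc (grow b1 L) fun b2 =>
    frc (grow b2 L) fun b3 =>
      Nat.lor (cAux b3 L c m) (cond (Nat.ble m 15) (Nat.shiftLeft 1 m) 0)

/-- Boundary of the change of colours. -/
def racc : List Ed → ℕ → ℕ
  | [], _ => 0
  | p :: L, n => Nat.xor (racc L (Nat.shiftRight n 2))
      (Nat.xor (Nat.shiftLeft (Nat.land n 3) (Nat.mul 2 p.1))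
        (Nat.shiftLeft (Nat.land n 3) (Nat.mul 2 p.2.1)))

/-- The changed colours are nonzero. -/
def rnz : List Ed → ℕ → Bool
  | [], _ => true
  | p :: L, n => !(Nat.beq p.2.2 (Nat.land n 3)) && rnz L (Nat.shiftRight n 2)

/-- A vertex map read from the digits of `n`. -/
def rho (n t : ℕ) : Fin 10 := Fin.ofNat 10 (n / 16 ^ t % 16)

/-- The listed graph is the Petersen graph. -/
def pet (m : ℕ) (L : List Ed) (n : ℕ) : Bool :=
  decide ((∀ t < m, dg t L = 3) ∧ ∀ l k : Fin 10, l ≠ k →
    L.countP (fun p => decide (s(rho n p.1, rho n p.2.1) = s(l, k))) = if adj l k then 1 else 0)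

/-- Number of labels after adding an edge to `j`. -/
def nxt (j m : ℕ) : ℕ := cond (Nat.beq j m) (Nat.succ m) m

/-- The checker. -/
def go : T → ℕ → List Ed → ℕ → ℕ → ℕ → Bool
  | .nil, _, _, _, _, mask => Nat.beq mask 0
  | .R j n rest, m, L, i, c, mask =>
      rnz ((i, j, c) :: L) n && Nat.beq (racc ((i, j, c) :: L) n) 0 &&
        go rest m L i c (Nat.xor mask (Nat.shiftLeft 1 j))
  | .P j n rest, m, L, i, c, mask =>
      pet (nxt j m) ((i, j, c) :: L) n && go rest m L i c (Nat.xor mask (Nat.shiftLeft 1 j))
  | .B j m' i' c' ch rest, m, L, i, c, mask =>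
      Nat.beq m' (nxt j m) && Nat.ble (Nat.succ i') m' &&
        forced (dg i' ((i, j, c) :: L)) (xr i' ((i, j, c) :: L)) c' &&
        go ch m' ((i, j, c) :: L) i' c' (cm m' ((i, j, c) :: L) i' c') &&
        go rest m L i c (Nat.xor mask (Nat.shiftLeft 1 j))

end Pool.Agent.MP_e6539c_co.h19

end MrgPart1

-- marker of a merged file
example : 731051 + 211793 = 731051 + 211793 := rfl
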