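import Pool.Agent.MP_e6539c_co.h19.Sit
import Pool.Agent.MP_e6539c_co.h19.Poles
import Pool.Agent.MP_e6539c_co.h19.Check
import Pool.Agent.MP_e6539c_co.h19.Cert1
import Pool.Agent.MP_e6539c_co.h19.Cert2

-- ======== part 0: formerly Pool.Agent.MP_e6539c_co.h19.HighDeg
section MrgPart0

/-! A minimal counterexample is cubic. -/

namespace Pool.Agent.MP_e6539c_co.h19

lemma sum4 : ∀ x y z : K, x + (x + (y + z)) = 0 → y = z := by decide

open Finset Classical

set_option linter.unusedSectionVars false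

variable {V E : Type} [Fintype V] [Fintype E]

namespace Sit

variable {G : E → Sym2 V} {p : V → Fin 10} {a b : E} {i j k : Fin 10}

lemma iso0 (h : Sit G p a b 0 1 k) (mc : MC G) {v : V} (hv : p v = 0 ∨ p v = 1)
    (hd : 4 ≤ (cut G {v}).card) : False := by
  have c4 : (cut G (p ⁻¹' {l : Fin 10 | 2 ≤ l.val})).card = 4 := by
    rw [← cutN_iso k h.ik h.jk, ← h.card_cut]
    simp
  have hc : cut G (p ⁻¹' {l : Fin 10 | 2 ≤ l.val}) = {hE G p a b 1 k 4 0, hE G p a b 1 k 5 0,
      hE G p a b 1 k 2 1, hE G p a b 1 k 6 1} := by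
    refine Finset.eq_of_subset_of_card_le (fun e he => ?_) (c4 ▸ Finset.card_le_four)
    obtain ⟨l, m, k1, k2, k3, rfl⟩ := h.cut_outer (t := 2) (by decide) (by decide) he
    rcases outer2 l m k1 k2 k3 with ⟨rfl, rfl⟩ | ⟨rfl, rfl⟩ | ⟨rfl, rfl⟩ | ⟨rfl, rfl⟩ <;> simp
  have hne := MC.four_ne (hc ▸ c4)
  refine mc.iso (v := v) (by rcases hv with hv | hv <;> simp [hv]) hd hc c4 ?_ ?_
    (fun f f0 f1 f2 => ?_)
  · have h1 := h.oN_le mc {0, 1}
    rw [← oN_sum] at h1
    have h2 : (({0, 1} : Finset (Fin 10))ᶜ).card = 8 := by decide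
    refine le_trans (Finset.card_le_card ?_) (show ((Od G).filter (fun x => p x ∈
      ({0, 1} : Finset (Fin 10)))).card ≤ 9 by omega)
    intro x hx
    simp only [Finset.mem_filter, Set.mem_preimage, Set.mem_ofPred_eq] at hx ⊢
    refine ⟨hx.1, ?_⟩
    have := hx.2
    revert this
    generalize p x = l
    revert l; decide
  · rcases h.gmap_hE (l := 3) (m := 4) (by decide) (by decide) (by decide +kernel) with k1 | k1
    · exact h.inner_of k1 (by decide) (by simp) (by simp)
    · exact absurd k1.1 (by decide)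
  · have s0 := sum_cut_zero' K2 f1
    rw [hc, Finset.sum_insert (by simp [hne]), Finset.sum_insert (by simp [hne]),
      Finset.sum_pair (by simp [hne]), ← f2] at s0
    have s1 := sum4 _ _ _ s0
    obtain ⟨n, -, hn⟩ := iso_tab _ _ (f0 (hE G p a b 1 k 4 0)) (f0 (hE G p a b 1 k 2 1))
    refine h.extend mc.toMC0 (t := 2) (by decide) (by decide) f0 f1 (fun l m k1 k2 k3 => ?_) hn
    rcases outer2 l m k1 k2 k3 with ⟨rfl, rfl⟩ | ⟨rfl, rfl⟩ | ⟨rfl, rfl⟩ | ⟨rfl, rfl⟩
    · rfl
    · exact f2.symm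
    · rfl
    · exact s1.symm

lemma dyad0 (h : Sit G p a b 0 2 k) (mc : MC G) (hk : adj 0 k = false) {v : V}
    (hv : p v = 0 ∨ p v = 2) (hd : 4 ≤ (cut G {v}).card) (h6 : oN G p 2 ≤ 6) : False := by
  have c5 : (cut G (p ⁻¹' {l : Fin 10 | 3 ≤ l.val})).card = 5 := by
    rw [← cutN_dyad k hk h.jk, ← h.card_cut]
    simp
  have hc : cut G (p ⁻¹' {l : Fin 10 | 3 ≤ l.val}) = {hE G p a b 2 k 4 0, hE G p a b 2 k 5 0,
      hE G p a b 2 k 3 2, hE G p a b 2 k 7 2, hE G p a b 2 k 6 1} := by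
    refine Finset.eq_of_subset_of_card_le (fun e he => ?_) (c5 ▸ Finset.card_le_five)
    obtain ⟨l, m, k1, k2, k3, rfl⟩ := h.cut_outer (t := 3) (by decide) (by decide) he
    rcases outer3 l m k1 k2 k3 with ⟨rfl, rfl⟩ | ⟨rfl, rfl⟩ | ⟨rfl, rfl⟩ | ⟨rfl, rfl⟩ |
      ⟨rfl, rfl⟩ <;> simp
  have hne := MC.five_ne (hc ▸ c5)
  have mX : ∀ l : Fin 10, l ≠ 0 → l ≠ 2 → adj l 0 = true →
      hE G p a b 2 k l 0 ∈ cut G (p ⁻¹' {0}) := fun l l0 l2 hl => by
    rw [← cut_gmap]
    rcases h.gmap_hE l0 l2 hl with k1 | k1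
    · simp [mem_cut_of k1, l0]
    · exact absurd k1.1 (by decide)
  have ext : ∀ f : E → K, (∀ e, f e ≠ 0) → (∀ x ∉ p ⁻¹' {l : Fin 10 | 3 ≤ l.val}, bd G f x = 0) →
      (f (hE G p a b 2 k 4 0) = f (hE G p a b 2 k 5 0) ∨
        f (hE G p a b 2 k 3 2) = f (hE G p a b 2 k 7 2)) → False := fun f f0 f1 f2 => by
    have s0 := sum_cut_zero' K2 f1
    rw [hc, Finset.sum_insert (by simp [hne]), Finset.sum_insert (by simp [hne]),
      Finset.sum_insert (by simp [hne]), Finset.sum_pair (by simp [hne])] at s0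
    obtain ⟨n, -, hn⟩ := dy_tab _ _ _ _ _ (f0 _) (f0 _) (f0 _) (f0 _) (f0 _) s0 f2
    refine h.extend mc.toMC0 (t := 3) (by decide) (by decide) f0 f1 (fun l m k1 k2 k3 => ?_) hn
    rcases outer3 l m k1 k2 k3 with ⟨rfl, rfl⟩ | ⟨rfl, rfl⟩ | ⟨rfl, rfl⟩ | ⟨rfl, rfl⟩ |
      ⟨rfl, rfl⟩ <;> rfl
  refine mc.dyad (X := p ⁻¹' {0}) (v := v) (by rcases hv with hv | hv <;> simp [hv]) hd hc c5
    ?_ (mX 4 (by decide) (by decide) (by decide +kernel))
    (mX 5 (by decide) (by decide) (by decide +kernel)) (by rw [h.card_cut1]; simp) ?_ ?_ ?_ ?_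
    (fun f f0 f1 f2 => ext f f0 f1 (Or.inl f2)) (fun f f0 f1 f2 => ext f f0 f1 (Or.inr f2))
  · refine Set.disjoint_left.2 (fun x h1 h2 => ?_)
    simp only [Set.mem_preimage, Set.mem_singleton_iff, Set.mem_ofPred_eq] at h1 h2
    rw [h1] at h2
    exact absurd h2 (by decide)
  · have h1 := h.oN_le mc {0}
    rw [← oN_sum] at h1
    have h2 : (({0} : Finset (Fin 10))ᶜ).card = 9 := by decide
    refine le_trans (Finset.card_le_card ?_) (show ((Od G).filter (fun x => p x ∈
      ({0} : Finset (Fin 10)))).card ≤ 8 by omega)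
    intro x hx
    simpa using hx
  · have h1 := oN_sum G p {1, 2}
    rw [Finset.sum_pair (by decide)] at h1
    have h2 := h.oN_one mc.toMC0 (l := 1) (by simp)
    refine le_trans (Finset.card_le_card ?_) (show ((Od G).filter (fun x => p x ∈
      ({1, 2} : Finset (Fin 10)))).card ≤ 7 by omega)
    intro x hx
    simp only [Finset.mem_filter, Set.mem_preimage, Set.mem_ofPred_eq, Set.mem_singleton_iff]
      at hx ⊢
    refine ⟨hx.1, ?_⟩
    have := hx.2
    revert this
    generalize p x = l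
    revert l; decide
  · have h1 := h.oN_le mc {0, 1, 2}
    rw [← oN_sum] at h1
    have h2 : (({0, 1, 2} : Finset (Fin 10))ᶜ).card = 7 := by decide
    refine le_trans (Finset.card_le_card ?_) (show ((Od G).filter (fun x => p x ∈
      ({0, 1, 2} : Finset (Fin 10)))).card ≤ 10 by omega)
    intro x hx
    simp only [Finset.mem_filter, Set.mem_preimage, Set.mem_ofPred_eq] at hx ⊢
    refine ⟨hx.1, ?_⟩
    have := hx.2
    revert this
    generalize p x = l
    revert l; decide
  · rcases h.gmap_hE (l := 3) (m := 4) (by decide) (by decide) (by decide +kernel) with k1 | k1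
    · exact h.inner_of k1 (by decide) (by simp) (by simp)
    · exact absurd k1.1 (by decide)

lemma isoG (h : Sit G p a b i j k) (mc : MC G) (hij : adj i j = true) {v : V}
    (hv : p v = i ∨ p v = j) (hd : 4 ≤ (cut G {v}).card) : False := by
  obtain ⟨n, hn, n1, n2⟩ := aut_ex i j h.ij
  obtain ⟨s1, s2⟩ := aut_ok n hn
  have h' := h.aut s1 s2
  rw [if_pos hij] at n2
  rw [n1, n2] at h'
  exact h'.iso0 mc (v := v) (by rcases hv with hv | hv <;> simp [hv, n1, n2]) hd

lemma dyadG (h : Sit G p a b i j k) (mc : MC G) (hij : adj i j = false) (hik : adj i k = false)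
    {v : V} (hv : p v = i ∨ p v = j) (hd : 4 ≤ (cut G {v}).card) (h6 : oN G p j ≤ 6) : False := by
  obtain ⟨n, hn, n1, n2⟩ := aut_ex i j h.ij
  obtain ⟨s1, s2⟩ := aut_ok n hn
  have h' := h.aut s1 s2
  rw [if_neg (by simp [hij])] at n2
  rw [n1, n2] at h'
  refine h'.dyad0 mc (v := v) (by rw [← n1, s2, hik])
    (by rcases hv with hv | hv <;> simp [hv, n1, n2]) hd ?_
  refine le_trans (Finset.card_le_card (fun x hx => ?_)) h6
  simp only [Finset.mem_filter, Function.comp] at hx ⊢
  exact ⟨hx.1, s1 _ _ (hx.2.trans n2.symm)⟩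

lemma false (h : Sit G p a b i j k) (mc : MC G) {v : V} (hv : p v = i)
    (hd : 4 ≤ (cut G {v}).card) : False := by
  by_cases hij : adj i j = true
  · exact h.isoG mc hij (Or.inl hv) hd
  by_cases hik : adj i k = true
  · exact h.swap1.isoG mc hik (Or.inl hv) hd
  rw [Bool.not_eq_true] at hij hik
  by_cases h6 : oN G p j ≤ 6
  · exact h.dyadG mc hij hik (Or.inl hv) hd h6
  have hkj : k = j := by
    by_contra t
    have := h.oN_one mc.toMC0 (l := j) (by simp [t, h.ij.symm])
    omega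
  subst hkj
  have h1 := h.oN_le mc {i, k}
  rw [Finset.sum_pair h.ij, Finset.card_compl, Finset.card_pair h.ij] at h1
  have hki : adj k i = Bool.false := by rw [adj_symm]; exact hij
  exact h.swap2.dyadG mc hki hki (Or.inr hv) hd (by simp at h1; omega)

end Sit

lemma MC0.bl_split {G : E → Sym2 V} (mc : MC0 G) {v u w : V} {a b : E}
    (hd : 4 ≤ (cut G {v}).card) (hab : a ≠ b) (ea : G a = s(v, u)) (eb : G b = s(v, w))
    (hu : u ≠ v) (hw : w ≠ v) : Bl (split G a b v u w) := by
  have huw : u ≠ w := by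
    rintro rfl
    exact hab (mc.digon ea eb hu.symm)
  by_contra t
  obtain ⟨S, s0, s1, s2, hS⟩ := h19.bl_split hab ea eb mc.bl t
  by_cases hi : Inner G S
  · have := Finset.card_le_card (cut_single_subset (mc.triv (Or.inl hS) hi) (x := v) s0)
    rw [cut_compl] at this
    omega
  · obtain ⟨z, -, -, hz⟩ := mc.apex hS hi
    have e1 : u = z := by
      by_contra t
      have : a ∈ cut G {u} := by simp [mem_cut_of ea, hu.symm]
      simp [hz u s1 t] at this
    have e2 : w = z := by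
      by_contra t
      have : b ∈ cut G {w} := by simp [mem_cut_of eb, hw.symm]
      simp [hz w s2 t] at this
    exact huw (e1.trans e2.symm)

lemma sit_of_split {G : E → Sym2 V} (nq : ¬ QP G) {v u w : V} {a b : E}
    (hab : a ≠ b) (ea : G a = s(v, u)) (eb : G b = s(v, w)) (h : QP (split G a b v u w)) :
    ∃ p : V → Fin 10, Sit G p a b (p v) (p u) (p w) := by
  obtain ⟨p, hp⟩ := h
  have ga : gmap G p a = s(p v, p u) := gmap_of p ea
  have gb : gmap G p b = s(p v, p w) := gmap_of p eb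
  have loop : ∀ t l m : Fin 10, l ≠ m → ¬ s(t, t) = s(l, m) := fun t l m hlm h => by
    rcases Sym2.eq_iff.1 h with ⟨t1, t2⟩ | ⟨t1, t2⟩
    · exact hlm (t1.symm.trans t2)
    · exact hlm (t2.symm.trans t1)
  have base : ∀ l m, l ≠ m →
      (univ.filter (fun e => e ≠ a ∧ e ≠ b ∧ gmap G p e = s(l, m))).card +
        (if s(p u, p w) = s(l, m) then 1 else 0) = if adj l m = true then 1 else 0 := by
    intro l m hlm
    have h1 := hp l m hlm
    rw [cnt_split _ hab, gmap_of p (split_a hab), gmap_of p split_b, if_neg (c := s(p v, p v) = _)]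
      at h1
    · rw [← h1, add_zero]
      congr 2
      refine Finset.filter_congr (fun e _ => ?_)
      refine and_congr_right (fun h1 => and_congr_right (fun h2 => ?_))
      simp only [gmap, split_o h1 h2]
    · exact loop _ l m hlm
  by_cases h1 : p v = p u
  · refine absurd ?_ nq
    refine ⟨p, fun l m hlm => ?_⟩
    rw [cnt_split _ hab, ga, gb, ← base l m hlm, h1, if_neg (loop _ l m hlm), add_zero]
  by_cases h2 : p v = p w
  · refine absurd ?_ nq
    refine ⟨p, fun l m hlm => ?_⟩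
    rw [cnt_split _ hab, ga, gb, ← base l m hlm, h2, if_neg (loop _ l m hlm), add_zero,
      Sym2.eq_swap (a := p w)]
  refine ⟨p, hab, ga, gb, h1, h2, ?_, fun l m hlm => ?_⟩
  · by_cases h3 : p w = p u
    · exact Or.inl h3
    · right
      have := base _ _ (Ne.symm h3)
      by_contra t
      rw [if_pos rfl, if_neg t] at this
      omega
  · have := base l m hlm
    by_cases h3 : s(p u, p w) = s(l, m)
    · rw [if_pos h3] at this
      rw [if_neg (fun t => t.2 h3.symm)]
      split_ifs at this <;> omega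
    · rw [if_neg h3, add_zero] at this
      rw [this]
      simp [Ne.symm h3]

lemma MC.deg_le {G : E → Sym2 V} (mc : MC G) (v : V) : (cut G {v}).card ≤ 3 := by
  by_contra hd
  replace hd : 4 ≤ (cut G {v}).card := by omega
  obtain ⟨a, ha, b, hb, hab⟩ := Finset.one_lt_card.1 (show 1 < (cut G {v}).card by omega)
  obtain ⟨u, hu, ea⟩ := mem_cut_single.1 ha
  obtain ⟨w, hw, eb⟩ := mem_cut_single.1 hb
  have hbl := mc.toMC0.bl_split hd hab ea eb hu hw
  rcases mc.ih _ (mu_split ea eb hu hw) hbl (by rw [Od_split hab ea eb]; exact mc.od) with h | h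
  · obtain ⟨f, f0, f1, -⟩ := flow_split hab ea eb h
    exact mc.nf ⟨f, f0, f1⟩
  obtain ⟨p, hp⟩ := sit_of_split mc.nq hab ea eb h
  exact hp.false mc rfl hd

end Pool.Agent.MP_e6539c_co.h19

end MrgPart0

-- ======== part 1: formerly Pool.Agent.MP_e6539c_co.h19.Sound
section MrgPart1

/-! Soundness of the search checker. -/

namespace Pool.Agent.MP_e6539c_co.h19

lemma tb_eq (m n : ℕ) : tb m n = m.testBit n := by
  have h : Nat.land (Nat.shiftRight m n) 1 = (m >>> n) % 2 := Nat.and_one_is_mod _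
  rw [tb, h, Nat.testBit, Nat.and_comm, Nat.and_one_is_mod]
  rcases Nat.mod_two_eq_zero_or_one (m >>> n) with h | h <;> rw [h] <;> rfl

lemma frc_eq (n : ℕ) (k : ℕ → ℕ) : frc n k = k n := by cases n <;> rfl

lemma testBit_one_shl (j x : ℕ) : (Nat.shiftLeft 1 j).testBit x = decide (j = x) := by
  have : Nat.shiftLeft 1 j = 2 ^ j := by
    show 1 <<< j = _
    rw [Nat.shiftLeft_eq, one_mul]
  rw [this, Nat.testBit_two_pow]

lemma testBit_lor' (a b x : ℕ) : (Nat.lor a b).testBit x = (a.testBit x || b.testBit x) :=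
  Nat.testBit_or a b x

lemma testBit_xor' (a b x : ℕ) : (Nat.xor a b).testBit x = (a.testBit x ^^ b.testBit x) :=
  Nat.testBit_xor a b x

lemma dec2_xor (a b t : ℕ) : dec2 (Nat.xor a b) t = dec2 a t + dec2 b t := by
  simp only [dec2, testBit_xor']
  cases a.testBit (2 * t) <;> cases b.testBit (2 * t) <;> cases a.testBit (2 * t + 1) <;>
    cases b.testBit (2 * t + 1) <;> decide

lemma dec2_zero (t : ℕ) : dec2 0 t = 0 := by simp [dec2]

lemma dec2_shl {d : ℕ} (hd : d < 4) (i t : ℕ) :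
    dec2 (Nat.shiftLeft d (Nat.mul 2 i)) t = if i = t then dec2 d 0 else 0 := by
  have h0 : ∀ k, 2 ≤ k → d.testBit k = false := fun k hk =>
    Nat.testBit_lt_two_pow (lt_of_lt_of_le hd (Nat.pow_le_pow_right (n := 2) (by norm_num) hk))
  have e : ∀ x, (Nat.shiftLeft d (Nat.mul 2 i)).testBit x =
      (decide (x ≥ 2 * i) && d.testBit (x - 2 * i)) := fun x => Nat.testBit_shiftLeft d
  simp only [dec2, e]
  rcases lt_trichotomy i t with h | h | h
  · rw [h0 (2 * t - 2 * i) (by omega), h0 (2 * t + 1 - 2 * i) (by omega)]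
    simp [h.ne]
  · subst h
    simp
  · have h1 : ¬ (2 * t ≥ 2 * i) := by omega
    have h2 : ¬ (2 * t + 1 ≥ 2 * i) := by omega
    simp [h1, h2, h.ne']

lemma dec2_inj : ∀ a < 4, ∀ b < 4, dec2 a 0 = dec2 b 0 → a = b := by decide

lemma xor_lt4 {a b : ℕ} (ha : a < 4) (hb : b < 4) : Nat.xor a b < 4 :=
  Nat.xor_lt_two_pow (n := 2) ha hb

lemma land3_lt (n : ℕ) : Nat.land n 3 < 4 := Nat.and_lt_two_pow (n := 2) n (by norm_num)

set_option synthInstance.maxSize 4096 in
lemma K_a2 : ∀ p q c : K, p ≠ 0 → q ≠ 0 → p + q ≠ 0 → c ≠ 0 → c ≠ p + q → p = c ∨ q = c := by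
  decide +kernel

lemma K_eq : ∀ p q : K, p + q = 0 → q = p := by decide

open Finset Classical

set_option linter.unusedSectionVars false

variable {V E : Type} [Fintype V] [Fintype E]

/-- A listed edge is realised by an edge of the graph. -/
def Rl (G : E → Sym2 V) (f : E → K) (m : ℕ) (l : ℕ → V) (p : Ed) (e : E) : Prop :=
  p.1 < m ∧ p.2.1 < m ∧ p.1 ≠ p.2.1 ∧ p.2.2 < 4 ∧ G e = s(l p.1, l p.2.1) ∧ f e = dec2 p.2.2 0

/-- A realisation of a state of the search. -/
structure Real (G : E → Sym2 V) (f : E → K) (m : ℕ) (L : List Ed) (l : ℕ → V) (Es : List E) :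
    Prop where
  inj : ∀ s < m, ∀ t < m, l s = l t → s = t
  fa : List.Forall₂ (Rl G f m l) L Es
  nd : Es.Nodup
  nz : ∀ e, e ∉ Es → f e ≠ 0
  od : ∀ t < m, l t ∈ Od G

variable {G : E → Sym2 V} {f : E → K} {m : ℕ} {L : List Ed} {l : ℕ → V} {Es : List E}

lemma Rl.mem_cut (inj : ∀ s < m, ∀ t < m, l s = l t → s = t) {p : Ed} {e : E}
    (h : Rl G f m l p e) {i : ℕ} (hi : i < m) :
    e ∈ cut G {l i} ↔ (Nat.beq p.1 i || Nat.beq p.2.1 i) = true := by
  obtain ⟨h1, h2, h3, -, h5, -⟩ := h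
  rw [mem_cut_of h5]
  simp only [Set.mem_singleton_iff, Bool.or_eq_true, Nat.beq_eq]
  have e1 : l p.1 = l i ↔ p.1 = i := ⟨inj _ h1 _ hi, fun h => h ▸ rfl⟩
  have e2 : l p.2.1 = l i ↔ p.2.1 = i := ⟨inj _ h2 _ hi, fun h => h ▸ rfl⟩
  rw [e1, e2]
  omega

lemma dg_xr (inj : ∀ s < m, ∀ t < m, l s = l t → s = t) (fa : List.Forall₂ (Rl G f m l) L Es)
    (nd : Es.Nodup) {i : ℕ} (hi : i < m) :
    ((cut G {l i}).filter (· ∈ Es)).card = dg i L ∧
      ∑ e ∈ (cut G {l i}).filter (· ∈ Es), f e = dec2 (xr i L) 0 ∧ xr i L < 4 := by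
  induction fa with
  | nil => simp [dg, xr, dec2_zero]
  | @cons p e L Es h _ ih =>
    rw [List.nodup_cons] at nd
    obtain ⟨i1, i2, i3⟩ := ih nd.2
    have hm := h.mem_cut inj hi
    by_cases he : e ∈ cut G {l i}
    · have : (cut G {l i}).filter (· ∈ e :: Es) = insert e ((cut G {l i}).filter (· ∈ Es)) := by
        ext x
        simp only [Finset.mem_filter, List.mem_cons, Finset.mem_insert]
        constructor
        · tauto
        · rintro (rfl | h)
          · exact ⟨he, Or.inl rfl⟩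
          · tauto
      rw [this, Finset.card_insert_of_notMem (by simp [nd.1]), Finset.sum_insert (by simp [nd.1]),
        i1, i2]
      simp only [dg, xr, hm.1 he, cond_true, dec2_xor, h.2.2.2.2.2, true_and]
      exact ⟨add_comm _ _, xor_lt4 i3 h.2.2.2.1⟩
    · have : (cut G {l i}).filter (· ∈ e :: Es) = (cut G {l i}).filter (· ∈ Es) := by
        ext x
        simp only [Finset.mem_filter, List.mem_cons]
        constructor
        · rintro ⟨h1, rfl | h2⟩
          · exact absurd h1 he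
          · exact ⟨h1, h2⟩
        · tauto
      have hb : (Nat.beq p.1 i || Nat.beq p.2.1 i) = false := by
        rw [← Bool.not_eq_true, ← hm]; exact he
      rw [this, i1, i2]
      simp only [dg, xr, hb, cond_false, true_and]
      exact i3

/-- The standing assumptions of the search. -/
structure Ctx (G : E → Sym2 V) (f : E → K) : Prop where
  mc : MC0 G
  od : (Od G).card ≤ 16
  dg3 : ∀ v, (cut G {v}).card ≤ 3
  fl : bd G f = 0

lemma Ctx.three (C : Ctx G f) {v : V} (hv : v ∈ Od G) : (cut G {v}).card = 3 := by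
  have h1 := C.dg3 v
  have h2 := C.mc.bl {v}
  obtain ⟨k, hk⟩ := mem_Od.1 hv
  omega

lemma Ctx.od_of (C : Ctx G f) {v : V} {e : E} (he : e ∈ cut G {v}) : v ∈ Od G := by
  have h1 := C.dg3 v
  have h2 := C.mc.bl {v}
  have h3 := C.mc.no2 {v}
  have h4 := Finset.card_pos.2 ⟨e, he⟩
  rw [mem_Od, show (cut G {v}).card = 3 by omega]
  decide

lemma Real.rest (C : Ctx G f) (R : Real G f m L l Es) {i : ℕ} (hi : i < m) :
    ((cut G {l i}).filter (· ∉ Es)).card + dg i L = 3 ∧
      ∑ e ∈ (cut G {l i}).filter (· ∉ Es), f e = dec2 (xr i L) 0 ∧ xr i L < 4 := by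
  obtain ⟨h1, h2, h3⟩ := dg_xr R.inj R.fa R.nd hi
  refine ⟨?_, ?_, h3⟩
  · rw [← h1, add_comm, Finset.card_filter_add_card_filter_not, C.three (R.od i hi)]
  · rw [← h2]
    apply K_eq
    rw [Finset.sum_filter_add_sum_filter_not]
    exact congrFun C.fl (l i)

lemma Real.exists_edge (C : Ctx G f) (R : Real G f m L l Es) {i c : ℕ} (hi : i < m)
    (h : forced (dg i L) (xr i L) c = true) :
    c < 4 ∧ ∃ e ∈ cut G {l i}, e ∉ Es ∧ f e = dec2 c 0 := by
  obtain ⟨h1, h2, h3⟩ := R.rest C hi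
  by_cases d2 : dg i L = 2
  · have hc : xr i L = c := by simpa [forced, d2] using h
    obtain ⟨e, he⟩ := Finset.card_eq_one.1 (show ((cut G {l i}).filter (· ∉ Es)).card = 1 by omega)
    have : e ∈ (cut G {l i}).filter (· ∉ Es) := by simp [he]
    rw [he, Finset.sum_singleton] at h2
    exact ⟨hc ▸ h3, e, (Finset.mem_filter.1 this).1, (Finset.mem_filter.1 this).2, hc ▸ h2⟩
  · have hb : Nat.beq (dg i L) 2 = false := by
      rw [← Bool.not_eq_true, Nat.beq_eq]; exact d2
    simp only [forced, hb, cond_false, Bool.and_eq_true, Nat.beq_eq, Bool.not_eq_true',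
      ← Bool.not_eq_true, Nat.ble_eq] at h
    obtain ⟨⟨⟨⟨k1, k2⟩, k3⟩, k4⟩, k5⟩ := h
    have c4 : c < 4 := by omega
    obtain ⟨a, b, hab, he⟩ := Finset.card_eq_two.1
      (show ((cut G {l i}).filter (· ∉ Es)).card = 2 by omega)
    have ha : a ∈ (cut G {l i}).filter (· ∉ Es) := by simp [he]
    have hb : b ∈ (cut G {l i}).filter (· ∉ Es) := by simp [he]
    rw [Finset.mem_filter] at ha hb
    rw [he, Finset.sum_pair hab] at h2
    refine ⟨c4, ?_⟩
    rcases K_a2 (f a) (f b) (dec2 c 0) (R.nz a ha.2) (R.nz b hb.2)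
      (by rw [h2, ← dec2_zero 0]; exact fun t => k2 (dec2_inj _ h3 _ (by norm_num) t))
      (by rw [← dec2_zero 0]; exact fun t => k3 (dec2_inj _ c4 _ (by norm_num) t))
      (by rw [h2]; exact fun t => k4 (dec2_inj _ h3 _ c4 t.symm)) with t | t
    · exact ⟨a, ha.1, ha.2, t⟩
    · exact ⟨b, hb.1, hb.2, t⟩

lemma Real.okc_of (C : Ctx G f) (R : Real G f m L l Es) {j c : ℕ} (hj : j < m) (hc : c < 4)
    {e : E} (he : e ∈ cut G {l j}) (hn : e ∉ Es) (hf : f e = dec2 c 0) :
    okc (dg j L) (xr j L) c = true := by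
  obtain ⟨h1, h2, h3⟩ := R.rest C hj
  have hm : e ∈ (cut G {l j}).filter (· ∉ Es) := Finset.mem_filter.2 ⟨he, hn⟩
  have hp := Finset.card_pos.2 ⟨e, hm⟩
  have : dg j L = 0 ∨ dg j L = 1 ∨ dg j L = 2 := by omega
  rcases this with d | d | d
  · rw [d]; rfl
  · obtain ⟨a, b, hab, hs⟩ := Finset.card_eq_two.1
      (show ((cut G {l j}).filter (· ∉ Es)).card = 2 by omega)
    have ha : a ∈ (cut G {l j}).filter (· ∉ Es) := by simp [hs]
    have hb : b ∈ (cut G {l j}).filter (· ∉ Es) := by simp [hs]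
    rw [Finset.mem_filter] at ha hb
    rw [hs, Finset.sum_pair hab] at h2
    have : xr j L ≠ c := by
      intro t
      rw [t, ← hf] at h2
      rw [hs] at hm
      simp only [Finset.mem_insert, Finset.mem_singleton] at hm
      rcases hm with rfl | rfl
      · exact R.nz b hb.2 (by simpa using h2)
      · exact R.nz a ha.2 (by simpa using h2)
    rw [d]
    show (!(Nat.beq (xr j L) c)) = true
    rw [Bool.not_eq_true', ← Bool.not_eq_true, Nat.beq_eq]
    exact this
  · obtain ⟨a, hs⟩ := Finset.card_eq_one.1 (show ((cut G {l j}).filter (· ∉ Es)).card = 1 by omega)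
    rw [hs, Finset.mem_singleton] at hm
    rw [hs, Finset.sum_singleton, ← hm, hf] at h2
    rw [d]
    show Nat.beq (xr j L) c = true
    rw [Nat.beq_eq]
    exact dec2_inj _ h3 _ hc h2.symm

/-- Two labels are joined by a listed edge. -/
def LA (G : E → Sym2 V) (m : ℕ) (l : ℕ → V) (Es : List E) (p q : ℕ) : Prop :=
  p < m ∧ q < m ∧ p ≠ q ∧ ∃ e ∈ Es, G e = s(l p, l q)

lemma grow_sound (fa : List.Forall₂ (Rl G f m l) L Es) (b x : ℕ)
    (h : (grow b L).testBit x = true) :
    b.testBit x = true ∨ ∃ p, b.testBit p = true ∧ LA G m l Es p x := by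
  induction fa with
  | nil => exact Or.inl h
  | @cons p e L Es hp _ ih =>
    have ih' : (grow b L).testBit x = true →
        b.testBit x = true ∨ ∃ p, b.testBit p = true ∧ LA G m l (e :: Es) p x := fun t => by
      rcases ih t with t | ⟨q, t, t1, t2, t3, e', t4, t5⟩
      · exact Or.inl t
      · exact Or.inr ⟨q, t, t1, t2, t3, e', List.mem_cons_of_mem _ t4, t5⟩
    obtain ⟨h1, h2, h3, -, h5, -⟩ := hp
    simp only [grow, tb_eq] at h
    cases c1 : b.testBit p.1
    · cases c2 : b.testBit p.2.1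
      · simp only [c1, c2, cond_false] at h
        exact ih' h
      · simp only [c1, c2, cond_false, cond_true, testBit_lor', testBit_one_shl, Bool.or_eq_true,
          decide_eq_true_eq] at h
        rcases h with h | rfl
        · exact ih' h
        · exact Or.inr ⟨_, c2, h2, h1, h3.symm, e, List.mem_cons_self, by rw [h5, Sym2.eq_swap]⟩
    · simp only [c1, cond_true, testBit_lor', testBit_one_shl, Bool.or_eq_true,
        decide_eq_true_eq] at h
      rcases h with h | rfl
      · exact ih' h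
      · exact Or.inr ⟨_, c1, h1, h2, h3, e, List.mem_cons_self, h5⟩

lemma Real.far (C : Ctx G f) (R : Real G f m L l Es) {i j : ℕ} (hi : i < m) (hj : j < m)
    (hij : i ≠ j) {e : E} (he : G e = s(l i, l j)) (hn : e ∉ Es) :
    (grow (grow (grow (Nat.shiftLeft 1 i) L) L) L).testBit j = false := by
  have ne : ∀ s < m, ∀ t < m, s ≠ t → l s ≠ l t := fun s hs t ht h h' => h (R.inj s hs t ht h')
  have n1 : ¬ LA G m l Es i j := by
    rintro ⟨-, -, -, e', h1, h2⟩
    exact hn (C.mc.digon he h2 (ne _ hi _ hj hij) ▸ h1)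
  have n2 : ∀ p, LA G m l Es i p → ¬ LA G m l Es p j := by
    rintro p ⟨-, hp, h1, e1, -, h2⟩ ⟨-, -, h3, e2, -, h4⟩
    exact C.mc.triangle h2 h4 (he.trans Sym2.eq_swap) (ne _ hi _ hp h1) (ne _ hp _ hj h3)
      (ne _ hj _ hi hij.symm)
  have n3 : ∀ p q, LA G m l Es i p → LA G m l Es p q → ¬ LA G m l Es q j := by
    intro p q a1 a2 a3
    by_cases t1 : q = i
    · exact n1 (t1 ▸ a3)
    by_cases t2 : p = j
    · exact n1 (t2 ▸ a1)
    obtain ⟨-, hp, h1, e1, -, h2⟩ := a1
    obtain ⟨-, hq, h3, e2, -, h4⟩ := a2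
    obtain ⟨-, -, h5, e3, -, h6⟩ := a3
    exact C.mc.square h2 h4 h6 (he.trans Sym2.eq_swap) (ne _ hi _ hp h1)
      (ne _ hi _ hq (Ne.symm t1)) (ne _ hi _ hj hij) (ne _ hp _ hq h3) (ne _ hp _ hj t2)
      (ne _ hq _ hj h5)
  have b0 : ∀ x, (Nat.shiftLeft 1 i).testBit x = true → x = i := fun x h => by
    rw [testBit_one_shl, decide_eq_true_eq] at h
    exact h.symm
  have b1 : ∀ x, (grow (Nat.shiftLeft 1 i) L).testBit x = true → x = i ∨ LA G m l Es i x :=
    fun x h => by
      rcases grow_sound R.fa _ _ h with t | ⟨p, t, t'⟩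
      · exact Or.inl (b0 _ t)
      · exact Or.inr (b0 _ t ▸ t')
  have b2 : ∀ x, (grow (grow (Nat.shiftLeft 1 i) L) L).testBit x = true →
      x = i ∨ LA G m l Es i x ∨ ∃ p, LA G m l Es i p ∧ LA G m l Es p x := fun x h => by
    rcases grow_sound R.fa _ _ h with t | ⟨p, t, t'⟩
    · rcases b1 _ t with t | t
      · exact Or.inl t
      · exact Or.inr (Or.inl t)
    · rcases b1 _ t with t | t
      · exact Or.inr (Or.inl (t ▸ t'))
      · exact Or.inr (Or.inr ⟨p, t, t'⟩)
  rw [← Bool.not_eq_true]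
  intro h
  rcases grow_sound R.fa _ _ h with t | ⟨q, t, t'⟩
  · rcases b2 _ t with t | t | ⟨p, t1, t2⟩
    · exact hij t.symm
    · exact n1 t
    · exact n2 p t1 t2
  · rcases b2 _ t with t | t | ⟨p, t1, t2⟩
    · exact n1 (t ▸ t')
    · exact n2 q t t'
    · exact n3 p q t1 t2 t'

lemma cAux_of (b : ℕ) (L : List Ed) (c : ℕ) {j : ℕ} (h1 : b.testBit j = false)
    (h2 : okc (dg j L) (xr j L) c = true) : ∀ n, j < n → (cAux b L c n).testBit j = true := by
  intro n
  induction n with
  | zero => omega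
  | succ n ih =>
    intro hn
    by_cases e : j = n
    · subst e
      simp only [cAux, tb_eq, h1, h2, cond_true, cond_false, testBit_lor', testBit_one_shl]
      simp
    · have := ih (by omega)
      simp only [cAux]
      cases tb b n <;> cases okc (dg n L) (xr n L) c <;>
        simp only [cond_true, cond_false, testBit_lor', this, Bool.true_or]

lemma Rl.mono {p : Ed} {e : E} (h : Rl G f m l p e) {m' : ℕ} {l' : ℕ → V} (hm : m ≤ m')
    (hl : ∀ t < m, l' t = l t) : Rl G f m' l' p e := by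
  obtain ⟨h1, h2, h3, h4, h5, h6⟩ := h
  exact ⟨by omega, by omega, h3, h4, by rw [hl _ h1, hl _ h2, h5], h6⟩

lemma Real.step (C : Ctx G f) (R : Real G f m L l Es) {i c : ℕ} (hi : i < m) (hc : c < 4) {e : E}
    (he : e ∈ cut G {l i}) (hn : e ∉ Es) (hf : f e = dec2 c 0) :
    ∃ j, (cm m L i c).testBit j = true ∧ ∃ l', (∀ t < m, l' t = l t) ∧
      Real G f (nxt j m) ((i, j, c) :: L) l' (e :: Es) := by
  obtain ⟨y, hy, hG⟩ := mem_cut_single.1 he
  have hey : e ∈ cut G {y} := by simp [mem_cut_of hG, hy.symm]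
  have nz' : ∀ e', e' ∉ e :: Es → f e' ≠ 0 := fun e' h => R.nz e' (fun t => h (by simp [t]))
  by_cases hyl : ∃ j < m, l j = y
  · obtain ⟨j, hj, rfl⟩ := hyl
    have hij : i ≠ j := fun t => hy (t ▸ rfl)
    have hb : Nat.beq j m = false := by
      rw [← Bool.not_eq_true, Nat.beq_eq]; omega
    refine ⟨j, ?_, l, fun _ _ => rfl, ?_⟩
    · simp only [cm, frc_eq, testBit_lor']
      rw [cAux_of _ L c (R.far C hi hj hij hG hn) (R.okc_of C hj hc hey hn hf) m hj]
      rfl
    · simp only [nxt, hb, cond_false]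
      exact ⟨R.inj, List.Forall₂.cons ⟨hi, hj, hij, hc, hG, hf⟩ R.fa, List.nodup_cons.2 ⟨hn, R.nd⟩,
        nz', R.od⟩
  · push Not at hyl
    have hl : ∀ t < m, Function.update l m y t = l t := fun t ht =>
      Function.update_of_ne (by omega) _ _
    have inj' : ∀ s < m + 1, ∀ t < m + 1,
        Function.update l m y s = Function.update l m y t → s = t := by
      intro s hs t ht h
      by_cases s1 : s = m <;> by_cases t1 : t = m
      · omega
      · rw [s1, Function.update_self, hl t (by omega)] at h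
        exact absurd h.symm (hyl t (by omega))
      · rw [t1, Function.update_self, hl s (by omega)] at h
        exact absurd h (hyl s (by omega))
      · rw [hl s (by omega), hl t (by omega)] at h
        exact R.inj s (by omega) t (by omega) h
    have od' : ∀ t < m + 1, Function.update l m y t ∈ Od G := by
      intro t ht
      by_cases t1 : t = m
      · rw [t1, Function.update_self]; exact C.od_of hey
      · rw [hl t (by omega)]; exact R.od t (by omega)
    have hm : m + 1 ≤ 16 := by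
      refine le_trans ?_ C.od
      rw [← Finset.card_range (m + 1)]
      exact Finset.card_le_card_of_injOn (Function.update l m y)
        (fun t ht => od' t (by simpa using ht))
        (fun s hs t ht h => inj' s (by simpa using hs) t (by simpa using ht) h)
    refine ⟨m, ?_, Function.update l m y, hl, ?_⟩
    · have : Nat.ble m 15 = true := by rw [Nat.ble_eq]; omega
      simp only [cm, frc_eq, testBit_lor', this, testBit_one_shl, cond_true]
      simp
    · simp only [nxt, Nat.beq_refl, cond_true]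
      refine ⟨inj', List.Forall₂.cons ⟨by simp; omega, by simp, by simp; omega, hc, ?_, hf⟩
        (R.fa.imp (fun _ _ h => h.mono (by omega) hl)), List.nodup_cons.2 ⟨hn, R.nd⟩, nz', od'⟩
      simp [hl i hi, hG]

lemma recol_aux (inj : ∀ s < m, ∀ t < m, l s = l t → s = t) (fa : List.Forall₂ (Rl G f m l) L Es)
    (nd : Es.Nodup) : ∀ n, rnz L n = true → ∃ g : E → K, (∀ e, e ∉ Es → g e = 0) ∧
      (∀ e ∈ Es, f e + g e ≠ 0) ∧ (∀ t < m, bd G g (l t) = dec2 (racc L n) t) ∧
      ∀ x, (∀ t < m, l t ≠ x) → bd G g x = 0 := by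
  induction fa with
  | nil => exact fun n _ => ⟨0, by simp, by simp, by simp [bd_zero, racc, dec2_zero],
      by simp [bd_zero]⟩
  | @cons p e L Es h _ ih =>
    intro n hn
    rw [List.nodup_cons] at nd
    simp only [rnz, Bool.and_eq_true, Bool.not_eq_true', ← Bool.not_eq_true, Nat.beq_eq] at hn
    obtain ⟨g, g1, g2, g3, g4⟩ := ih nd.2 _ hn.2
    obtain ⟨h1, h2, h3, h4, h5, h6⟩ := h
    have hd := land3_lt n
    refine ⟨g + Pi.single e (dec2 (Nat.land n 3) 0), fun x hx => ?_, fun x hx => ?_,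
      fun t ht => ?_, fun x hx => ?_⟩
    · simp only [List.mem_cons, not_or] at hx
      simp [hx.1, g1 x hx.2]
    · rcases List.mem_cons.1 hx with rfl | hx'
      · simp only [Pi.add_apply, Pi.single_eq_same, g1 x nd.1, zero_add, h6]
        exact fun t => hn.1 (dec2_inj _ h4 _ hd (K_eq _ _ t).symm)
      · have : x ≠ e := fun t => nd.1 (t ▸ hx')
        simpa [this] using g2 x hx'
    · rw [bd_add, bd_single K2 h5]
      simp only [racc, dec2_xor, dec2_shl hd, Pi.add_apply, g3 t ht, Pi.single_apply]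
      have e1 : l t = l p.1 ↔ p.1 = t := ⟨fun h => (inj _ ht _ h1 h).symm, fun h => h ▸ rfl⟩
      have e2 : l t = l p.2.1 ↔ p.2.1 = t := ⟨fun h => (inj _ ht _ h2 h).symm, fun h => h ▸ rfl⟩
      simp only [e1, e2]
    · rw [bd_add, bd_single K2 h5]
      simp [g4 x hx, (hx _ h1).symm, (hx _ h2).symm]

lemma Real.recol (C : Ctx G f) (R : Real G f m L l Es) {n : ℕ} (h1 : rnz L n = true)
    (h2 : racc L n = 0) : False := by
  obtain ⟨g, g1, g2, g3, g4⟩ := recol_aux R.inj R.fa R.nd n h1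
  refine C.mc.nf ⟨f + g, fun e => ?_, ?_⟩
  · by_cases he : e ∈ Es
    · exact g2 e he
    · simpa [g1 e he] using R.nz e he
  · rw [bd_add, C.fl, zero_add]
    ext1 x
    by_cases hx : ∃ t < m, l t = x
    · obtain ⟨t, ht, rfl⟩ := hx
      rw [g3 t ht, h2, dec2_zero]; rfl
    · push Not at hx
      exact g4 x hx

lemma count_aux (fa : List.Forall₂ (Rl G f m l) L Es) (nd : Es.Nodup) (P : E → Prop)
    [DecidablePred P] (q : Ed → Bool) (h : ∀ p e, Rl G f m l p e → (P e ↔ q p = true)) :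
    (univ.filter (fun e => e ∈ Es ∧ P e)).card = L.countP q := by
  induction fa with
  | nil => simp
  | @cons p e L Es hp _ ih =>
    rw [List.nodup_cons] at nd
    rw [List.countP_cons, ← ih nd.2]
    by_cases he : P e
    · rw [if_pos ((h p e hp).1 he), ← Finset.card_insert_of_notMem (a := e) (by simp [nd.1])]
      congr 1
      ext x
      simp only [Finset.mem_filter, Finset.mem_univ, true_and, List.mem_cons, Finset.mem_insert]
      constructor
      · tauto
      · rintro (rfl | h)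
        · exact ⟨Or.inl rfl, he⟩
        · tauto
    · rw [if_neg (fun t => he ((h p e hp).2 t)), add_zero]
      congr 1
      ext x
      simp only [Finset.mem_filter, Finset.mem_univ, true_and, List.mem_cons]
      constructor
      · rintro ⟨rfl | h1, h2⟩
        · exact absurd h2 he
        · exact ⟨h1, h2⟩
      · tauto

lemma Real.peter (C : Ctx G f) (R : Real G f m L l Es) {n : ℕ} (h : pet m L n = true) :
    False := by
  simp only [pet, decide_eq_true_eq] at h
  obtain ⟨h1, h2⟩ := h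
  have full : ∀ t < m, ∀ e ∈ cut G {l t}, e ∈ Es := fun t ht e he => by
    by_contra hn
    have := (R.rest C ht).1
    have hp := Finset.card_pos.2 ⟨e, (Finset.mem_filter (p := (· ∉ Es))).2 ⟨he, hn⟩⟩
    have := h1 t ht
    omega
  have ends : ∀ e ∈ Es, ∃ s < m, ∃ t < m, s ≠ t ∧ G e = s(l s, l t) := by
    intro e he
    obtain ⟨k, hk, rfl⟩ := List.getElem_of_mem he
    have := (List.forall₂_iff_get.1 R.fa).2 k (R.fa.length_eq ▸ hk) hk
    obtain ⟨a1, a2, a3, -, a5, -⟩ := this
    exact ⟨_, a1, _, a2, a3, a5⟩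
  let S : Set V := {x | ∃ t < m, l t = x}
  have cS : cut G S = ∅ := by
    refine Finset.eq_empty_of_forall_notMem (fun e he => ?_)
    obtain ⟨x, y, hxy, ⟨t, ht, rfl⟩, hy⟩ := mem_cut.1 he
    obtain ⟨s, hs, t', ht', -, h⟩ := ends e (full t ht e (mem_cut_single.2
      ⟨y, fun h => hy ⟨t, ht, h.symm⟩, hxy⟩))
    rw [mem_cut_of h] at he
    exact he ⟨fun _ => ⟨t', ht', rfl⟩, fun _ => ⟨s, hs, rfl⟩⟩
  have hin : Inner G S := by
    have := h2 0 1 (by decide)
    rw [if_pos (by decide +kernel)] at this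
    obtain ⟨e, he⟩ : ∃ e, e ∈ Es := by
      apply List.exists_mem_of_length_pos
      rw [← R.fa.length_eq]
      have := List.countP_le_length
        (p := fun p : Ed => decide (s(rho n p.1, rho n p.2.1) = s(0, 1))) (l := L)
      omega
    obtain ⟨s, hs, t, ht, hst, h⟩ := ends e he
    exact ⟨e, _, _, h, fun h' => hst (R.inj _ hs _ ht h'), ⟨s, hs, rfl⟩, ⟨t, ht, rfl⟩⟩
  have hout := C.mc.triv (Or.inr (by rw [cS]; rfl)) hin
  let p : V → Fin 10 := fun x => if h : ∃ t < m, l t = x then rho n h.choose else 0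
  have hp : ∀ t < m, p (l t) = rho n t := fun t ht => by
    have ex : ∃ s < m, l s = l t := ⟨t, ht, rfl⟩
    simp only [p, dif_pos ex]
    rw [R.inj _ ex.choose_spec.1 _ ht ex.choose_spec.2]
  refine C.mc.nq ⟨p, fun a b hab => ?_⟩
  rw [← h2 a b hab, ← count_aux R.fa R.nd (fun e => gmap G p e = s(a, b))]
  · congr 1
    refine Finset.filter_congr (fun e _ => ⟨fun he => ⟨?_, he⟩, fun he => he.2⟩)
    obtain ⟨x, y, hxy⟩ := exists_ends G e
    have ne : x ≠ y := by
      rintro rfl
      rw [gmap_of p hxy] at he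
      rcases Sym2.eq_iff.1 he with ⟨t1, t2⟩ | ⟨t1, t2⟩
      · exact hab (t1.symm.trans t2)
      · exact hab (t2.symm.trans t1)
    have nc : e ∉ cut G S := by simp [cS]
    rw [mem_cut_of hxy, not_not] at nc
    by_cases hx : x ∈ S
    · obtain ⟨t, ht, rfl⟩ := hx
      exact full t ht e (mem_cut_single.2 ⟨y, ne.symm, hxy⟩)
    · exact absurd ⟨e, x, y, hxy, ne, hx, fun t => hx (nc.2 t)⟩ hout
  · rintro q e ⟨a1, a2, -, -, a5, -⟩
    rw [gmap_of p a5, hp _ a1, hp _ a2, decide_eq_true_eq]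

lemma go_sound (C : Ctx G f) (t : T) : ∀ m L i c mask, go t m L i c mask = true →
    ∀ j, mask.testBit j = true → ∀ l Es, ¬ Real G f (nxt j m) ((i, j, c) :: L) l Es := by
  have key : ∀ mask j j' : ℕ, mask.testBit j' = true →
      j' = j ∨ (Nat.xor mask (Nat.shiftLeft 1 j)).testBit j' = true := fun mask j j' h => by
    by_cases e : j' = j
    · exact Or.inl e
    · right
      rw [testBit_xor', testBit_one_shl, h]
      simp [Ne.symm e]
  induction t with
  | nil =>
    intro m L i c mask h j hj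
    simp only [go, Nat.beq_eq] at h
    simp [h] at hj
  | R j n rest ih =>
    intro m L i c mask h j' hj l Es R
    simp only [go, Bool.and_eq_true, Nat.beq_eq] at h
    rcases key mask j j' hj with rfl | hj
    · exact R.recol C h.1.1 h.1.2
    · exact ih _ _ _ _ _ h.2 j' hj l Es R
  | P j n rest ih =>
    intro m L i c mask h j' hj l Es R
    simp only [go, Bool.and_eq_true] at h
    rcases key mask j j' hj with rfl | hj
    · exact R.peter C h.1
    · exact ih _ _ _ _ _ h.2 j' hj l Es R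
  | B j m' i' c' ch rest ih1 ih2 =>
    intro m L i c mask h j' hj l Es R
    simp only [go, Bool.and_eq_true, Nat.beq_eq, Nat.ble_eq] at h
    obtain ⟨⟨⟨⟨h1, h2⟩, h3⟩, h4⟩, h5⟩ := h
    rcases key mask j j' hj with rfl | hj
    · rw [← h1] at R
      obtain ⟨c4, e, e1, e2, e3⟩ := R.exists_edge C h2 h3
      obtain ⟨j, k1, l', -, R'⟩ := R.step C h2 c4 e1 e2 e3
      exact ih1 _ _ _ _ _ h4 j k1 _ _ R'
    · exact ih2 _ _ _ _ _ h5 j' hj l Es R

end Pool.Agent.MP_e6539c_co.h19

end MrgPart1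

-- ======== part 2: formerly Pool.Agent.MP_e6539c_co.h19.Main
section MrgPart2

/-! There is no minimal counterexample. -/

namespace Pool.Agent.MP_e6539c_co.h19

lemma norm_aux : ∀ x y : K, x ≠ 0 → y ≠ 0 → ∃ z : K, z ≠ 0 ∧ x ≠ z ∧ (y = x ∨ y = z) := by decide

lemma bit_eq {n j k : ℕ} (h : n = 2 ^ k) (hj : n.testBit j = true) : j = k := by
  rw [h, Nat.testBit_two_pow, decide_eq_true_eq] at hj
  exact hj.symm

open Finset Classical

set_option linter.unusedSectionVars false

variable {V E : Type} [Fintype V] [Fintype E]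

lemma MC0.cubic {G : E → Sym2 V} (mc : MC0 G) (od : (Od G).card ≤ 16)
    (dg : ∀ v, (cut G {v}).card ≤ 3) : False := by
  by_cases hl : ∀ e, (G e).IsDiag
  · refine mc.nf ⟨fun _ => 1, fun _ => one_ne_zero, ?_⟩
    ext1 v
    have : cut G {v} = ∅ := Finset.eq_empty_of_forall_notMem (fun e he => by
      obtain ⟨y, hy, h⟩ := mem_cut_single.1 he
      have := hl e
      rw [h, Sym2.mk_isDiag_iff] at this
      exact hy this.symm)
    simp [bd, this]
  obtain ⟨e0, h0⟩ := not_forall.1 hl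
  obtain ⟨u, v, huv⟩ := exists_ends G e0
  have ne : u ≠ v := by simpa [huv] using h0
  obtain ⟨f, f1, f2, f3⟩ := mc.ext1 huv ne
  have C0 : Ctx G f := ⟨mc, od, dg, f1⟩
  have m1 : e0 ∈ cut G {u} := by simp [mem_cut_of huv, ne.symm]
  have m2 : e0 ∈ cut G {v} := by simp [mem_cut_of huv, ne]
  obtain ⟨e1, k1, n1⟩ := Finset.exists_mem_ne
    (show 1 < (cut G {u}).card by rw [C0.three (C0.od_of m1)]; norm_num) e0
  obtain ⟨e2, k2, n2⟩ := Finset.exists_mem_ne
    (show 1 < (cut G {v}).card by rw [C0.three (C0.od_of m2)]; norm_num) e0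
  have n12 : e2 ≠ e1 := by
    rintro rfl
    obtain ⟨y, hy, h⟩ := mem_cut_single.1 k1
    rw [mem_cut_of h] at k2
    simp only [Set.mem_singleton_iff, ne, false_iff, not_not] at k2
    subst k2
    exact n1 (mc.digon h huv ne)
  obtain ⟨z, z0, z1, z2⟩ := norm_aux _ _ (f3 e1 n1) (f3 e2 n2)
  obtain ⟨θ, t0, t1, t2⟩ := exists_theta (dec2 1 0) (dec2 2 0) (f e1) z (by decide) (by decide)
    (by decide) (f3 e1 n1) z0 z1
  have C : Ctx G (fun e => θ (f e)) := ⟨mc, od, dg, by
    ext1 x
    rw [bd_hom, f1]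
    simp⟩
  have R0 : Real G (fun e => θ (f e)) 2 [(0, 1, 0)] (fun t => if t = 0 then u else v) [e0] := by
    refine ⟨fun s hs t ht h => ?_, List.Forall₂.cons ⟨by simp, by simp, by simp, by simp,
      by simp [huv], by simp [f2, dec2_zero]⟩ List.Forall₂.nil, by simp,
      fun e he => t0 _ (f3 e (by simpa using he)), fun t _ => ?_⟩
    · by_cases s0 : s = 0 <;> by_cases t0 : t = 0
      · omega
      · simp [s0, t0, ne] at h
      · simp [s0, t0, ne.symm] at h
      · omega
    · split_ifs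
      · exact C0.od_of m1
      · exact C0.od_of m2
  obtain ⟨j, j1, l1, hl1, R1⟩ := R0.step C (i := 0) (c := 1) (by norm_num) (by norm_num)
    (e := e1) (by simpa using k1) (by simpa using n1) t1
  obtain rfl := bit_eq (k := 2) (by decide +kernel) j1
  have k2' : e2 ∈ cut G {l1 1} := by rw [hl1 1 (by norm_num)]; simpa using k2
  rcases z2 with z2 | z2
  · obtain ⟨j, j1, l2, -, R2⟩ := R1.step C (i := 1) (c := 1) (by decide) (by norm_num)
      k2' (by simp [n12, n2]) (by rw [z2, t1])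
    exact go_sound C _ _ _ _ _ _ cert1_ok j (by
      rw [show (8 : ℕ) = cm (nxt 2 2) [(0, 2, 1), (0, 1, 0)] 1 1 by decide +kernel]; exact j1) _ _ R2
  · obtain ⟨j, j1, l2, -, R2⟩ := R1.step C (i := 1) (c := 2) (by decide) (by norm_num)
      k2' (by simp [n12, n2]) (by rw [z2, t2])
    exact go_sound C _ _ _ _ _ _ cert2_ok j (by
      rw [show (8 : ℕ) = cm (nxt 2 2) [(0, 2, 1), (0, 1, 0)] 1 2 by decide +kernel]; exact j1) _ _ R2

lemma MC.false {G : E → Sym2 V} (mc : MC G) : False := mc.toMC0.cubic mc.od mc.deg_le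

theorem flow_or_petersen (G : E → Sym2 V) (hb : Bl G) (ho : (Od G).card ≤ 17) :
    HasFlow G ∨ QP G := by
  have h16 : (Od G).card ≤ 16 := by
    obtain ⟨k, hk⟩ := even_Od G
    omega
  clear ho
  induction hn : mu G using Nat.strong_induction_on generalizing G with
  | _ n ih =>
    by_contra h
    rw [not_or] at h
    exact MC.false (MC.of hb h16 h.1 h.2 (fun G' hm hb' ho' => ih _ (hn ▸ hm) G' hb' ho' rfl))

end Pool.Agent.MP_e6539c_co.h19

end MrgPart2

-- marker of a merged file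
example : 731051 + 221961 = 731051 + 221961 := rfl
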