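import Mathlib.Algebra.BigOperators.Fin
import Mathlib.Tactic.IntervalCases
import Mathlib.Tactic.LinearCombination
import Mathlib.Topology.Sheaves.Presheaf
import Mathlib.Tactic.Monotonicity.Lemmas
import Mathlib.Tactic.Bound
import Mathlib.Combinatorics.SimpleGraph.Basic
import Pool.Agent.MP_e6539c_co.h19.Poles
import Pool.Agent.MP_e6539c_co.h19.Main

-- ======== part 0: formerly Pool.Agent.MP_e6539c_co.h19.Sparse
section MrgPart0

/-! Two disjoint spanning trees in a dense part, and the resulting edge bound. -/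

namespace Pool.Agent.MP_e6539c_co.h19

open Finset Classical

set_option linter.unusedSectionVars false

variable {V E : Type} [Fintype V] [Fintype E]

/-- Every admissible boundary on `X` is realised on `T`. -/
def Conn (G : E → Sym2 V) (X : Finset V) (T : Finset E) : Prop :=
  ∀ β : V → ZMod 2, (∀ x ∉ X, β x = 0) → ∑ x ∈ X, β x = 0 →
    ∃ g : E → ZMod 2, (∀ e ∉ T, g e = 0) ∧ bd G g = β

/-- Edges of `F` inside `Y`. -/
noncomputable def ein (G : E → Sym2 V) (F : Finset E) (Y : Finset V) : Finset E :=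
  F.filter (fun e => ∀ z ∈ G e, z ∈ Y)

lemma mem_ein {G : E → Sym2 V} {F : Finset E} {Y : Finset V} {e : E} {x y : V}
    (h : G e = s(x, y)) : e ∈ ein G F Y ↔ e ∈ F ∧ x ∈ Y ∧ y ∈ Y := by
  simp [ein, h]

lemma handshake (G : E → Sym2 V) (F : Finset E) (X : Finset V) :
    ∑ x ∈ X, (F.filter (· ∈ cut G {x})).card =
      (F.filter (· ∈ cut G (X : Set V))).card +
        2 * (ein G (F.filter (fun e => ¬ (G e).IsDiag)) X).card := by
  simp only [ein, Finset.filter_filter, Finset.card_filter]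
  rw [Finset.sum_comm, Finset.mul_sum, ← Finset.sum_add_distrib]
  refine Finset.sum_congr rfl (fun e _ => ?_)
  obtain ⟨p, q, h⟩ := exists_ends G e
  simp only [mem_cut_of h, h, Set.mem_singleton_iff, Finset.mem_coe, Sym2.mk_isDiag_iff,
    Sym2.mem_iff, forall_eq_or_imp, forall_eq]
  by_cases hpq : p = q
  · subst hpq; simp
  · have : ∀ x, (if ¬ (p = x ↔ q = x) then 1 else 0) =
        (if p = x then 1 else 0) + (if q = x then 1 else 0 : ℕ) := by
      intro x
      by_cases h1 : p = x <;> by_cases h2 : q = x <;> simp_all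
    simp only [this, Finset.sum_add_distrib, Finset.sum_ite_eq]
    by_cases h1 : p ∈ X <;> by_cases h2 : q ∈ X <;> simp [h1, h2, hpq]

section conn

variable {G : E → Sym2 V} {X : Finset V} {T : Finset E}

lemma Conn.congr {G' : E → Sym2 V} (h : Conn G' X T) (he : ∀ e ∈ T, G e = G' e) : Conn G X T := by
  intro β h1 h2
  obtain ⟨g, g1, g2⟩ := h β h1 h2
  refine ⟨g, g1, ?_⟩
  rw [← g2]
  exact bd_congr (fun e hne => g1 e (fun t => hne (he e t)))

lemma Conn.shift (h : Conn G X T) {x a : V} (hx : x ∉ X) (ha : a ∈ X) (β : V → ZMod 2)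
    (h1 : ∀ y ∉ insert x X, β y = 0) (h2 : ∑ y ∈ insert x X, β y = 0) :
    ∃ g : E → ZMod 2, (∀ e ∉ T, g e = 0) ∧
      bd G g = β + (Pi.single x (β x) + Pi.single a (β x)) := by
  have hxa : x ≠ a := fun t => hx (t ▸ ha)
  refine h _ (fun y hy => ?_) ?_
  · have hya : y ≠ a := fun t => hy (t ▸ ha)
    by_cases hyx : y = x
    · subst hyx; simp [hya, Z2]
    · simp [hya, hyx, h1 y (by simp [hyx, hy])]
  · rw [Finset.sum_insert hx] at h2
    simp only [Pi.add_apply, Finset.sum_add_distrib, Finset.sum_pi_single', hx, ha, if_true,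
      if_false, zero_add]
    rw [add_comm, h2]

lemma Conn.pend (h : Conn G X T) {x a : V} {e : E} (hx : x ∉ X) (ha : a ∈ X)
    (he : G e = s(x, a)) : Conn G (insert x X) (insert e T) := by
  intro β h1 h2
  obtain ⟨g, g1, g2⟩ := h.shift hx ha β h1 h2
  refine ⟨g + Pi.single e (β x), fun e' he' => ?_, ?_⟩
  · simp only [Finset.mem_insert, not_or] at he'
    simp [he'.1, g1 e' he'.2]
  · rw [bd_add, g2, bd_single Z2 he, add_assoc]
    ext1 y
    simp only [Pi.add_apply, Z2, add_zero]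

lemma Conn.sub {x a b : V} {ea eb : E} (h : Conn (Function.update G ea s(a, b)) X T)
    (hx : x ∉ X) (ha : a ∈ X) (hea : G ea = s(x, a)) (heb : G eb = s(x, b)) :
    Conn G (insert x X) (insert ea (insert eb T)) := by
  intro β h1 h2
  obtain ⟨g, g1, g2⟩ := h.shift hx ha β h1 h2
  have e1 : bd G (g + Pi.single ea (g ea)) =
      bd (Function.update G ea s(a, b)) (g + Pi.single ea (g ea)) := bd_congr (fun e hne => by
    by_cases t : e = ea
    · subst t; simp [Z2]
    · exact absurd (Function.update_of_ne t _ _).symm hne)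
  refine ⟨g + Pi.single ea (g ea) + (Pi.single ea (g ea) + Pi.single eb (g ea) +
    Pi.single ea (β x)), fun e' he' => ?_, ?_⟩
  · simp only [Finset.mem_insert, not_or] at he'
    simp [he'.1, he'.2.1, g1 e' he'.2.2]
  · rw [bd_add, e1, bd_add, bd_add, bd_add, g2, bd_single Z2 hea, bd_single Z2 hea,
      bd_single Z2 heb, bd_single Z2 (Function.update_self ea _ G)]
    ext1 y
    simp only [Pi.add_apply]
    generalize β y = t0
    generalize (Pi.single x (β x) : V → ZMod 2) y = t1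
    generalize (Pi.single a (β x) : V → ZMod 2) y = t2
    generalize (Pi.single a (g ea) : V → ZMod 2) y = t3
    generalize (Pi.single b (g ea) : V → ZMod 2) y = t4
    generalize (Pi.single x (g ea) : V → ZMod 2) y = t5
    have z : ∀ t : ZMod 2, 2 * t = 0 := by decide
    linear_combination z t1 + z t2 + z t3 + z t4 + z t5

end conn

lemma nw (n : ℕ) : ∀ (G : E → Sym2 V) (X : Finset V) (F : Finset E), X.card = n + 1 →
    (∀ e ∈ F, ∀ z ∈ G e, z ∈ X) →
    (∀ Y ⊆ X, Y.Nonempty → (ein G F Y).card + 2 ≤ 2 * Y.card) → F.card + 2 = 2 * X.card →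
    ∃ T1 T2, T1 ⊆ F ∧ T2 ⊆ F ∧ Disjoint T1 T2 ∧ Conn G X T1 ∧ Conn G X T2 := by
  induction n with
  | zero =>
    intro G X F hX _ _ _
    obtain ⟨x, rfl⟩ := Finset.card_eq_one.1 hX
    have : Conn G {x} ∅ := fun β h1 h2 => ⟨0, fun _ _ => rfl, by
      rw [bd_zero]
      ext1 y
      by_cases t : y = x
      · subst t; simpa using h2.symm
      · exact (h1 y (by simpa using t)).symm⟩
    exact ⟨∅, ∅, by simp, by simp, by simp, this, this⟩
  | succ n ih =>
    intro G X F hX hin hsp hF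
    have nl : ∀ e ∈ F, ¬ (G e).IsDiag := by
      intro e he hd
      obtain ⟨p, q, h⟩ := exists_ends G e
      rw [h, Sym2.mk_isDiag_iff] at hd
      subst hd
      have h1 := hsp {p} (by simpa using hin e he p (by simp [h])) (by simp)
      have h2 : 0 < (ein G F {p}).card := Finset.card_pos.2 ⟨e, by simp [mem_ein h, he]⟩
      simp only [Finset.card_singleton] at h1
      omega
    have hs := handshake G F X
    have e1 : F.filter (· ∈ cut G (X : Set V)) = ∅ := by
      refine Finset.filter_eq_empty_iff.2 (fun e he => ?_)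
      obtain ⟨p, q, h⟩ := exists_ends G e
      simp [mem_cut_of h, hin e he p (by simp [h]), hin e he q (by simp [h])]
    have e2 : ein G (F.filter (fun e => ¬ (G e).IsDiag)) X = F := by
      rw [Finset.filter_true_of_mem nl, ein, Finset.filter_true_of_mem hin]
    rw [e1, e2, Finset.card_empty, zero_add] at hs
    obtain ⟨x, hx, hd⟩ : ∃ x ∈ X, (F.filter (· ∈ cut G {x})).card ≤ 3 := by
      by_contra t
      push Not at t
      have := Finset.card_nsmul_le_sum X (fun x => (F.filter (· ∈ cut G {x})).card) 4 t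
      simp only [smul_eq_mul] at this
      omega
    obtain ⟨X', hx', rfl⟩ : ∃ X', x ∉ X' ∧ X = insert x X' :=
      ⟨X.erase x, by simp, (Finset.insert_erase hx).symm⟩
    rw [Finset.card_insert_of_notMem hx'] at hX hF
    set D := F.filter (· ∈ cut G {x}) with hD
    set F' := F.filter (· ∉ cut G {x}) with hF'
    have c1 : D.card + F'.card = F.card := Finset.card_filter_add_card_filter_not _
    have sub : F' ⊆ F := Finset.filter_subset _ _
    have hin' : ∀ e ∈ F', ∀ z ∈ G e, z ∈ X' := by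
      intro e he z hz
      obtain ⟨h1, h2⟩ := Finset.mem_filter.1 he
      rcases Finset.mem_insert.1 (hin e h1 z hz) with rfl | t
      · obtain ⟨y, hy⟩ := Sym2.mem_iff_exists.1 hz
        refine absurd (mem_cut_single.2 ⟨y, ?_, hy⟩) h2
        rintro rfl
        exact nl e h1 (by simp [hy])
      · exact t
    have hsp' : ∀ Y ⊆ X', Y.Nonempty → (ein G F' Y).card + 2 ≤ 2 * Y.card := fun Y hY hne =>
      le_trans (Nat.add_le_add_right (Finset.card_le_card (Finset.filter_subset_filter _ sub)) 2)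
        (hsp Y (hY.trans (Finset.subset_insert _ _)) hne)
    have c2 := hsp' X' (subset_refl _) (Finset.card_pos.1 (by omega))
    rw [ein, Finset.filter_true_of_mem hin'] at c2
    have hDe : ∀ e ∈ D, e ∈ F ∧ e ∉ F' ∧ ∃ a ∈ X', G e = s(x, a) := by
      intro e he
      obtain ⟨h1, h2⟩ := Finset.mem_filter.1 he
      obtain ⟨y, hy, h⟩ := mem_cut_single.1 h2
      refine ⟨h1, fun t => (Finset.mem_filter.1 t).2 h2, y, ?_, h⟩
      exact (Finset.mem_insert.1 (hin e h1 y (by simp [h]))).resolve_left hy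
    by_cases d2 : D.card = 2
    · obtain ⟨ea, eb, hab, hD2⟩ := Finset.card_eq_two.1 d2
      obtain ⟨a1, a2, a, a3, a4⟩ := hDe ea (by simp [hD2])
      obtain ⟨b1, b2, b, b3, b4⟩ := hDe eb (by simp [hD2])
      obtain ⟨T1, T2, t1, t2, t3, t4, t5⟩ := ih G X' F' (by omega) hin' hsp' (by omega)
      refine ⟨insert ea T1, insert eb T2, Finset.insert_subset a1 (t1.trans sub),
        Finset.insert_subset b1 (t2.trans sub), ?_, t4.pend hx' a3 a4, t5.pend hx' b3 b4⟩
      rw [Finset.disjoint_insert_left, Finset.disjoint_insert_right, Finset.mem_insert, not_or]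
      exact ⟨⟨hab, fun t => a2 (t2 t)⟩, fun t => b2 (t1 t), t3⟩
    have d3 : D.card = 3 := by omega
    have step : ∀ ea eb ec a b, ea ∈ D → eb ∈ D → ec ∈ D → ea ≠ eb → ea ≠ ec → eb ≠ ec →
        G ea = s(x, a) → G eb = s(x, b) → a ∈ X' → b ∈ X' →
        (∀ Y ⊆ X', a ∈ Y → b ∈ Y → (ein G F' Y).card + 2 ≠ 2 * Y.card) →
        ∃ T1 T2, T1 ⊆ F ∧ T2 ⊆ F ∧ Disjoint T1 T2 ∧ Conn G (insert x X') T1 ∧
          Conn G (insert x X') T2 := by
      intro ea eb ec a b ha hb hc hab hac hbc ga gb a3 b3 hY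
      obtain ⟨a1, a2, -⟩ := hDe ea ha
      obtain ⟨b1, b2, -⟩ := hDe eb hb
      obtain ⟨c1', c2', c, c3, gc⟩ := hDe ec hc
      have up : ∀ e ∈ F', Function.update G ea s(a, b) e = G e := fun e he =>
        Function.update_of_ne (fun t : e = ea => a2 (t ▸ he)) _ _
      obtain ⟨T1, T2, t1, t2, t3, t4, t5⟩ := ih (Function.update G ea s(a, b)) X' (insert ea F')
        (by omega) (fun e he z hz => by
          rcases Finset.mem_insert.1 he with rfl | he
          · simp only [Function.update_self, Sym2.mem_iff] at hz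
            rcases hz with rfl | rfl <;> assumption
          · rw [up e he] at hz
            exact hin' e he z hz) (fun Y hY' hne => by
          have h1 := hsp' Y hY' hne
          by_cases hab' : a ∈ Y ∧ b ∈ Y
          · have h2 := hY Y hY' hab'.1 hab'.2
            have h3 : ein (Function.update G ea s(a, b)) (insert ea F') Y ⊆
                insert ea (ein G F' Y) := by
              intro e he
              obtain ⟨k1, k2⟩ := Finset.mem_filter.1 he
              rcases Finset.mem_insert.1 k1 with rfl | k1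
              · exact Finset.mem_insert_self _ _
              · rw [up e k1] at k2
                exact Finset.mem_insert_of_mem (Finset.mem_filter.2 ⟨k1, k2⟩)
            have h4 := (Finset.card_le_card h3).trans (Finset.card_insert_le _ _)
            omega
          · have h3 : ein (Function.update G ea s(a, b)) (insert ea F') Y ⊆ ein G F' Y := by
              intro e he
              obtain ⟨k1, k2⟩ := Finset.mem_filter.1 he
              rcases Finset.mem_insert.1 k1 with rfl | k1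
              · simp only [Function.update_self, Sym2.mem_iff, forall_eq_or_imp, forall_eq] at k2
                exact absurd k2 hab'
              · rw [up e k1] at k2
                exact Finset.mem_filter.2 ⟨k1, k2⟩
            have h4 := Finset.card_le_card h3
            omega) (by rw [Finset.card_insert_of_notMem a2]; omega)
      wlog h2 : ea ∉ T2 generalizing T1 T2
      · exact this T2 T1 t2 t1 t3.symm t5 t4
          (fun t => Finset.disjoint_left.1 t3 t (not_not.1 h2))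
      have s2 : T2 ⊆ F' := fun e he =>
        (Finset.mem_insert.1 (t2 he)).resolve_left (fun t => h2 (t ▸ he))
      refine ⟨insert ea (insert eb T1), insert ec T2, Finset.insert_subset a1
        (Finset.insert_subset b1 (t1.trans (Finset.insert_subset a1 sub))),
        Finset.insert_subset c1' (s2.trans sub), ?_, t4.sub hx' a3 ga gb,
        (t5.congr (fun e he => (up e (s2 he)).symm)).pend hx' c3 gc⟩
      rw [Finset.disjoint_insert_left, Finset.disjoint_insert_left, Finset.disjoint_insert_right,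
        Finset.mem_insert, Finset.mem_insert, not_or, not_or]
      refine ⟨⟨hac, h2⟩, ⟨hbc, fun t => b2 (s2 t)⟩, fun t => ?_, t3⟩
      rcases Finset.mem_insert.1 (t1 t) with t | t
      · exact hac t.symm
      · exact c2' t
    obtain ⟨ea, eb, ec, hab, hac, hbc, hD3⟩ := Finset.card_eq_three.1 d3
    have ha : ea ∈ D := by simp [hD3]
    have hb : eb ∈ D := by simp [hD3]
    have hc : ec ∈ D := by simp [hD3]
    obtain ⟨a1, a2, a, a3, ga⟩ := hDe ea ha
    obtain ⟨b1, b2, b, b3, gb⟩ := hDe eb hb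
    obtain ⟨c1', c2', c, c3, gc⟩ := hDe ec hc
    by_contra hno
    have k1 := mt (step ea eb ec a b ha hb hc hab hac hbc ga gb a3 b3) hno
    have k2 := mt (step eb ec ea b c hb hc ha hbc hab.symm hac.symm gb gc b3 c3) hno
    push Not at k1 k2
    obtain ⟨Y1, y1, y2, y3, y4⟩ := k1
    obtain ⟨Y2, z1, z2, z3, z4⟩ := k2
    have u1 := Finset.card_union_add_card_inter Y1 Y2
    have u2 := Finset.card_union_add_card_inter (ein G F' Y1) (ein G F' Y2)
    have u3 := hsp' (Y1 ∩ Y2) (Finset.inter_subset_left.trans y1) ⟨b, by simp [y3, z2]⟩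
    have u4 : ein G F' Y1 ∩ ein G F' Y2 ⊆ ein G F' (Y1 ∩ Y2) := by
      intro e he
      obtain ⟨p, q, h⟩ := exists_ends G e
      simp only [Finset.mem_inter, mem_ein h] at he ⊢
      tauto
    have u5 := Finset.card_le_card u4
    have hxY : x ∉ Y1 ∪ Y2 := fun t => hx' (Finset.union_subset y1 z1 t)
    have u6 := hsp (insert x (Y1 ∪ Y2)) (Finset.insert_subset_insert _ (Finset.union_subset y1 z1))
      (by simp)
    rw [Finset.card_insert_of_notMem hxY] at u6
    have u7 : D ∪ (ein G F' Y1 ∪ ein G F' Y2) ⊆ ein G F (insert x (Y1 ∪ Y2)) := by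
      intro e he
      rcases Finset.mem_union.1 he with he | he
      · rw [hD3] at he
        simp only [Finset.mem_insert, Finset.mem_singleton] at he
        rcases he with rfl | rfl | rfl
        · simp [mem_ein ga, a1, y2]
        · simp [mem_ein gb, b1, y3]
        · simp [mem_ein gc, c1', z3]
      · obtain ⟨p, q, h⟩ := exists_ends G e
        simp only [Finset.mem_union, mem_ein h, Finset.mem_insert] at he ⊢
        have := @sub e
        tauto
    have u8 := Finset.card_le_card u7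
    rw [Finset.card_union_of_disjoint (Finset.disjoint_left.2 (fun e h1 h2 => (hDe e h1).2.1 (by
      rcases Finset.mem_union.1 h2 with t | t <;> exact (Finset.mem_filter.1 t).1)))] at u8
    omega

lemma MC0.sparse {G : E → Sym2 V} (mc : MC0 G) (X : Finset V) (hX : 2 ≤ X.card) :
    (ein G (univ.filter (fun e => ¬ (G e).IsDiag)) X).card + 3 ≤ 2 * X.card := by
  induction hn : X.card using Nat.strong_induction_on generalizing X with
  | _ n ih =>
  subst hn
  by_contra hc
  obtain ⟨F, hF, hFc⟩ := Finset.exists_subset_card_eq (s := ein G (univ.filter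
    (fun e => ¬ (G e).IsDiag)) X) (n := 2 * X.card - 2) (by omega)
  have hin : ∀ e ∈ F, ∀ z ∈ G e, z ∈ X := fun e he => (Finset.mem_filter.1 (hF he)).2
  have nl : ∀ e ∈ F, ¬ (G e).IsDiag := fun e he => by
    simpa using (Finset.mem_filter.1 (hF he)).1
  obtain ⟨T1, T2, t1, t2, t3, t4, t5⟩ := nw (X.card - 1) G X F (by omega) hin (fun Y hY hne => by
    by_cases h1 : Y.card = 1
    · obtain ⟨y, rfl⟩ := Finset.card_eq_one.1 h1
      have : ein G F {y} = ∅ := Finset.eq_empty_of_forall_notMem (fun e he => by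
        obtain ⟨p, q, h⟩ := exists_ends G e
        simp only [mem_ein h, Finset.mem_singleton] at he
        exact nl e he.1 (by simp [h, he.2.1, he.2.2]))
      simp [this]
    · have h2 := Finset.card_pos.2 hne
      have h3 := Finset.card_le_card hY
      by_cases h4 : Y.card = X.card
      · have : (ein G F Y).card ≤ F.card := Finset.card_filter_le _ _
        omega
      · have h5 := ih Y.card (by omega) Y (by omega) rfl
        have h6 : (ein G F Y).card ≤ (ein G (univ.filter (fun e => ¬ (G e).IsDiag)) Y).card :=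
          Finset.card_le_card (Finset.filter_subset_filter _ (fun e he => by simpa using nl e he))
        omega) (by omega)
  obtain ⟨e0, he0⟩ := Finset.card_pos.1 (show 0 < F.card by omega)
  obtain ⟨p, q, h0⟩ := exists_ends G e0
  obtain ⟨f, f0, f1⟩ := mc.off (S := (X : Set V)) ⟨e0, p, q, h0, by simpa [h0] using nl e0 he0,
    hin e0 he0 p (by simp [h0]), hin e0 he0 q (by simp [h0])⟩
  have key : ∀ (L : K →+ ZMod 2) (T : Finset E), T ⊆ F → Conn G X T → ∃ g : E → ZMod 2,
      bd G g = 0 ∧ (∀ e ∉ F, g e = L (f e)) ∧ ∀ e ∈ F, e ∉ T → g e = 1 := by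
    intro L T hT hC
    let g0 : E → ZMod 2 := fun e => if e ∈ F then 1 else L (f e)
    have b0 : ∀ x ∉ X, bd G g0 x = 0 := by
      intro x hx
      have := bd_hom G L f x
      rw [f1 x hx, map_zero] at this
      rw [← this]
      refine bd_congr_at (fun e he => ?_)
      obtain ⟨y, -, h⟩ := mem_cut_single.1 he
      exact if_neg (fun t => hx (hin e t x (by simp [h])))
    obtain ⟨g, g1, g2⟩ := hC (bd G g0) b0 (by
      have h1 := sum_cut Z2 G (X : Set V) g0
      rw [sum_cut_zero' Z2 b0] at h1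
      rw [h1]
      congr 1
      ext x; simp)
    refine ⟨g0 + g, ?_, fun e he => ?_, fun e he h => ?_⟩
    · rw [bd_add, g2]
      ext1 y
      simp [Z2]
    · simp [g0, he, g1 e (fun t => he (hT t))]
    · simp [g0, he, g1 e h]
  obtain ⟨g1, a1, a2, a3⟩ := key (AddMonoidHom.fst _ _) T1 t1 t4
  obtain ⟨g2, b1, b2, b3⟩ := key (AddMonoidHom.snd _ _) T2 t2 t5
  refine mc.nf ⟨fun e => (g1 e, g2 e), fun e h => ?_, ?_⟩
  · simp only [Prod.mk_eq_zero] at h
    by_cases he : e ∈ F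
    · by_cases h1 : e ∈ T1
      · rw [b3 e he (Finset.disjoint_left.1 t3 h1)] at h
        exact one_ne_zero h.2
      · rw [a3 e he h1] at h
        exact one_ne_zero h.1
    · rw [a2 e he, b2 e he] at h
      exact f0 e (Prod.ext h.1 h.2)
  · ext1 v
    have h1 := bd_hom G (AddMonoidHom.fst _ _) (fun e => ((g1 e, g2 e) : K)) v
    have h2 := bd_hom G (AddMonoidHom.snd _ _) (fun e => ((g1 e, g2 e) : K)) v
    simp only [AddMonoidHom.coe_fst, AddMonoidHom.coe_snd] at h1 h2
    exact Prod.ext (h1.symm.trans (congrFun a1 v)) (h2.symm.trans (congrFun b1 v))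

lemma MC0.cut_ge {G : E → Sym2 V} (mc : MC0 G) (X : Finset V) (hX : 2 ≤ X.card) :
    ∑ x ∈ X, (cut G {x}).card + 6 ≤ (cut G (X : Set V)).card + 4 * X.card := by
  have h1 := handshake G univ X
  have h2 := mc.sparse X hX
  simp only [Finset.filter_mem_eq_inter, Finset.univ_inter] at h1
  omega

end Pool.Agent.MP_e6539c_co.h19

end MrgPart0

-- ======== part 1: formerly Pool.Agent.MP_e6539c_co.h19.Token
section MrgPart1

/-! Minimal counterexamples for the number of vertices needed to meet all sides of 3-cuts. -/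

namespace Pool.Agent.MP_e6539c_co.h19

open Finset Classical

set_option linter.unusedSectionVars false

variable {V E : Type} [Fintype V] [Fintype E]

/-- The set `U` meets every side of a cut of size three. -/
def Tok (G : E → Sym2 V) (U : Finset V) : Prop :=
  ∀ S : Set V, (cut G S).card = 3 → ∃ u ∈ U, u ∈ S

/-- At most `n` vertices meet every side of a cut of size three. -/
def TB (G : E → Sym2 V) (n : ℕ) : Prop := ∃ U : Finset V, U.card ≤ n ∧ Tok G U

/-- Vertices of degree three. -/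
noncomputable def C3 (G : E → Sym2 V) : Finset V := univ.filter (fun v => (cut G {v}).card = 3)

/-- Vertices of degree at least five. -/
noncomputable def C5 (G : E → Sym2 V) : Finset V := univ.filter (fun v => 5 ≤ (cut G {v}).card)

lemma mem_C3 {G : E → Sym2 V} {v : V} : v ∈ C3 G ↔ (cut G {v}).card = 3 := by simp [C3]

lemma mem_C5 {G : E → Sym2 V} {v : V} : v ∈ C5 G ↔ 5 ≤ (cut G {v}).card := by simp [C5]

/-- A minimal counterexample for the token bound. -/
structure MCT (G : E → Sym2 V) : Prop extends MC0 G where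
  tb : TB G 15
  ih : ∀ G' : E → Sym2 V, mu G' < mu G → Bl G' → TB G' 15 → HasFlow G' ∨ QP G'

lemma Tok.gmap {G : E → Sym2 V} {U : Finset V} (h : Tok G U) (p : V → V) :
    Tok (gmap G p) (U.image p) := fun S hS => by
  rw [cut_gmap] at hS
  obtain ⟨u, u1, u2⟩ := h _ hS
  exact ⟨p u, Finset.mem_image_of_mem _ u1, u2⟩

lemma TB.gmap {G : E → Sym2 V} {n : ℕ} (h : TB G n) (p : V → V) : TB (gmap G p) n := by
  obtain ⟨U, h1, h2⟩ := h
  exact ⟨_, Finset.card_image_le.trans h1, h2.gmap p⟩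

lemma QP.cut3 {G : E → Sym2 V} {p : V → Fin 10} (hp : ∀ l m, l ≠ m →
    (univ.filter (fun e => gmap G p e = s(l, m))).card = if adj l m then 1 else 0) (l : Fin 10) :
    (cut G (p ⁻¹' {l})).card = 3 := by
  rw [← cut_gmap, card_cut_fin]
  rw [Finset.sum_congr rfl (fun m hm => hp l m (Ne.symm (by simpa using hm)))]
  revert l
  decide +kernel

lemma QP.not_tb {G : E → Sym2 V} (h : QP G) : ¬ TB G 9 := by
  obtain ⟨p, hp⟩ := h
  rintro ⟨U, h1, h2⟩
  have : (univ : Finset (Fin 10)) ⊆ U.image p := fun l _ => by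
    obtain ⟨v, hv, hl⟩ := h2 _ (QP.cut3 hp l)
    exact Finset.mem_image.2 ⟨v, hv, hl⟩
  have h3 := (Finset.card_le_card this).trans Finset.card_image_le
  simp only [Finset.card_univ, Fintype.card_fin] at h3
  omega

lemma cut_eq_single {G : E → Sym2 V} {S : Set V} {x : V} (hx : x ∈ S)
    (h : ∀ y ∈ S, y ≠ x → cut G {y} = ∅) : cut G S = cut G {x} := by
  ext e
  obtain ⟨p, q, he⟩ := exists_ends G e
  have h1 : p ∈ S → p ≠ x → e ∉ cut G {p} := fun a b => by simp [h p a b]
  have h2 : q ∈ S → q ≠ x → e ∉ cut G {q} := fun a b => by simp [h q a b]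
  simp only [mem_cut_of he, Set.mem_singleton_iff] at h1 h2 ⊢
  grind

namespace MC0

variable {G : E → Sym2 V}

lemma count (mc : MC0 G) {S : Set V} {x y : V} (hx : x ∈ S) (hy : y ∈ S) (hxy : x ≠ y)
    (nx : cut G {x} ≠ ∅) (ny : cut G {y} ≠ ∅) :
    ((C5 G).filter (· ∈ S)).card + 6 ≤ (cut G S).card + ((C3 G).filter (· ∈ S)).card := by
  let X : Finset V := univ.filter (fun z => z ∈ S ∧ cut G {z} ≠ ∅)
  have h1 := mc.cut_ge X (Finset.one_lt_card.2 ⟨x, by simp [X, hx, nx], y, by simp [X, hy, ny], hxy⟩)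
  have h2 : cut G (X : Set V) = cut G S := by
    ext e
    obtain ⟨p, q, he⟩ := exists_ends G e
    by_cases hpq : p = q
    · simp [mem_cut_of he, hpq]
    · have a1 : cut G {p} ≠ ∅ := Finset.ne_empty_of_mem (a := e) (by simp [mem_cut_of he, Ne.symm hpq])
      have a2 : cut G {q} ≠ ∅ := Finset.ne_empty_of_mem (a := e) (by simp [mem_cut_of he, hpq])
      simp [mem_cut_of he, X, a1, a2]
  have h3 : (C5 G).filter (· ∈ S) = X.filter (fun z => 5 ≤ (cut G {z}).card) := by
    ext z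
    simp only [X, Finset.mem_filter, mem_C5, Finset.mem_univ, true_and, ← Finset.card_eq_zero, ne_eq]
    constructor
    · rintro ⟨a, b⟩; exact ⟨⟨b, by omega⟩, a⟩
    · tauto
  have h4 : (C3 G).filter (· ∈ S) = X.filter (fun z => (cut G {z}).card = 3) := by
    ext z
    simp only [X, Finset.mem_filter, mem_C3, Finset.mem_univ, true_and, ← Finset.card_eq_zero, ne_eq]
    constructor
    · rintro ⟨a, b⟩; exact ⟨⟨b, by omega⟩, a⟩
    · tauto
  have h5 : ∑ z ∈ X, (4 + if 5 ≤ (cut G {z}).card then 1 else 0) ≤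
      ∑ z ∈ X, ((cut G {z}).card + if (cut G {z}).card = 3 then 1 else 0) := by
    refine Finset.sum_le_sum (fun z hz => ?_)
    have a0 : (cut G {z}).card ≠ 0 := by
      simp only [X, Finset.mem_filter] at hz
      simpa using hz.2.2
    have a1 := mc.bl {z}
    have a2 := mc.no2 {z}
    split_ifs <;> omega
  rw [h3, h4, ← h2, Finset.card_filter, Finset.card_filter]
  simp only [Finset.sum_add_distrib, Finset.sum_const, smul_eq_mul] at h5
  omega

lemma side (mc : MC0 G) {S : Set V} {x : V} (hx : x ∈ S) (nx : cut G {x} ≠ ∅)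
    (h5 : (cut G S).card ≤ 5) : (∃ u ∈ C3 G, u ∈ S) ∨ cut G S = cut G {x} := by
  by_cases h : ∀ y ∈ S, y ≠ x → cut G {y} = ∅
  · exact Or.inr (cut_eq_single hx h)
  · push Not at h
    obtain ⟨y, hy, hyx, ny⟩ := h
    have := mc.count hx hy hyx.symm nx ny.ne_empty
    obtain ⟨u, hu⟩ := Finset.card_pos.1 (show 0 < ((C3 G).filter (· ∈ S)).card by omega)
    exact Or.inl ⟨u, Finset.mem_filter.1 hu⟩

lemma tok (mc : MC0 G) : Tok G (C3 G) := fun S hS => by
  obtain ⟨e, he⟩ := Finset.card_pos.1 (show 0 < (cut G S).card by omega)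
  obtain ⟨x, y, h, hx, hy⟩ := mem_cut.1 he
  rcases mc.side hx (Finset.ne_empty_of_mem (mem_cut_single.2 ⟨y, fun t => hy (t ▸ hx), h⟩))
    (by omega) with t | t
  · exact t
  · exact ⟨x, mem_C3.2 (t ▸ hS), hx⟩

lemma tok_split (mc : MC0 G) {v u w : V} {a b : E} (hab : a ≠ b) (ea : G a = s(v, u))
    (eb : G b = s(v, w)) (hu : u ≠ v) (hw : w ≠ v) {S : Set V}
    (hS : (cut (split G a b v u w) S).card = 3) :
    (∃ x ∈ C3 G, x ∈ S) ∨ (v ∈ S ∧ (cut G {v}).card = 5) := by
  have huw : u ≠ w := by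
    rintro rfl
    exact hab (mc.digon ea eb hu.symm)
  by_cases hv : v ∈ S
  · by_cases h : u ∈ Sᶜ ∧ w ∈ Sᶜ
    · have h1 := cut_split_both hab ea eb (S := Sᶜ) (by simpa using hv) h.1 h.2
      rw [cut_compl, cut_compl, hS] at h1
      rcases mc.side hv (Finset.ne_empty_of_mem (mem_cut_single.2 ⟨u, hu, ea⟩)) h1.le with t | t
      · exact Or.inl t
      · exact Or.inr ⟨hv, t ▸ h1⟩
    · have h1 := cut_split_else hab ea eb (S := Sᶜ) (by simpa using hv) h
      rw [cut_compl, cut_compl, hS] at h1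
      exact Or.inl (mc.tok S h1.symm)
  · left
    by_cases h : u ∈ S ∧ w ∈ S
    · have h1 := cut_split_both hab ea eb hv h.1 h.2
      have h2 := mc.count h.1 h.2 huw
        (Finset.ne_empty_of_mem (a := a) (by simp [mem_cut_of ea, hu.symm]))
        (Finset.ne_empty_of_mem (a := b) (by simp [mem_cut_of eb, hw.symm]))
      obtain ⟨x, hx⟩ := Finset.card_pos.1 (show 0 < ((C3 G).filter (· ∈ S)).card by omega)
      exact ⟨x, Finset.mem_filter.1 hx⟩
    · exact mc.tok S (by rw [← cut_split_else hab ea eb hv h, hS])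

end MC0

namespace MCT

variable {G : E → Sym2 V}

lemma of (bl : Bl G) (tb : TB G 15) (nf : ¬ HasFlow G) (nq : ¬ QP G)
    (ih : ∀ G' : E → Sym2 V, mu G' < mu G → Bl G' → TB G' 15 → HasFlow G' ∨ QP G') :
    MCT G := by
  refine ⟨⟨bl, nf, nq, fun {S} h => ?_⟩, tb, ih⟩
  obtain ⟨e, x, y, he, hxy, hx, hy⟩ := id h
  rcases ih _ (mu_col_lt x h) (bl.gmap _) (tb.gmap _) with h1 | h1
  · exact off_of_col hx h1
  · exact absurd h1.of_gmap nq

lemma small (mc : MCT G) {G' : E → Sym2 V} (hm : mu G' < mu G) (hb : Bl G') (ht : TB G' 9) :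
    HasFlow G' := by
  obtain ⟨U, h1, h2⟩ := id ht
  exact (mc.ih _ hm hb ⟨U, by omega, h2⟩).resolve_right (fun h => h.not_tb ht)

lemma c3_le (mc : MCT G) : (C3 G).card ≤ 15 := by
  obtain ⟨U, h1, h2⟩ := mc.tb
  refine le_trans (Finset.card_le_card (fun x hx => ?_)) h1
  obtain ⟨u, u1, u2⟩ := h2 _ (mem_C3.1 hx)
  exact u2 ▸ u1

lemma iso (mc : MCT G) {W : Set V} {v : V} {a1 a2 b1 b2 : E} (hv : v ∉ W)
    (hd : 4 ≤ (cut G {v}).card) (hc : cut G W = {a1, a2, b1, b2}) (h4 : (cut G W).card = 4)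
    (ho : ((C3 G).filter (· ∉ W)).card ≤ 7) (hW : Inner G W)
    (hext : ∀ f : E → K, (∀ e, f e ≠ 0) → (∀ x ∉ W, bd G f x = 0) → f a1 = f a2 → False) :
    False := by
  obtain ⟨n1, n2, n3, n4, n5, n6⟩ := MC.four_ne (hc ▸ h4)
  rcases mc.toMC0.pole n1 (by simp [hc]) (by simp [hc]) hW with
    ⟨G2, q, hq, hm, hb, -, hf, -, p1, -, hp⟩ | h
  · obtain ⟨f, f0, f1, f2⟩ := hf (mc.small hm hb ⟨insert q (insert p1 ((C3 G).filter (· ∉ W))),
      (Finset.card_insert_le _ _).trans (Nat.succ_le_succ ((Finset.card_insert_le _ _).trans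
        (by omega))), fun S hS => by
        by_cases t1 : q ∈ S
        · exact ⟨q, by simp, t1⟩
        by_cases t2 : p1 ∈ S
        · exact ⟨p1, by simp, t2⟩
        obtain ⟨u, u1, u2⟩ := mc.toMC0.tok (S \ W) (by rw [← hp S t1 t2, hS])
        exact ⟨u, by simp [u1, u2.2], u2.1⟩⟩)
    exact hext f f0 f1 f2
  · obtain ⟨z, hz, c, c1, c2, hcz⟩ := h
    have hT := cut_union G (S := W) (T := {z}) (by simpa using hz)
    rw [hc, hcz] at hT
    have cb1 : c ≠ b1 := by
      rintro rfl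
      refine mc.bl (W ∪ {z}) (Finset.card_eq_one.2 ⟨b2, ?_⟩)
      rw [hT]; ext x; simp only [Finset.mem_symmDiff, Finset.mem_insert, Finset.mem_singleton]
      grind
    have cb2 : c ≠ b2 := by
      rintro rfl
      refine mc.bl (W ∪ {z}) (Finset.card_eq_one.2 ⟨b1, ?_⟩)
      rw [hT]; ext x; simp only [Finset.mem_symmDiff, Finset.mem_insert, Finset.mem_singleton]
      grind
    have h3 : (cut G (W ∪ {z})).card = 3 := by
      refine Finset.card_eq_three.2 ⟨b1, b2, c, n6, cb1.symm, cb2.symm, ?_⟩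
      rw [hT]; ext x; simp only [Finset.mem_symmDiff, Finset.mem_insert, Finset.mem_singleton]
      grind
    have hi := mc.triv (Or.inl h3) (hW.mono Set.subset_union_left)
    have hvz : v ≠ z := by
      rintro rfl
      rw [hcz] at hd
      have := (Finset.card_le_three : ({a1, a2, c} : Finset E).card ≤ 3)
      omega
    have := Finset.card_le_card (cut_single_subset hi (x := v) (by simp [hv, hvz]))
    rw [cut_compl] at this
    omega

lemma dyad (mc : MCT G) {W X : Set V} {v : V} {a1 a2 b1 b2 c : E} (hv : v ∉ W)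
    (hd : 4 ≤ (cut G {v}).card) (hc : cut G W = {a1, a2, b1, b2, c}) (h5 : (cut G W).card = 5)
    (hXW : Disjoint X W) (x1 : a1 ∈ cut G X) (x2 : a2 ∈ cut G X) (hX : (cut G X).card = 5)
    (o1 : ((C3 G).filter (· ∈ X)).card ≤ 7) (o2 : ((C3 G).filter (fun x => x ∉ X ∧ x ∉ W)).card ≤ 7)
    (o3 : ((C3 G).filter (· ∉ W)).card ≤ 8) (hW : Inner G W)
    (ext1 : ∀ f : E → K, (∀ e, f e ≠ 0) → (∀ x ∉ W, bd G f x = 0) → f a1 = f a2 → False)
    (ext2 : ∀ f : E → K, (∀ e, f e ≠ 0) → (∀ x ∉ W, bd G f x = 0) → f b1 = f b2 → False) :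
    False := by
  obtain ⟨n1, n2, n3, n4, n5, n6, n7, n8, n9, n10⟩ := MC.five_ne (hc ▸ h5)
  rcases mc.toMC0.pole n1 (by simp [hc]) (by simp [hc]) hW with
    ⟨G2, q, hq, hm, hb, -, hf, hcut, p1, hp1, hp⟩ | h
  · have c3 : (cut G2 X).card = 3 := by
      have := hcut X hXW x1 x2
      omega
    have hqX : q ∉ X := Set.disjoint_right.1 hXW hq
    obtain ⟨s, y, -, hs, -⟩ := mem_cut.1 x1
    have hpX := hp1 X hXW x1
    obtain ⟨f1, f10, f11⟩ := off_of_col hs (mc.small ((mu_gmap_le _ _).trans_lt hm) (hb.gmap _)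
      ⟨insert s (insert q ((C3 G).filter (fun x => x ∉ X ∧ x ∉ W))),
      (Finset.card_insert_le _ _).trans (Nat.succ_le_succ ((Finset.card_insert_le _ _).trans
        (by omega))), fun S hS => by
        by_cases t1 : s ∈ S
        · exact ⟨s, by simp, t1⟩
        by_cases t2 : q ∈ S
        · exact ⟨q, by simp, t2⟩
        rw [cut_gmap, hp _ (by simp [col, hqX, t2]) (by simp [col, hpX, t1])] at hS
        obtain ⟨u, u1, u2, u3⟩ := mc.toMC0.tok _ hS
        have u4 : u ∉ X := fun t => t1 (by simpa [col, t] using u2)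
        exact ⟨u, by simp [u1, u3, u4], by simpa [col, u4] using u2⟩⟩)
    obtain ⟨f2, f20, f21⟩ := off_of_col (S := Xᶜ) hqX (mc.small ((mu_gmap_le _ _).trans_lt hm)
      (hb.gmap _) ⟨insert q (insert p1 ((C3 G).filter (· ∈ X))),
      (Finset.card_insert_le _ _).trans (Nat.succ_le_succ ((Finset.card_insert_le _ _).trans
        (by omega))), fun S hS => by
        by_cases t1 : q ∈ S
        · exact ⟨q, by simp, t1⟩
        by_cases t2 : p1 ∈ S
        · exact ⟨p1, by simp, t2⟩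
        rw [cut_gmap, hp _ (by simp [col, hqX, t1]) (by simp [col, hpX, t2])] at hS
        obtain ⟨u, u1, u2, u3⟩ := mc.toMC0.tok _ hS
        have u4 : u ∈ X := by
          by_contra t
          exact t1 (by simpa [col, t] using u2)
        exact ⟨u, by simp [u1, u4], by simpa [col, u4] using u2⟩⟩)
    obtain ⟨f, f0, f1, f2⟩ := hf (glue3 f10 f20 f11 (fun v hv => f21 v (by simpa using hv))
      (Or.inl c3))
    exact ext1 f f0 f1 f2
  · obtain ⟨z, hz, d, d1, d2, hcz⟩ := h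
    have hT := cut_union G (S := W) (T := {z}) (by simpa using hz)
    rw [hc, hcz] at hT
    have db1 : d ≠ b1 := by
      rintro rfl
      refine mc.no2 (W ∪ {z}) (Finset.card_eq_two.2 ⟨b2, c, n10, ?_⟩)
      rw [hT]; ext x; simp only [Finset.mem_symmDiff, Finset.mem_insert, Finset.mem_singleton]
      grind
    have db2 : d ≠ b2 := by
      rintro rfl
      refine mc.no2 (W ∪ {z}) (Finset.card_eq_two.2 ⟨b1, c, n9, ?_⟩)
      rw [hT]; ext x; simp only [Finset.mem_symmDiff, Finset.mem_insert, Finset.mem_singleton]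
      grind
    have dc : d ≠ c := by
      rintro rfl
      refine mc.no2 (W ∪ {z}) (Finset.card_eq_two.2 ⟨b1, b2, n8, ?_⟩)
      rw [hT]; ext x; simp only [Finset.mem_symmDiff, Finset.mem_insert, Finset.mem_singleton]
      grind
    have hT' : cut G (W ∪ {z}) = {b1, b2, c, d} := by
      rw [hT]; ext x; simp only [Finset.mem_symmDiff, Finset.mem_insert, Finset.mem_singleton]
      grind
    have hz3 : (cut G {z}).card = 3 := Finset.card_eq_three.2 ⟨a1, a2, d, n1, d1.symm, d2.symm, hcz⟩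
    have hvz : v ≠ z := by
      rintro rfl
      omega
    refine mc.iso (W := W ∪ {z}) (v := v) (by simp [hv, hvz]) hd hT' ?_ ?_
      (hW.mono Set.subset_union_left) (fun f f0 f1 f2 => ?_)
    · rw [hT', Finset.card_insert_of_notMem (by simp [n8, n9, db1.symm]),
        Finset.card_insert_of_notMem (by simp [n10, db2.symm]), Finset.card_pair dc.symm]
    · refine Nat.le_of_lt_succ (lt_of_lt_of_le ?_ o3)
      refine Finset.card_lt_card ⟨fun x hx => ?_, fun h => ?_⟩
      · simp only [Finset.mem_filter] at hx ⊢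
        exact ⟨hx.1, fun h => hx.2 (Or.inl h)⟩
      · have := h (Finset.mem_filter.2 ⟨mem_C3.2 hz3, hz⟩)
        simp at this
    · obtain ⟨p, q, hp, hq, hpq⟩ : ∃ p q : K, p ≠ 0 ∧ q ≠ 0 ∧ p + (q + f d) = 0 := by
        generalize f d = t; revert t; decide
      let g : E → K := fun e => if e = a1 then p else if e = a2 then q else f e
      refine ext2 g (fun e => ?_) (fun x hx => ?_) (by simp [g, n2.symm, n3.symm, n5.symm, n6.symm, f2])
      · simp only [g]
        split_ifs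
        · exact hp
        · exact hq
        · exact f0 e
      · by_cases hxz : x = z
        · subst hxz
          simp only [bd]
          rw [hcz, Finset.sum_insert (by simp [n1, d1.symm]), Finset.sum_pair d2.symm]
          simpa [g, n1.symm, d1, d2] using hpq
        · rw [← f1 x (by simp [hx, hxz])]
          refine bd_congr_at (fun e he => ?_)
          have key : ∀ a, a ∈ cut G W → a ∈ cut G {z} → e ≠ a := by
            rintro a k1 k2 rfl
            obtain ⟨y, hy, h⟩ := mem_cut_single.1 he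
            rw [mem_cut_of h] at k1 k2
            simp only [Set.mem_singleton_iff, hxz, false_iff, not_not] at k2
            subst k2
            tauto
          simp [g, key a1 (by simp [hc]) (by simp [hcz]), key a2 (by simp [hc]) (by simp [hcz])]

end MCT

end Pool.Agent.MP_e6539c_co.h19

end MrgPart1

-- ======== part 2: formerly Pool.Agent.MP_e6539c_co.h19.TSit
section MrgPart2

/-! Degrees and pentagons in a minimal counterexample for the token bound. -/

namespace Pool.Agent.MP_e6539c_co.h19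

open Finset Classical

set_option linter.unusedSectionVars false

variable {V E : Type} [Fintype V] [Fintype E]

/-- Number of cubic vertices in a class. -/
noncomputable def cN (G : E → Sym2 V) (p : V → Fin 10) (l : Fin 10) : ℕ :=
  ((C3 G).filter (fun x => p x = l)).card

lemma cN_sum (G : E → Sym2 V) (p : V → Fin 10) (T : Finset (Fin 10)) :
    ((C3 G).filter (fun x => p x ∈ T)).card = ∑ l ∈ T, cN G p l := by
  rw [Finset.card_eq_sum_card_fiberwise (f := p) (t := T) (fun x hx => by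
    simpa using (Finset.mem_filter.1 hx).2)]
  refine Finset.sum_congr rfl (fun l hl => ?_)
  simp only [cN, Finset.filter_filter]
  congr 1
  refine Finset.filter_congr (fun x _ => ?_)
  constructor
  · exact fun h => h.2
  · exact fun h => ⟨h ▸ hl, h⟩

namespace Sit

variable {G : E → Sym2 V} {p : V → Fin 10} {a b : E} {i j k : Fin 10}

lemma cN_le (h : Sit G p a b i j k) (mc : MCT G) (T : Finset (Fin 10)) (hi : i ∈ T) (hj : j ∈ T) :
    ∑ l ∈ T, cN G p l + Tᶜ.card ≤ 15 := by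
  have h1 := cN_sum G p univ
  simp only [Finset.mem_univ, Finset.filter_true] at h1
  have h2 := Finset.sum_add_sum_compl T (cN G p)
  have h3 : Tᶜ.card ≤ ∑ l ∈ Tᶜ, cN G p l := by
    rw [Finset.card_eq_sum_ones]
    refine Finset.sum_le_sum (fun l hl => ?_)
    rw [Finset.mem_compl] at hl
    obtain ⟨u, u1, u2⟩ := mc.toMC0.tok (p ⁻¹' {l}) (by
      rw [h.card_cut1, if_neg]
      rintro (rfl | ⟨rfl, -⟩)
      · exact hl hi
      · exact hl hj)
    exact Finset.card_pos.2 ⟨u, Finset.mem_filter.2 ⟨u1, u2⟩⟩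
  have := mc.c3_le
  omega

lemma cN_one (h : Sit G p a b i j k) (mc : MC0 G) {l : Fin 10}
    (hl : ¬ (l = i ∨ (l = j ∧ k = j))) : cN G p l ≤ 1 := by
  obtain ⟨z, -, -, hz⟩ := h.apex mc hl
  refine le_trans (Finset.card_le_card (t := {z}) (fun x hx => ?_)) (by simp)
  simp only [Finset.mem_filter, mem_C3] at hx
  by_contra t
  rw [hz x hx.2 (by simpa using t)] at hx
  simp at hx

lemma iso0T (h : Sit G p a b 0 1 k) (mc : MCT G) {v : V} (hv : p v = 0 ∨ p v = 1)
    (hd : 4 ≤ (cut G {v}).card) : False := by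
  have c4 : (cut G (p ⁻¹' {l : Fin 10 | 2 ≤ l.val})).card = 4 := by
    rw [← cutN_iso k h.ik h.jk, ← h.card_cut]
    simp
  have hc : cut G (p ⁻¹' {l : Fin 10 | 2 ≤ l.val}) = {hE G p a b 1 k 4 0, hE G p a b 1 k 5 0,
      hE G p a b 1 k 2 1, hE G p a b 1 k 6 1} := by
    refine Finset.eq_of_subset_of_card_le (fun e he => ?_) (c4 ▸ Finset.card_le_four)
    obtain ⟨l, m, k1, k2, k3, rfl⟩ := h.cut_outer (t := 2) (by decide) (by decide) he
    rcases outer2 l m k1 k2 k3 with ⟨rfl, rfl⟩ | ⟨rfl, rfl⟩ | ⟨rfl, rfl⟩ | ⟨rfl, rfl⟩ <;> simp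
  have hne := MC.four_ne (hc ▸ c4)
  refine mc.iso (v := v) (by rcases hv with hv | hv <;> simp [hv]) hd hc c4 ?_ ?_
    (fun f f0 f1 f2 => ?_)
  · have h1 := h.cN_le mc {0, 1} (by simp) (by simp)
    rw [← cN_sum] at h1
    have h2 : (({0, 1} : Finset (Fin 10))ᶜ).card = 8 := by decide
    refine le_trans (Finset.card_le_card ?_) (show ((C3 G).filter (fun x => p x ∈
      ({0, 1} : Finset (Fin 10)))).card ≤ 7 by omega)
    intro x hx
    simp only [Finset.mem_filter, Set.mem_preimage, Set.mem_ofPred_eq] at hx ⊢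
    refine ⟨hx.1, ?_⟩
    have := hx.2
    revert this
    generalize p x = l
    revert l; decide
  · rcases h.gmap_hE (l := 3) (m := 4) (by decide) (by decide) (by decide +kernel) with k1 | k1
    · exact h.inner_of k1 (by decide) (by simp) (by simp)
    · exact absurd k1.1 (by decide)
  · have s0 := sum_cut_zero' K2 f1
    rw [hc, Finset.sum_insert (by simp [hne]), Finset.sum_insert (by simp [hne]),
      Finset.sum_pair (by simp [hne]), ← f2] at s0
    have s1 := sum4 _ _ _ s0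
    obtain ⟨n, -, hn⟩ := iso_tab _ _ (f0 (hE G p a b 1 k 4 0)) (f0 (hE G p a b 1 k 2 1))
    refine h.extend mc.toMC0 (t := 2) (by decide) (by decide) f0 f1 (fun l m k1 k2 k3 => ?_) hn
    rcases outer2 l m k1 k2 k3 with ⟨rfl, rfl⟩ | ⟨rfl, rfl⟩ | ⟨rfl, rfl⟩ | ⟨rfl, rfl⟩
    · rfl
    · exact f2.symm
    · rfl
    · exact s1.symm

lemma dyad0T (h : Sit G p a b 0 2 k) (mc : MCT G) (hk : adj 0 k = Bool.false) {v : V}
    (hv : p v = 0 ∨ p v = 2) (hd : 4 ≤ (cut G {v}).card) (h6 : cN G p 2 ≤ 6) : False := by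
  have c5 : (cut G (p ⁻¹' {l : Fin 10 | 3 ≤ l.val})).card = 5 := by
    rw [← cutN_dyad k hk h.jk, ← h.card_cut]
    simp
  have hc : cut G (p ⁻¹' {l : Fin 10 | 3 ≤ l.val}) = {hE G p a b 2 k 4 0, hE G p a b 2 k 5 0,
      hE G p a b 2 k 3 2, hE G p a b 2 k 7 2, hE G p a b 2 k 6 1} := by
    refine Finset.eq_of_subset_of_card_le (fun e he => ?_) (c5 ▸ Finset.card_le_five)
    obtain ⟨l, m, k1, k2, k3, rfl⟩ := h.cut_outer (t := 3) (by decide) (by decide) he
    rcases outer3 l m k1 k2 k3 with ⟨rfl, rfl⟩ | ⟨rfl, rfl⟩ | ⟨rfl, rfl⟩ | ⟨rfl, rfl⟩ |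
      ⟨rfl, rfl⟩ <;> simp
  have hne := MC.five_ne (hc ▸ c5)
  have mX : ∀ l : Fin 10, l ≠ 0 → l ≠ 2 → adj l 0 = true →
      hE G p a b 2 k l 0 ∈ cut G (p ⁻¹' {0}) := fun l l0 l2 hl => by
    rw [← cut_gmap]
    rcases h.gmap_hE l0 l2 hl with k1 | k1
    · simp [mem_cut_of k1, l0]
    · exact absurd k1.1 (by decide)
  have ext : ∀ f : E → K, (∀ e, f e ≠ 0) → (∀ x ∉ p ⁻¹' {l : Fin 10 | 3 ≤ l.val}, bd G f x = 0) →
      (f (hE G p a b 2 k 4 0) = f (hE G p a b 2 k 5 0) ∨
        f (hE G p a b 2 k 3 2) = f (hE G p a b 2 k 7 2)) → False := fun f f0 f1 f2 => by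
    have s0 := sum_cut_zero' K2 f1
    rw [hc, Finset.sum_insert (by simp [hne]), Finset.sum_insert (by simp [hne]),
      Finset.sum_insert (by simp [hne]), Finset.sum_pair (by simp [hne])] at s0
    obtain ⟨n, -, hn⟩ := dy_tab _ _ _ _ _ (f0 _) (f0 _) (f0 _) (f0 _) (f0 _) s0 f2
    refine h.extend mc.toMC0 (t := 3) (by decide) (by decide) f0 f1 (fun l m k1 k2 k3 => ?_) hn
    rcases outer3 l m k1 k2 k3 with ⟨rfl, rfl⟩ | ⟨rfl, rfl⟩ | ⟨rfl, rfl⟩ | ⟨rfl, rfl⟩ |
      ⟨rfl, rfl⟩ <;> rfl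
  refine mc.dyad (X := p ⁻¹' {0}) (v := v) (by rcases hv with hv | hv <;> simp [hv]) hd hc c5
    ?_ (mX 4 (by decide) (by decide) (by decide +kernel))
    (mX 5 (by decide) (by decide) (by decide +kernel)) (by rw [h.card_cut1]; simp) ?_ ?_ ?_ ?_
    (fun f f0 f1 f2 => ext f f0 f1 (Or.inl f2)) (fun f f0 f1 f2 => ext f f0 f1 (Or.inr f2))
  · refine Set.disjoint_left.2 (fun x h1 h2 => ?_)
    simp only [Set.mem_preimage, Set.mem_singleton_iff, Set.mem_ofPred_eq] at h1 h2
    rw [h1] at h2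
    exact absurd h2 (by decide)
  · have h1 := h.cN_le mc {0, 2} (by simp) (by simp)
    rw [Finset.sum_pair (by decide)] at h1
    have h2 : (({0, 2} : Finset (Fin 10))ᶜ).card = 8 := by decide
    refine le_trans (Finset.card_le_card ?_) (show cN G p 0 ≤ 7 by omega)
    intro x hx
    simpa [cN] using hx
  · have h1 := cN_sum G p {1, 2}
    rw [Finset.sum_pair (by decide)] at h1
    have h2 := h.cN_one mc.toMC0 (l := 1) (by simp)
    refine le_trans (Finset.card_le_card ?_) (show ((C3 G).filter (fun x => p x ∈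
      ({1, 2} : Finset (Fin 10)))).card ≤ 7 by omega)
    intro x hx
    simp only [Finset.mem_filter, Set.mem_preimage, Set.mem_ofPred_eq, Set.mem_singleton_iff]
      at hx ⊢
    refine ⟨hx.1, ?_⟩
    have := hx.2
    revert this
    generalize p x = l
    revert l; decide
  · have h1 := h.cN_le mc {0, 1, 2} (by simp) (by simp)
    rw [← cN_sum] at h1
    have h2 : (({0, 1, 2} : Finset (Fin 10))ᶜ).card = 7 := by decide
    refine le_trans (Finset.card_le_card ?_) (show ((C3 G).filter (fun x => p x ∈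
      ({0, 1, 2} : Finset (Fin 10)))).card ≤ 8 by omega)
    intro x hx
    simp only [Finset.mem_filter, Set.mem_preimage, Set.mem_ofPred_eq] at hx ⊢
    refine ⟨hx.1, ?_⟩
    have := hx.2
    revert this
    generalize p x = l
    revert l; decide
  · rcases h.gmap_hE (l := 3) (m := 4) (by decide) (by decide) (by decide +kernel) with k1 | k1
    · exact h.inner_of k1 (by decide) (by simp) (by simp)
    · exact absurd k1.1 (by decide)

lemma isoGT (h : Sit G p a b i j k) (mc : MCT G) (hij : adj i j = true) {v : V}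
    (hv : p v = i ∨ p v = j) (hd : 4 ≤ (cut G {v}).card) : False := by
  obtain ⟨n, hn, n1, n2⟩ := aut_ex i j h.ij
  obtain ⟨s1, s2⟩ := aut_ok n hn
  have h' := h.aut s1 s2
  rw [if_pos hij] at n2
  rw [n1, n2] at h'
  exact h'.iso0T mc (v := v) (by rcases hv with hv | hv <;> simp [hv, n1, n2]) hd

lemma dyadGT (h : Sit G p a b i j k) (mc : MCT G) (hij : adj i j = Bool.false) (hik : adj i k = Bool.false)
    {v : V} (hv : p v = i ∨ p v = j) (hd : 4 ≤ (cut G {v}).card) (h6 : cN G p j ≤ 6) : False := by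
  obtain ⟨n, hn, n1, n2⟩ := aut_ex i j h.ij
  obtain ⟨s1, s2⟩ := aut_ok n hn
  have h' := h.aut s1 s2
  rw [if_neg (by simp [hij])] at n2
  rw [n1, n2] at h'
  refine h'.dyad0T mc (v := v) (by rw [← n1, s2, hik])
    (by rcases hv with hv | hv <;> simp [hv, n1, n2]) hd ?_
  refine le_trans (Finset.card_le_card (fun x hx => ?_)) h6
  simp only [Finset.mem_filter, Function.comp] at hx ⊢
  exact ⟨hx.1, s1 _ _ (hx.2.trans n2.symm)⟩

lemma falseT (h : Sit G p a b i j k) (mc : MCT G) {v : V} (hv : p v = i)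
    (hd : 4 ≤ (cut G {v}).card) : False := by
  by_cases hij : adj i j = true
  · exact h.isoGT mc hij (Or.inl hv) hd
  by_cases hik : adj i k = true
  · exact h.swap1.isoGT mc hik (Or.inl hv) hd
  rw [Bool.not_eq_true] at hij hik
  by_cases h6 : cN G p j ≤ 6
  · exact h.dyadGT mc hij hik (Or.inl hv) hd h6
  have hkj : k = j := by
    by_contra t
    have := h.cN_one mc.toMC0 (l := j) (by simp [t, h.ij.symm])
    omega
  subst hkj
  have h1 := h.cN_le mc {i, k} (by simp) (by simp)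
  rw [Finset.sum_pair h.ij, Finset.card_compl, Finset.card_pair h.ij] at h1
  have hki : adj k i = Bool.false := by rw [adj_symm]; exact hij
  exact h.swap2.dyadGT mc hki hki (Or.inr hv) hd (by simp at h1; omega)

end Sit

namespace MCT

variable {G : E → Sym2 V}

lemma split_false (mc : MCT G) {v u w : V} {a b : E} (hd : 4 ≤ (cut G {v}).card) (hab : a ≠ b)
    (ea : G a = s(v, u)) (eb : G b = s(v, w))
    (h : HasFlow (split G a b v u w) ∨ QP (split G a b v u w)) : False := by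
  rcases h with h | h
  · obtain ⟨f, f0, f1, -⟩ := flow_split hab ea eb h
    exact mc.nf ⟨f, f0, f1⟩
  · obtain ⟨p, hp⟩ := sit_of_split mc.nq hab ea eb h
    exact hp.falseT mc rfl hd

lemma deg5 (mc : MCT G) {v : V} (hd : 4 ≤ (cut G {v}).card) :
    (cut G {v}).card = 5 ∧ (C3 G).card = 15 := by
  obtain ⟨a, ha, b, hb, hab⟩ := Finset.one_lt_card.1 (show 1 < (cut G {v}).card by omega)
  obtain ⟨u, hu, ea⟩ := mem_cut_single.1 ha
  obtain ⟨w, hw, eb⟩ := mem_cut_single.1 hb
  by_contra hc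
  refine mc.split_false hd hab ea eb (mc.ih _ (mu_split ea eb hu hw)
    (mc.toMC0.bl_split hd hab ea eb hu hw) ?_)
  have h15 := mc.c3_le
  by_cases h5 : (cut G {v}).card = 5
  · refine ⟨insert v (C3 G), (Finset.card_insert_le _ _).trans (by omega), fun S hS => ?_⟩
    rcases mc.toMC0.tok_split hab ea eb hu hw hS with ⟨x, x1, x2⟩ | t
    · exact ⟨x, Finset.mem_insert_of_mem x1, x2⟩
    · exact ⟨v, Finset.mem_insert_self _ _, t.1⟩
  · exact ⟨C3 G, h15, fun S hS =>
      (mc.toMC0.tok_split hab ea eb hu hw hS).resolve_right (fun t => h5 t.2)⟩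

lemma pentagon (mc : MCT G) {v u p q w y : V} {a b c d e : E} (hd : 4 ≤ (cut G {v}).card)
    (ea : G a = s(v, u)) (eb : G b = s(v, w)) (ec : G c = s(w, q)) (ed : G d = s(q, p))
    (ee : G e = s(p, u)) (hu : u ≠ v) (hw : w ≠ v) (hp : p ≠ v) (hq : q ≠ v) (uw : u ≠ w)
    (uq : u ≠ q) (up : u ≠ p) (wq : w ≠ q) (wp : w ≠ p) (qp : q ≠ p)
    (hy : y ∈ ({u, w, q, p} : Set V)) (hy3 : y ∈ C3 G) : False := by
  have hab : a ≠ b := by
    rintro rfl; rw [ea] at eb; simp at eb; tauto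
  have na : ∀ {g : E} {s t : V}, G g = s(s, t) → s ≠ v → t ≠ v → split G a b v u w g = s(s, t) := by
    intro g s t hg hs ht
    rw [split_o, hg]
    · rintro rfl; rw [ea] at hg; simp at hg; tauto
    · rintro rfl; rw [eb] at hg; simp at hg; tauto
  refine mc.split_false hd hab ea eb ?_
  have huC : u ∈ ({u, w, q, p} : Set V) := by simp
  refine (mc.ih (gmap (split G a b v u w) (col {u, w, q, p} u))
    ((mu_gmap_le _ _).trans_lt (mu_split ea eb hu hw))
    ((mc.toMC0.bl_split hd hab ea eb hu hw).gmap _) ?_).imp (fun h => ?_) (fun h => h.of_gmap)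
  swap
  · obtain ⟨f, f0, f1⟩ := off_of_col huC h
    exact square_off (split_a hab) (na ec hw hq) (na ed hq hp) (na ee hp hu) uw uq up wq wp
      qp f0 f1
  refine ⟨(insert v ((C3 G).erase y)).image (col {u, w, q, p} u), Finset.card_image_le.trans
    ((Finset.card_insert_le _ _).trans ?_), fun S hS => ?_⟩
  · rw [Finset.card_erase_add_one hy3]
    exact mc.c3_le
  rw [cut_gmap] at hS
  suffices ∃ x ∈ insert v ((C3 G).erase y), x ∈ col {u, w, q, p} u ⁻¹' S by
    obtain ⟨x, x1, x2⟩ := this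
    exact ⟨_, Finset.mem_image_of_mem _ x1, x2⟩
  by_cases hv : v ∈ col {u, w, q, p} u ⁻¹' S
  · exact ⟨v, Finset.mem_insert_self _ _, hv⟩
  by_cases huS : u ∈ S
  · have hC : ∀ x ∈ ({u, w, q, p} : Set V), x ∈ col {u, w, q, p} u ⁻¹' S := fun x hx => by
      simpa only [Set.mem_preimage, col, if_pos hx] using huS
    have h1 := cut_split_both hab ea eb hv (hC u huC) (hC w (by simp))
    have nu : cut G {u} ≠ ∅ := Finset.ne_empty_of_mem (a := a) (by simp [mem_cut_of ea, hu.symm])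
    have nw' : cut G {w} ≠ ∅ := Finset.ne_empty_of_mem (a := b) (by simp [mem_cut_of eb, hw.symm])
    have h2 := mc.toMC0.count (hC u huC) (hC w (by simp)) uw nu nw'
    by_contra hno
    have h3 : (C3 G).filter (· ∈ col {u, w, q, p} u ⁻¹' S) ⊆ {y} := by
      intro x hx
      rw [Finset.mem_filter] at hx
      by_contra t
      exact hno ⟨x, Finset.mem_insert_of_mem (Finset.mem_erase.2 ⟨by simpa using t, hx.1⟩), hx.2⟩
    have h4 := Finset.card_le_card h3
    have key : ∀ x ∈ ({u, w, q, p} : Set V), cut G {x} ≠ ∅ → x = y := by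
      intro x hx nx
      by_cases t : x ∈ C3 G
      · simpa using h3 (Finset.mem_filter.2 ⟨t, hC x hx⟩)
      · have a0 : (cut G {x}).card ≠ 0 := by simpa using nx
        have a1 := mc.bl {x}
        have a2 := mc.toMC0.no2 {x}
        rw [mem_C3] at t
        have a3 := (mc.deg5 (v := x) (by omega)).1
        have : 0 < ((C5 G).filter (· ∈ col {u, w, q, p} u ⁻¹' S)).card :=
          Finset.card_pos.2 ⟨x, Finset.mem_filter.2 ⟨mem_C5.2 a3.ge, hC x hx⟩⟩
        simp only [Finset.card_singleton] at h4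
        omega
    exact uw ((key u huC nu).trans (key w (by simp) nw').symm)
  · rcases mc.toMC0.tok_split hab ea eb hu hw hS with ⟨x, x1, x2⟩ | t
    · refine ⟨x, Finset.mem_insert_of_mem (Finset.mem_erase.2 ⟨?_, x1⟩), x2⟩
      rintro rfl
      exact huS (by simpa only [Set.mem_preimage, col, if_pos hy] using x2)
    · exact absurd t.1 hv

end MCT

end Pool.Agent.MP_e6539c_co.h19

end MrgPart2

-- ======== part 3: formerly Pool.Agent.MP_e6539c_co.h19.Count
section MrgPart3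

/-! A counting argument for graphs of girth five with degrees three and five. -/

namespace Pool.Agent.MP_e6539c_co.h19

open Finset

/-- The hypotheses of the counting argument, for a neighbourhood map `N`. -/
structure Cnt {V : Type} [DecidableEq V] (N : V → Finset V) (A B : Finset V) : Prop where
  sym : ∀ {x y}, x ∈ N y → y ∈ N x
  irr : ∀ x, x ∉ N x
  tri : ∀ {x y z}, x ∈ N y → y ∈ N z → z ∈ N x → False
  sq : ∀ {v y y' z}, y ∈ N v → y' ∈ N v → z ∈ N y → z ∈ N y' → y ≠ y' → z ≠ v → False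
  cA : ∀ x ∈ A, (N x).card = 3
  cB : ∀ x ∈ B, (N x).card = 5
  cov : ∀ {x y}, x ∈ N y → x ∈ A ∨ x ∈ B
  pent : ∀ {v x y y' z}, v ∈ B → x ∈ A → x ∈ N v → y ∈ N x → y' ∈ N v → z ∈ N y → z ∈ N y' →
    y ≠ v → y' ≠ x → z ≠ x → z ≠ v → False
  hA : A.card ≤ 15
  hB : B.card ≤ 9

namespace Cnt

variable {V : Type} [DecidableEq V] {N : V → Finset V} {A B : Finset V}

lemma nb (h : Cnt N A B) {x : V} (hx : x ∈ A) : x ∉ B := fun t => by
  have := h.cA x hx
  have := h.cB x t
  omega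

lemma ball (h : Cnt N A B) (v : V) (T : Finset V) :
    ∑ y ∈ N v, ((N y ∩ T).erase v).card ≤ ((T.erase v) \ N v).card := by
  rw [← Finset.card_biUnion]
  · refine Finset.card_le_card (fun z hz => ?_)
    simp only [Finset.mem_biUnion, Finset.mem_erase, Finset.mem_inter, Finset.mem_sdiff] at hz ⊢
    obtain ⟨y, hy, z1, z2, z3⟩ := hz
    exact ⟨⟨z1, z3⟩, fun t => h.tri z2 hy (h.sym t)⟩
  · intro y hy y' hy' hne
    simp only [Function.onFun, Finset.disjoint_left, Finset.mem_erase, Finset.mem_inter]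
    rintro z ⟨z1, z2, -⟩ ⟨-, z3, -⟩
    exact h.sq hy hy' z2 z3 hne z1

lemma sum_deg (h : Cnt N A B) (x : V) :
    ∑ y ∈ N x, (N y).card = 3 * (N x).card + 2 * (N x ∩ B).card := by
  rw [← Finset.filter_mem_eq_inter, Finset.card_filter, Finset.card_eq_sum_ones, Finset.mul_sum,
    Finset.mul_sum, ← Finset.sum_add_distrib]
  refine Finset.sum_congr rfl (fun y hy => ?_)
  rcases h.cov hy with t | t
  · simp [h.cA y t, h.nb t]
  · simp [h.cB y t, t]

lemma edge (h : Cnt N A B) {v x : V} (hv : v ∈ B) (hx : x ∈ A) (hxv : x ∈ N v) :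
    18 + 2 * ((N x ∩ B).card + (N v ∩ B).card) ≤ A.card + B.card := by
  have hvx := h.sym hxv
  have ne : x ≠ v := fun t => h.irr v (t ▸ hxv)
  have dj : Disjoint (N x) (N v) := Finset.disjoint_left.2 (fun y h1 h2 => h.tri h1 hxv (h.sym h2))
  have h1 : ∑ y ∈ N x ∪ N v, (((N y).erase x).erase v).card ≤ (((A ∪ B).erase x).erase v).card := by
    rw [← Finset.card_biUnion]
    · refine Finset.card_le_card (fun z hz => ?_)
      simp only [Finset.mem_biUnion, Finset.mem_erase, Finset.mem_union] at hz ⊢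
      obtain ⟨y, -, z1, z2, z3⟩ := hz
      exact ⟨z1, z2, h.cov z3⟩
    · have mix : ∀ y y' z, y ∈ N x → y' ∈ N v → z ∈ N y → z ∈ N y' → z ≠ x → z ≠ v → False := by
        intro y y' z hy hy' z1 z2 z3 z4
        by_cases t1 : y = v
        · subst t1; exact h.tri z2 hy' (h.sym z1)
        by_cases t2 : y' = x
        · subst t2; exact h.tri z1 hy (h.sym z2)
        exact h.pent hv hx hxv hy hy' z1 z2 t1 t2 z3 z4
      intro y hy y' hy' hne
      simp only [Function.onFun, Finset.disjoint_left, Finset.mem_erase]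
      rintro z ⟨z1, z2, z3⟩ ⟨-, -, z4⟩
      rcases Finset.mem_union.1 hy with hy | hy <;> rcases Finset.mem_union.1 hy' with hy' | hy'
      · exact h.sq hy hy' z3 z4 hne z2
      · exact mix y y' z hy hy' z3 z4 z2 z1
      · exact mix y' y z hy' hy z4 z3 z2 z1
      · exact h.sq hy hy' z3 z4 hne z1
  have h2 : ∑ y ∈ N x, ((((N y).erase x).erase v).card + 1) = ∑ y ∈ N x, (N y).card := by
    refine Finset.sum_congr rfl (fun y hy => ?_)
    rw [Finset.erase_eq_of_notMem, Finset.card_erase_add_one (h.sym hy)]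
    exact fun t => h.tri hy hxv (Finset.mem_of_mem_erase t)
  have h3 : ∑ y ∈ N v, ((((N y).erase x).erase v).card + 1) = ∑ y ∈ N v, (N y).card := by
    refine Finset.sum_congr rfl (fun y hy => ?_)
    rw [Finset.erase_eq_of_notMem (a := x), Finset.card_erase_add_one (h.sym hy)]
    exact fun t => h.tri t hy hvx
  rw [h.sum_deg, Finset.sum_add_distrib, Finset.sum_const] at h2 h3
  rw [Finset.sum_union dj] at h1
  have h4 := Finset.card_erase_add_one (s := A ∪ B) (a := x) (by simp [hx])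
  have h5 := Finset.card_erase_add_one (s := (A ∪ B).erase x) (a := v) (by simp [hv, ne.symm])
  have h6 := Finset.card_union_le A B
  rw [h.cA x hx] at h2
  rw [h.cB v hv] at h3
  simp only [smul_eq_mul] at h2 h3
  omega

lemma empty (h : Cnt N A B) : B = ∅ := by
  by_contra hne
  have hA := h.hA
  have hB := h.hB
  let d : V → ℕ := fun x => (N x ∩ B).card
  have up : ∑ v ∈ B, ∑ x ∈ N v ∩ A, 6 / d x ≤ 90 := by
    rw [Finset.sum_comm' (t' := A) (s' := fun x => N x ∩ B) (fun v x => by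
      simp only [Finset.mem_inter]
      exact ⟨fun t => ⟨⟨h.sym t.2.1, t.1⟩, t.2.2⟩, fun t => ⟨t.1.2, h.sym t.1.1, t.2⟩⟩)]
    refine le_trans (Finset.sum_le_card_nsmul _ _ 6 (fun x _ => ?_)) (by simp; omega)
    rw [Finset.sum_const, smul_eq_mul]
    exact Nat.mul_div_le 6 _
  have key : ∀ v ∈ B, 91 ≤ B.card * ∑ x ∈ N v ∩ A, 6 / d x := by
    intro v hv
    have c5 := h.cB v hv
    have s5 : (N v ∩ A).card + d v = 5 := by
      rw [← c5, ← Finset.card_union_of_disjoint]
      · congr 1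
        ext y
        simp only [Finset.mem_union, Finset.mem_inter]
        have := @h.cov y v
        tauto
      · exact Finset.disjoint_left.2 (fun y h1 h2 =>
          h.nb (Finset.mem_inter.1 h1).2 (Finset.mem_inter.1 h2).2)
    have d1 : ∀ x ∈ N v, 1 ≤ d x := fun x hx =>
      Finset.card_pos.2 ⟨v, Finset.mem_inter.2 ⟨h.sym hx, hv⟩⟩
    have ed : ∀ x ∈ N v ∩ A, 1 ≤ d x ∧ 18 + 2 * (d x + d v) ≤ A.card + B.card := fun x hx =>
      ⟨d1 x (Finset.mem_inter.1 hx).1,
        h.edge hv (Finset.mem_inter.1 hx).2 (Finset.mem_inter.1 hx).1⟩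
    obtain ⟨x0, hx0⟩ : (N v ∩ A).Nonempty := by
      rw [← Finset.card_pos]
      by_contra t
      have b1 := h.ball v (A ∪ B)
      have b2 : ∑ y ∈ N v, (((N y ∩ (A ∪ B)).erase v).card + 1) = ∑ y ∈ N v, (N y).card := by
        refine Finset.sum_congr rfl (fun y hy => ?_)
        rw [Finset.inter_eq_left.2 (fun z hz => Finset.mem_union.2 (h.cov hz)),
          Finset.card_erase_add_one (h.sym hy)]
      rw [h.sum_deg, Finset.sum_add_distrib, Finset.sum_const, c5] at b2
      rw [Finset.card_sdiff_of_subset (fun z hz => Finset.mem_erase.2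
        ⟨fun t : z = v => h.irr v (by rwa [t] at hz), Finset.mem_union.2 (h.cov hz)⟩), c5] at b1
      have b3 := Finset.card_erase_le (s := A ∪ B) (a := v)
      have b4 := Finset.card_union_le A B
      simp only [smul_eq_mul, d] at b2 s5
      omega
    have e0 := ed x0 hx0
    have H1 : (∀ x ∈ N v ∩ A, d x ≤ 1) → (N v ∩ A).card * 6 ≤ ∑ x ∈ N v ∩ A, 6 / d x := fun t =>
      Finset.card_nsmul_le_sum _ _ 6 (fun x hx => by
        have := t x hx
        have := (ed x hx).1
        rw [show d x = 1 by omega])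
    have H2 : (∀ x ∈ N v ∩ A, d x ≤ 2) → (N v ∩ A).card * 3 ≤ ∑ x ∈ N v ∩ A, 6 / d x := fun t =>
      Finset.card_nsmul_le_sum _ _ 3 (fun x hx => by
        have := t x hx
        have := (ed x hx).1
        interval_cases d x <;> norm_num)
    by_cases m1 : ∀ x ∈ N v ∩ A, d x ≤ 1
    · have := H1 m1
      generalize ∑ x ∈ N v ∩ A, 6 / d x = w at this ⊢
      have t5 : 5 ≤ B.card := by omega
      generalize B.card = t at *
      interval_cases t <;> omega
    push Not at m1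
    obtain ⟨x1, hx1, m1⟩ := m1
    have e1 := ed x1 hx1
    by_cases m2 : ∀ x ∈ N v ∩ A, d x ≤ 2
    · have := H2 m2
      generalize ∑ x ∈ N v ∩ A, 6 / d x = w at this ⊢
      have t5 : 7 ≤ B.card := by omega
      generalize B.card = t at *
      interval_cases t <;> omega
    push Not at m2
    obtain ⟨x2, hx2, m2⟩ := m2
    have e2 := ed x2 hx2
    have eq : N v ∩ A = N v := Finset.eq_of_subset_of_card_le Finset.inter_subset_left (by omega)
    rw [eq] at ed ⊢
    have b1 := h.ball v B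
    have b2 : ∑ y ∈ N v, (((N y ∩ B).erase v).card + 1) = ∑ y ∈ N v, d y :=
      Finset.sum_congr rfl (fun y hy =>
        Finset.card_erase_add_one (Finset.mem_inter.2 ⟨h.sym hy, hv⟩))
    have b3 := Finset.card_le_card (Finset.sdiff_subset (s := B.erase v) (t := N v))
    have b4 := Finset.card_erase_add_one hv
    have b5 : (N v).card • 5 ≤ ∑ x ∈ N v, (6 / d x + d x) :=
      Finset.card_nsmul_le_sum _ _ 5 (fun x hx => by
        have t1 := ed x hx
        have t2 : d x ≤ 3 := by omega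
        have t3 := t1.1
        interval_cases d x <;> norm_num)
    rw [Finset.sum_add_distrib, Finset.sum_const, c5] at b2
    rw [Finset.sum_add_distrib, c5] at b5
    simp only [smul_eq_mul] at b2 b5
    rw [show B.card = 9 by omega]
    omega
  have h1 := Finset.card_nsmul_le_sum _ _ 91 key
  rw [← Finset.mul_sum, smul_eq_mul] at h1
  have h2 := Nat.le_of_mul_le_mul_left h1 (Finset.card_pos.2 (Finset.nonempty_iff_ne_empty.2 hne))
  omega

end Cnt

end Pool.Agent.MP_e6539c_co.h19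

end MrgPart3

-- ======== part 4: formerly Pool.Agent.MP_e6539c_co.h19.TMain
section MrgPart4

/-! There is no minimal counterexample with at most fifteen disjoint sides of 3-cuts. -/

namespace Pool.Agent.MP_e6539c_co.h19

open Finset Classical

set_option linter.unusedSectionVars false

variable {V E : Type} [Fintype V] [Fintype E]

/-- Neighbours of a vertex. -/
noncomputable def Nb (G : E → Sym2 V) (v : V) : Finset V :=
  univ.filter (fun y => y ≠ v ∧ ∃ e, G e = s(v, y))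

lemma mem_Nb {G : E → Sym2 V} {v y : V} : y ∈ Nb G v ↔ y ≠ v ∧ ∃ e, G e = s(v, y) := by simp [Nb]

lemma MC0.card_Nb {G : E → Sym2 V} (mc : MC0 G) (v : V) : (Nb G v).card = (cut G {v}).card := by
  symm
  refine Finset.card_bij (fun e he => (mem_cut_single.1 he).choose) (fun e he => ?_)
    (fun e he e' he' h => ?_) (fun y hy => ?_)
  · exact mem_Nb.2 ⟨(mem_cut_single.1 he).choose_spec.1, e, (mem_cut_single.1 he).choose_spec.2⟩
  · have h1 := (mem_cut_single.1 he).choose_spec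
    have h2 := (mem_cut_single.1 he').choose_spec
    exact mc.digon h1.2 (h2.2.trans (congrArg (fun t => s(v, t)) h.symm)) h1.1.symm
  · obtain ⟨h1, e, h2⟩ := mem_Nb.1 hy
    have he : e ∈ cut G {v} := mem_cut_single.2 ⟨y, h1, h2⟩
    refine ⟨e, he, ?_⟩
    have h3 := (mem_cut_single.1 he).choose_spec.2
    exact Sym2.congr_right.1 (h3.symm.trans h2)

lemma MCT.false {G : E → Sym2 V} (mc : MCT G) : False := by
  have m0 := mc.toMC0
  have sw : ∀ {e : E} {x y : V}, G e = s(x, y) → G e = s(y, x) := fun h => h.trans Sym2.eq_swap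
  have tri : ∀ {x y z}, x ∈ Nb G y → y ∈ Nb G z → z ∈ Nb G x → False := by
    intro x y z h1 h2 h3
    obtain ⟨n1, e1, g1⟩ := mem_Nb.1 h1
    obtain ⟨n2, e2, g2⟩ := mem_Nb.1 h2
    obtain ⟨n3, e3, g3⟩ := mem_Nb.1 h3
    exact m0.triangle g1 g3 g2 n1.symm n3.symm n2.symm
  have sym : ∀ {x y}, x ∈ Nb G y → y ∈ Nb G x := fun h => by
    obtain ⟨n1, e1, g1⟩ := mem_Nb.1 h
    exact mem_Nb.2 ⟨n1.symm, e1, sw g1⟩
  have C : Cnt (Nb G) (C3 G) (C5 G) := by
    refine ⟨sym, fun x h => (mem_Nb.1 h).1 rfl, tri, ?_, fun x hx => ?_, fun x hx => ?_, ?_, ?_,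
      mc.c3_le, ?_⟩
    · intro v y y' z h1 h2 h3 h4 h5 h6
      obtain ⟨n1, e1, g1⟩ := mem_Nb.1 h1
      obtain ⟨n2, e2, g2⟩ := mem_Nb.1 h2
      obtain ⟨n3, e3, g3⟩ := mem_Nb.1 h3
      obtain ⟨n4, e4, g4⟩ := mem_Nb.1 h4
      exact m0.square g1 g3 (sw g4) (sw g2) n1.symm h6.symm n2.symm n3.symm h5 n4
    · rw [m0.card_Nb, mem_C3.1 hx]
    · rw [m0.card_Nb, (mc.deg5 (by have := mem_C5.1 hx; omega)).1]
    · intro x y h
      have a0 := Finset.card_pos.2 ⟨y, sym h⟩
      rw [m0.card_Nb] at a0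
      have a1 := mc.bl {x}
      have a2 := m0.no2 {x}
      have a3 := @MCT.deg5 _ _ _ _ _ mc x
      rw [mem_C3, mem_C5]
      omega
    · intro v x y y' z hv hx h1 h2 h3 h4 h5 k1 k2 k3 k4
      have k5 : y' ≠ y := by
        rintro rfl
        exact tri h2 h1 (sym h3)
      obtain ⟨n1, e1, g1⟩ := mem_Nb.1 h1
      obtain ⟨n2, e2, g2⟩ := mem_Nb.1 h2
      obtain ⟨n3, e3, g3⟩ := mem_Nb.1 h3
      obtain ⟨n4, e4, g4⟩ := mem_Nb.1 h4
      obtain ⟨n5, e5, g5⟩ := mem_Nb.1 h5
      exact mc.pentagon (y := x) (by have := mem_C5.1 hv; omega) g1 g3 g5 (sw g4) (sw g2) n1 n3 k1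
        k4 k2.symm k3.symm n2.symm n5.symm k5 n4 (by simp) hx
    · rcases (C5 G).eq_empty_or_nonempty with t | ⟨v, hv⟩
      · simp [t]
      · obtain ⟨e, he⟩ := Finset.card_pos.1 (show 0 < (cut G {v}).card by
          have := mem_C5.1 hv; omega)
        obtain ⟨y, hy, h⟩ := mem_cut_single.1 he
        have h1 := m0.count (S := Set.univ) (x := v) (y := y) trivial trivial hy.symm
          (Finset.ne_empty_of_mem he) (Finset.ne_empty_of_mem (a := e) (by
            simp [mem_cut_of h, hy.symm]))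
        have h2 : cut G Set.univ = ∅ := by rw [← cut_compl, Set.compl_univ, cut_empty]
        have h3 := mc.c3_le
        simp only [Set.mem_univ, Finset.filter_true, h2, Finset.card_empty] at h1
        omega
  have dg : ∀ v, (cut G {v}).card ≤ 3 := fun v => by
    by_contra t
    have : v ∈ C5 G := mem_C5.2 (mc.deg5 (by omega)).1.ge
    simp [C.empty] at this
  refine m0.cubic (le_trans (Finset.card_le_card (fun v hv => ?_)) (mc.c3_le.trans (by norm_num))) dg
  obtain ⟨k, hk⟩ := mem_Od.1 hv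
  have := dg v
  have := mc.bl {v}
  rw [mem_C3]
  omega

theorem flow_or_petersen_tok (G : E → Sym2 V) (hb : Bl G) (ht : TB G 15) : HasFlow G ∨ QP G := by
  induction hn : mu G using Nat.strong_induction_on generalizing G with
  | _ n ih =>
    by_contra h
    rw [not_or] at h
    exact MCT.false (MCT.of hb ht h.1 h.2 (fun G' hm hb' ht' => ih _ (hn ▸ hm) G' hb' ht' rfl))

/-- No sixteen pairwise disjoint vertex sets with pairwise different cuts of size three. -/
def Pack (G : E → Sym2 V) : Prop :=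
  ¬ ∃ S : Fin 16 → Set V, (∀ i, (cut G (S i)).card = 3) ∧
    ∀ i j, i ≠ j → Disjoint (S i) (S j) ∧ cut G (S i) ≠ cut G (S j)

theorem flow_or_petersen_pack (G : E → Sym2 V) (hb : Bl G) (hp : Pack G) : HasFlow G ∨ QP G := by
  induction hn : mu G using Nat.strong_induction_on generalizing G with
  | _ n ih =>
    by_contra h
    have h' := not_or.1 h
    have m0 : MC0 G := by
      refine ⟨hb, h'.1, h'.2, fun {S} hS => ?_⟩
      obtain ⟨e, x, y, he, hxy, hx, hy⟩ := id hS
      rcases ih _ (hn ▸ mu_col_lt x hS) _ (hb.gmap _) (fun ⟨T, t1, t2⟩ => hp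
        ⟨fun i => col S x ⁻¹' T i, fun i => by rw [← cut_gmap, t1], fun i j hij =>
          ⟨(t2 i j hij).1.preimage _, by rw [← cut_gmap, ← cut_gmap]; exact (t2 i j hij).2⟩⟩)
        rfl with h1 | h1
      · exact off_of_col hx h1
      · exact absurd h1.of_gmap h'.2
    refine h (flow_or_petersen_tok G hb ⟨C3 G, ?_, m0.tok⟩)
    by_contra t
    obtain ⟨T, hT, c⟩ := Finset.exists_subset_card_eq (s := C3 G) (n := 16) (by omega)
    let φ : Fin 16 → V := fun i => (T.equivFinOfCardEq c).symm i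
    have φ1 : ∀ i, φ i ∈ C3 G := fun i => hT ((T.equivFinOfCardEq c).symm i).2
    have φ2 : ∀ i j, i ≠ j → φ i ≠ φ j := fun i j hij t =>
      hij ((T.equivFinOfCardEq c).symm.injective (Subtype.ext t))
    refine hp ⟨fun i => {φ i}, fun i => mem_C3.1 (φ1 i), fun i j hij =>
      ⟨by simpa using φ2 i j hij, fun t => ?_⟩⟩
    obtain ⟨a, ha, b, hb', hab⟩ := Finset.one_lt_card.1
      (show 1 < (cut G {φ i}).card by rw [mem_C3.1 (φ1 i)]; norm_num)
    have k : ∀ e ∈ cut G {φ i}, G e = s(φ i, φ j) := fun e he => by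
      obtain ⟨y, hy, h⟩ := mem_cut_single.1 he
      rw [t, mem_cut_of h] at he
      simp only [Set.mem_singleton_iff, φ2 i j hij, false_iff, not_not] at he
      rw [h, he]
    exact hab (m0.digon (k a ha) (k b hb') (φ2 i j hij))

end Pool.Agent.MP_e6539c_co.h19

end MrgPart4

-- ======== part 5: formerly Pool.Agent.MP_e6539c_co.h19.Example
section MrgPart5

/-! Two Petersen graphs glued along an edge. -/

namespace Pool.Agent.MP_e6539c_co.h19

/-- One if the bits differ. -/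
def X (a b : Bool) : ℕ := cond (xor a b) 1 0

set_option synthInstance.maxSize 100000 in
set_option maxRecDepth 100000 in
lemma dfs : ∀ b0 : Bool,
    ∀ b1 : Bool, X b0 b1 ≤ 3 →
    ∀ b4 : Bool, X b0 b1 + X b0 b4 ≤ 3 →
    ∀ b5 : Bool, X b0 b1 + X b0 b4 + X b0 b5 ≤ 3 →
    ∀ b2 : Bool, X b0 b1 + X b0 b4 + X b0 b5 + X b1 b2 ≤ 3 →
    ∀ b6 : Bool, X b0 b1 + X b0 b4 + X b0 b5 + X b1 b2 + X b1 b6 ≤ 3 →
    ∀ b3 : Bool, X b0 b1 + X b0 b4 + X b0 b5 + X b1 b2 + X b1 b6 + X b2 b3 + X b3 b4 ≤ 3 →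
    ∀ b7 : Bool, X b0 b1 + X b0 b4 + X b0 b5 + X b1 b2 + X b1 b6 + X b2 b3 + X b3 b4 + X b2 b7 + X b5 b7 ≤ 3 →
    ∀ b8 : Bool, X b0 b1 + X b0 b4 + X b0 b5 + X b1 b2 + X b1 b6 + X b2 b3 + X b3 b4 + X b2 b7 + X b5 b7 + X b3 b8 + X b5 b8 + X b6 b8 ≤ 3 →
    ∀ b9 : Bool, X b0 b1 + X b0 b4 + X b0 b5 + X b1 b2 + X b1 b6 + X b2 b3 + X b3 b4 + X b2 b7 + X b5 b7 + X b3 b8 + X b5 b8 + X b6 b8 + X b4 b9 + X b6 b9 + X b7 b9 ≤ 3 →
    ∀ b12 : Bool, X b0 b1 + X b0 b4 + X b0 b5 + X b1 b2 + X b1 b6 + X b2 b3 + X b3 b4 + X b2 b7 + X b5 b7 + X b3 b8 + X b5 b8 + X b6 b8 + X b4 b9 + X b6 b9 + X b7 b9 + X b0 b12 ≤ 3 →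
    ∀ b13 : Bool, X b0 b1 + X b0 b4 + X b0 b5 + X b1 b2 + X b1 b6 + X b2 b3 + X b3 b4 + X b2 b7 + X b5 b7 + X b3 b8 + X b5 b8 + X b6 b8 + X b4 b9 + X b6 b9 + X b7 b9 + X b0 b12 + X b0 b13 ≤ 3 →
    ∀ b10 : Bool, X b0 b1 + X b0 b4 + X b0 b5 + X b1 b2 + X b1 b6 + X b2 b3 + X b3 b4 + X b2 b7 + X b5 b7 + X b3 b8 + X b5 b8 + X b6 b8 + X b4 b9 + X b6 b9 + X b7 b9 + X b0 b12 + X b0 b13 + X b1 b10 ≤ 3 →
    ∀ b14 : Bool, X b0 b1 + X b0 b4 + X b0 b5 + X b1 b2 + X b1 b6 + X b2 b3 + X b3 b4 + X b2 b7 + X b5 b7 + X b3 b8 + X b5 b8 + X b6 b8 + X b4 b9 + X b6 b9 + X b7 b9 + X b0 b12 + X b0 b13 + X b1 b10 + X b1 b14 ≤ 3 →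
    ∀ b11 : Bool, X b0 b1 + X b0 b4 + X b0 b5 + X b1 b2 + X b1 b6 + X b2 b3 + X b3 b4 + X b2 b7 + X b5 b7 + X b3 b8 + X b5 b8 + X b6 b8 + X b4 b9 + X b6 b9 + X b7 b9 + X b0 b12 + X b0 b13 + X b1 b10 + X b1 b14 + X b10 b11 + X b11 b12 ≤ 3 →
    ∀ b15 : Bool, X b0 b1 + X b0 b4 + X b0 b5 + X b1 b2 + X b1 b6 + X b2 b3 + X b3 b4 + X b2 b7 + X b5 b7 + X b3 b8 + X b5 b8 + X b6 b8 + X b4 b9 + X b6 b9 + X b7 b9 + X b0 b12 + X b0 b13 + X b1 b10 + X b1 b14 + X b10 b11 + X b11 b12 + X b10 b15 + X b13 b15 ≤ 3 →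
    ∀ b16 : Bool, X b0 b1 + X b0 b4 + X b0 b5 + X b1 b2 + X b1 b6 + X b2 b3 + X b3 b4 + X b2 b7 + X b5 b7 + X b3 b8 + X b5 b8 + X b6 b8 + X b4 b9 + X b6 b9 + X b7 b9 + X b0 b12 + X b0 b13 + X b1 b10 + X b1 b14 + X b10 b11 + X b11 b12 + X b10 b15 + X b13 b15 + X b11 b16 + X b13 b16 + X b14 b16 ≤ 3 →
    ∀ b17 : Bool, X b0 b1 + X b0 b4 + X b0 b5 + X b1 b2 + X b1 b6 + X b2 b3 + X b3 b4 + X b2 b7 + X b5 b7 + X b3 b8 + X b5 b8 + X b6 b8 + X b4 b9 + X b6 b9 + X b7 b9 + X b0 b12 + X b0 b13 + X b1 b10 + X b1 b14 + X b10 b11 + X b11 b12 + X b10 b15 + X b13 b15 + X b11 b16 + X b13 b16 + X b14 b16 + X b12 b17 + X b14 b17 + X b15 b17 ≤ 3 →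
    X b0 b1 + X b0 b4 + X b0 b5 + X b1 b2 + X b1 b6 + X b2 b3 + X b3 b4 + X b2 b7 + X b5 b7 + X b3 b8 + X b5 b8 + X b6 b8 + X b4 b9 + X b6 b9 + X b7 b9 + X b0 b12 + X b0 b13 + X b1 b10 + X b1 b14 + X b10 b11 + X b11 b12 + X b10 b15 + X b13 b15 + X b11 b16 + X b13 b16 + X b14 b16 + X b12 b17 + X b14 b17 + X b15 b17 = 0 ∨
    (X b0 b1 + X b0 b4 + X b0 b5 + X b1 b2 + X b1 b6 + X b2 b3 + X b3 b4 + X b2 b7 + X b5 b7 + X b3 b8 + X b5 b8 + X b6 b8 + X b4 b9 + X b6 b9 + X b7 b9 + X b0 b12 + X b0 b13 + X b1 b10 + X b1 b14 + X b10 b11 + X b11 b12 + X b10 b15 + X b13 b15 + X b11 b16 + X b13 b16 + X b14 b16 + X b12 b17 + X b14 b17 + X b15 b17 = 3 ∧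
    ∃ z : Fin 18, 2 ≤ z.val ∧ ∀ y : Fin 18, ![b0, b1, b2, b3, b4, b5, b6, b7, b8, b9, b10, b11, b12, b13, b14, b15, b16, b17] y = xor b0 (decide (y = z))) := by
  decide +kernel

lemma dfs2 (b0 b1 b2 b3 b4 b5 b6 b7 b8 b9 b10 b11 b12 b13 b14 b15 b16 b17 : Bool)
    (h17 : X b0 b1 + X b0 b4 + X b0 b5 + X b1 b2 + X b1 b6 + X b2 b3 + X b3 b4 + X b2 b7 + X b5 b7 + X b3 b8 + X b5 b8 + X b6 b8 + X b4 b9 + X b6 b9 + X b7 b9 + X b0 b12 + X b0 b13 + X b1 b10 + X b1 b14 + X b10 b11 + X b11 b12 + X b10 b15 + X b13 b15 + X b11 b16 + X b13 b16 + X b14 b16 + X b12 b17 + X b14 b17 + X b15 b17 ≤ 3) :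
    X b0 b1 + X b0 b4 + X b0 b5 + X b1 b2 + X b1 b6 + X b2 b3 + X b3 b4 + X b2 b7 + X b5 b7 + X b3 b8 + X b5 b8 + X b6 b8 + X b4 b9 + X b6 b9 + X b7 b9 + X b0 b12 + X b0 b13 + X b1 b10 + X b1 b14 + X b10 b11 + X b11 b12 + X b10 b15 + X b13 b15 + X b11 b16 + X b13 b16 + X b14 b16 + X b12 b17 + X b14 b17 + X b15 b17 = 0 ∨
    (X b0 b1 + X b0 b4 + X b0 b5 + X b1 b2 + X b1 b6 + X b2 b3 + X b3 b4 + X b2 b7 + X b5 b7 + X b3 b8 + X b5 b8 + X b6 b8 + X b4 b9 + X b6 b9 + X b7 b9 + X b0 b12 + X b0 b13 + X b1 b10 + X b1 b14 + X b10 b11 + X b11 b12 + X b10 b15 + X b13 b15 + X b11 b16 + X b13 b16 + X b14 b16 + X b12 b17 + X b14 b17 + X b15 b17 = 3 ∧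
    ∃ z : Fin 18, 2 ≤ z.val ∧ ∀ y : Fin 18, ![b0, b1, b2, b3, b4, b5, b6, b7, b8, b9, b10, b11, b12, b13, b14, b15, b16, b17] y = xor b0 (decide (y = z))) := by
  have L : ∀ {a b : ℕ}, a + b ≤ 3 → a ≤ 3 := fun h => le_trans (Nat.le_add_right _ _) h
  have h16 := L (L (L (h17)))
  have h15 := L (L (L (h16)))
  have h11 := L (L (h15))
  have h14 := L (L (h11))
  have h10 := L (h14)
  have h13 := L (h10)
  have h12 := L (h13)
  have h9 := L (h12)
  have h8 := L (L (L (h9)))
  have h7 := L (L (L (h8)))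
  have h3 := L (L (h7))
  have h6 := L (L (h3))
  have h2 := L (h6)
  have h5 := L (h2)
  have h4 := L (h5)
  have h1 := L (h4)
  exact dfs b0 b1 h1 b4 h4 b5 h5 b2 h2 b6 h6 b3 h3 b7 h7 b8 h8 b9 h9 b12 h12 b13 h13 b10 h10 b14 h14 b11 h11 b15 h15 b16 h16 b17 h17

set_option synthInstance.maxSize 100000 in
lemma isoc :
    ∀ x1 : K, x1 ≠ 0 → ∀ x7 : K, x7 ≠ 0 → ∀ x9 : K, x9 ≠ 0 → x1 + x7 + x9 = 0 →
    ∀ x5 : K, x5 ≠ 0 → ∀ x8 : K, x8 ≠ 0 → x5 + x7 + x8 = 0 →
    ∀ x11 : K, x11 ≠ 0 → ∀ x12 : K, x12 ≠ 0 → x8 + x11 + x12 = 0 →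
    ∀ x2 : K, x2 ≠ 0 → ∀ x10 : K, x10 ≠ 0 → x2 + x10 + x11 = 0 →
    ∀ x13 : K, x13 ≠ 0 → ∀ x14 : K, x14 ≠ 0 → x9 + x13 + x14 = 0 →
    ∀ x6 : K, x6 ≠ 0 → x6 + x10 + x14 = 0 →
    ∀ x3 : K, x3 ≠ 0 → x3 + x5 + x6 = 0 →
    ∀ x4 : K, x4 ≠ 0 → x4 + x12 + x13 = 0 →
    x1 + x2 = 0 := by decide +kernel

/-- First ends. -/
def dA : Fin 29 → Fin 18 :=
  ![0, 0, 0, 1, 1, 2, 3, 2, 5, 3, 5, 6, 4, 6, 7, 0, 0, 1, 1, 10, 11, 10, 13, 11, 13, 14, 12, 14, 15]

/-- Second ends. -/
def dB : Fin 29 → Fin 18 :=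
  ![1, 4, 5, 2, 6, 3, 4, 7, 7, 8, 8, 8, 9, 9, 9, 12, 13, 10, 14, 11, 12, 15, 15, 16, 16, 16, 17, 17, 17]

/-- Two Petersen graphs sharing the edge `01`. -/
def DP : Fin 29 → Sym2 (Fin 18) := fun e => s(dA e, dB e)

lemma st0 : Finset.univ.filter (fun e => ¬ (dA e = 0 ↔ dB e = 0)) = {0, 1, 2, 15, 16} := by
  decide +kernel

lemma st2 : Finset.univ.filter (fun e => ¬ (dA e = 2 ↔ dB e = 2)) = {3, 5, 7} := by
  decide +kernel

lemma st3 : Finset.univ.filter (fun e => ¬ (dA e = 3 ↔ dB e = 3)) = {5, 6, 9} := by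
  decide +kernel

lemma st4 : Finset.univ.filter (fun e => ¬ (dA e = 4 ↔ dB e = 4)) = {1, 6, 12} := by
  decide +kernel

lemma st5 : Finset.univ.filter (fun e => ¬ (dA e = 5 ↔ dB e = 5)) = {2, 8, 10} := by
  decide +kernel

lemma st6 : Finset.univ.filter (fun e => ¬ (dA e = 6 ↔ dB e = 6)) = {4, 11, 13} := by
  decide +kernel

lemma st7 : Finset.univ.filter (fun e => ¬ (dA e = 7 ↔ dB e = 7)) = {7, 8, 14} := by
  decide +kernel

lemma st8 : Finset.univ.filter (fun e => ¬ (dA e = 8 ↔ dB e = 8)) = {9, 10, 11} := by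
  decide +kernel

lemma st9 : Finset.univ.filter (fun e => ¬ (dA e = 9 ↔ dB e = 9)) = {12, 13, 14} := by
  decide +kernel

lemma st10 : Finset.univ.filter (fun e => ¬ (dA e = 10 ↔ dB e = 10)) = {17, 19, 21} := by
  decide +kernel

lemma st11 : Finset.univ.filter (fun e => ¬ (dA e = 11 ↔ dB e = 11)) = {19, 20, 23} := by
  decide +kernel

lemma st12 : Finset.univ.filter (fun e => ¬ (dA e = 12 ↔ dB e = 12)) = {15, 20, 26} := by
  decide +kernel

lemma st13 : Finset.univ.filter (fun e => ¬ (dA e = 13 ↔ dB e = 13)) = {16, 22, 24} := by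
  decide +kernel

lemma st14 : Finset.univ.filter (fun e => ¬ (dA e = 14 ↔ dB e = 14)) = {18, 25, 27} := by
  decide +kernel

lemma st15 : Finset.univ.filter (fun e => ¬ (dA e = 15 ↔ dB e = 15)) = {21, 22, 28} := by
  decide +kernel

lemma st16 : Finset.univ.filter (fun e => ¬ (dA e = 16 ↔ dB e = 16)) = {23, 24, 25} := by
  decide +kernel

lemma st17 : Finset.univ.filter (fun e => ¬ (dA e = 17 ↔ dB e = 17)) = {26, 27, 28} := by
  decide +kernel

lemma sumX (s : Fin 18 → Bool) : ∑ e, X (s (dA e)) (s (dB e)) =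
    X (s 0) (s 1) + X (s 0) (s 4) + X (s 0) (s 5) + X (s 1) (s 2) + X (s 1) (s 6) + X (s 2) (s 3) + X (s 3) (s 4) + X (s 2) (s 7) + X (s 5) (s 7) + X (s 3) (s 8) + X (s 5) (s 8) + X (s 6) (s 8) + X (s 4) (s 9) + X (s 6) (s 9) + X (s 7) (s 9) + X (s 0) (s 12) + X (s 0) (s 13) + X (s 1) (s 10) + X (s 1) (s 14) + X (s 10) (s 11) + X (s 11) (s 12) + X (s 10) (s 15) + X (s 13) (s 15) + X (s 11) (s 16) + X (s 13) (s 16) + X (s 14) (s 16) + X (s 12) (s 17) + X (s 14) (s 17) + X (s 15) (s 17) := by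
  simp only [Fin.sum_univ_succ, dA, dB, Matrix.cons_val_zero, Matrix.cons_val_succ,
    Finset.univ_eq_empty, Finset.sum_empty, add_zero, add_assoc]

lemma vec18 (s : Fin 18 → Bool) (y : Fin 18) : ![s 0, s 1, s 2, s 3, s 4, s 5, s 6, s 7, s 8, s 9, s 10, s 11, s 12, s 13, s 14, s 15, s 16, s 17] y = s y := by
  fin_cases y <;> rfl

lemma DP_deg : ∀ v : Fin 18, 2 ≤ v.val →
    (Finset.univ.filter (fun e => ¬ (dA e = v ↔ dB e = v))).card = 3 := by decide +kernel

lemma DP_inj : ∀ v w : Fin 18, Finset.univ.filter (fun e => ¬ (dA e = v ↔ dB e = v)) =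
    Finset.univ.filter (fun e => ¬ (dA e = w ↔ dB e = w)) → v = w := by decide +kernel

lemma DP_star (v : Fin 18) :
    cut DP {v} = Finset.univ.filter (fun e => ¬ (dA e = v ↔ dB e = v)) := by
  ext e
  simp [mem_cut, DP, cr_mk]

open Finset Classical

lemma DP_cut (S : Set (Fin 18)) (h : (cut DP S).card ≤ 3) : (cut DP S).card = 0 ∨
    ((cut DP S).card = 3 ∧ ∃ z : Fin 18, 2 ≤ z.val ∧ (S = {z} ∨ S = {z}ᶜ)) := by
  let s : Fin 18 → Bool := fun x => decide (x ∈ S)
  have e1 : (cut DP S).card = ∑ e, X (s (dA e)) (s (dB e)) := by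
    rw [cut, Finset.card_filter]
    refine Finset.sum_congr rfl (fun e _ => ?_)
    simp only [DP, cr_mk, X, s]
    by_cases h1 : dA e ∈ S <;> by_cases h2 : dB e ∈ S <;> simp [h1, h2]
  rw [e1, sumX] at h ⊢
  refine (dfs2 _ _ _ _ _ _ _ _ _ _ _ _ _ _ _ _ _ _ h).imp id (fun t => ⟨t.1, ?_⟩)
  obtain ⟨z, z1, z2⟩ := t.2
  simp only [vec18] at z2
  refine ⟨z, z1, ?_⟩
  cases h0 : s 0
  · left
    ext y
    have := z2 y
    rw [h0] at this
    simpa [s] using this
  · right
    ext y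
    have := z2 y
    rw [h0] at this
    by_cases t : y = z <;> simpa [s, t] using this

lemma DP_bl : Bl DP := fun S h => by
  have := DP_cut S (by omega)
  omega

lemma DP_nf : ¬ HasFlow DP := by
  rintro ⟨f, f0, f1⟩
  have h : ∀ v : Fin 18, ∑ e ∈ Finset.univ.filter (fun e => ¬ (dA e = v ↔ dB e = v)), f e = 0 := by
    intro v
    rw [← show bd DP f v = 0 from congrFun f1 v, bd, DP_star]
  have h0 : f 0 + f 1 + f 2 + f 15 + f 16 = 0 := by
    rw [← h 0, st0]; simp [add_assoc]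
  have h2 : f 3 + f 5 + f 7 = 0 := by
    rw [← h 2, st2]; simp [add_assoc]
  have h3 : f 5 + f 6 + f 9 = 0 := by
    rw [← h 3, st3]; simp [add_assoc]
  have h4 : f 1 + f 6 + f 12 = 0 := by
    rw [← h 4, st4]; simp [add_assoc]
  have h5 : f 2 + f 8 + f 10 = 0 := by
    rw [← h 5, st5]; simp [add_assoc]
  have h6 : f 4 + f 11 + f 13 = 0 := by
    rw [← h 6, st6]; simp [add_assoc]
  have h7 : f 7 + f 8 + f 14 = 0 := by
    rw [← h 7, st7]; simp [add_assoc]
  have h8 : f 9 + f 10 + f 11 = 0 := by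
    rw [← h 8, st8]; simp [add_assoc]
  have h9 : f 12 + f 13 + f 14 = 0 := by
    rw [← h 9, st9]; simp [add_assoc]
  have h10 : f 17 + f 19 + f 21 = 0 := by
    rw [← h 10, st10]; simp [add_assoc]
  have h11 : f 19 + f 20 + f 23 = 0 := by
    rw [← h 11, st11]; simp [add_assoc]
  have h12 : f 15 + f 20 + f 26 = 0 := by
    rw [← h 12, st12]; simp [add_assoc]
  have h13 : f 16 + f 22 + f 24 = 0 := by
    rw [← h 13, st13]; simp [add_assoc]
  have h14 : f 18 + f 25 + f 27 = 0 := by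
    rw [← h 14, st14]; simp [add_assoc]
  have h15 : f 21 + f 22 + f 28 = 0 := by
    rw [← h 15, st15]; simp [add_assoc]
  have h16 : f 23 + f 24 + f 25 = 0 := by
    rw [← h 16, st16]; simp [add_assoc]
  have h17 : f 26 + f 27 + f 28 = 0 := by
    rw [← h 17, st17]; simp [add_assoc]
  have k1 := isoc _ (f0 1) _ (f0 6) _ (f0 12) h4 _ (f0 5) _ (f0 9) h3 _ (f0 10) _ (f0 11) h8 _ (f0 2) _ (f0 8) h5 _ (f0 13) _ (f0 14) h9 _ (f0 7) h7 _ (f0 3) h2 _ (f0 4) h6
  have k2 := isoc _ (f0 15) _ (f0 20) _ (f0 26) h12 _ (f0 19) _ (f0 23) h11 _ (f0 24) _ (f0 25) h16 _ (f0 16) _ (f0 22) h13 _ (f0 27) _ (f0 28) h17 _ (f0 21) h15 _ (f0 17) h10 _ (f0 18) h14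
  apply f0 0
  linear_combination h0 - k1 - k2

lemma DP_nq : ¬ QP DP := by
  rintro ⟨p, hp⟩
  have c3 := QP.cut3 hp
  obtain ⟨-, z, z1, z2⟩ := (DP_cut _ (c3 (p 0)).le).resolve_left (by rw [c3]; norm_num)
  have z0 : (0 : Fin 18) ≠ z := by
    rintro rfl
    simp at z1
  have h0 : (0 : Fin 18) ∈ p ⁻¹' {p 0} := rfl
  rcases z2 with z2 | z2
  · rw [z2] at h0
    exact z0 h0
  have key : ∀ l, l ≠ p 0 → p z = l := fun l hl => by
    obtain ⟨e, he⟩ := Finset.card_pos.1 (show 0 < (cut DP (p ⁻¹' {l})).card by rw [c3]; norm_num)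
    obtain ⟨x, y, -, hx, -⟩ := mem_cut.1 he
    by_cases t : x = z
    · exact t ▸ hx
    · have : x ∈ p ⁻¹' {p 0} := by rw [z2]; exact t
      exact absurd (Eq.trans (Eq.symm hx) this) hl
  have : ∀ a : Fin 10, ∃ l m, l ≠ a ∧ m ≠ a ∧ l ≠ m := by decide +kernel
  obtain ⟨l, m, h1, h2, h3⟩ := this (p 0)
  exact h3 ((key l h1).symm.trans (key m h2))

end Pool.Agent.MP_e6539c_co.h19

end MrgPart5

-- marker of a merged file
example : 731051 + 826996 = 731051 + 826996 := rfl
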