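import Pool.Agent.MP_e6539c_co.h19.Poles
import Pool.Agent.MP_e6539c_co.h19.Check

/-! A minimal counterexample has no vertex of degree four or more. -/

namespace Pool.Agent.MP_e6539c_co.h19

/-- Predicted size of the cut of a set of classes. -/
def cutN (i j k : Fin 10) (T : Finset (Fin 10)) : ℕ :=
  ∑ l ∈ T, ∑ m ∈ Tᶜ, ((if adj l m = true ∧ s(l, m) ≠ s(j, k) then 1 else 0) +
    (if s(i, j) = s(l, m) then 1 else 0) + (if s(i, k) = s(l, m) then 1 else 0))

lemma cutN_single : ∀ i j k : Fin 10, i ≠ j → i ≠ k → (k = j ∨ adj j k = true) → ∀ l,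
    cutN i j k {l} = if l = i ∨ (l = j ∧ k = j) then 5 else 3 := by decide +kernel

lemma cutN_iso : ∀ k : Fin 10, 0 ≠ k → (k = 1 ∨ adj 1 k = true) →
    cutN 0 1 k (Finset.univ.filter (fun l => 2 ≤ l.val)) = 4 := by decide +kernel

lemma cutN_dyad : ∀ k : Fin 10, adj 0 k = false → (k = 2 ∨ adj 2 k = true) →
    cutN 0 2 k (Finset.univ.filter (fun l => 3 ≤ l.val)) = 5 := by decide +kernel

lemma card_nbr : ∀ l : Fin 10, (Finset.univ.filter (fun m => adj l m = true)).card = 3 := by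
  decide +kernel

lemma outer2 : ∀ l m : Fin 10, 2 ≤ l.val → ¬ 2 ≤ m.val → adj l m = true →
    (l = 4 ∧ m = 0) ∨ (l = 5 ∧ m = 0) ∨ (l = 2 ∧ m = 1) ∨ (l = 6 ∧ m = 1) := by decide +kernel

lemma outer3 : ∀ l m : Fin 10, 3 ≤ l.val → ¬ 3 ≤ m.val → adj l m = true →
    (l = 4 ∧ m = 0) ∨ (l = 5 ∧ m = 0) ∨ (l = 3 ∧ m = 2) ∨ (l = 7 ∧ m = 2) ∨ (l = 6 ∧ m = 1) := by
  decide +kernel

open Finset Classical

set_option linter.unusedSectionVars false

variable {V E : Type} [Fintype V] [Fintype E]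

lemma cnt_split (H : E → Sym2 (Fin 10)) {a b : E} (hab : a ≠ b) (z : Sym2 (Fin 10)) :
    (univ.filter (fun e => H e = z)).card =
      (univ.filter (fun e => e ≠ a ∧ e ≠ b ∧ H e = z)).card + (if H a = z then 1 else 0) +
        (if H b = z then 1 else 0) := by
  simp only [Finset.card_filter]
  rw [← Finset.sum_erase_add _ _ (Finset.mem_univ a), ← Finset.sum_erase_add _ _ (Finset.mem_univ a),
    ← Finset.sum_erase_add _ _ (show b ∈ univ.erase a by simp [hab.symm]),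
    ← Finset.sum_erase_add _ _ (show b ∈ univ.erase a by simp [hab.symm])]
  have : ∑ x ∈ (univ.erase a).erase b, (if x ≠ a ∧ x ≠ b ∧ H x = z then 1 else 0) =
      ∑ x ∈ (univ.erase a).erase b, (if H x = z then 1 else 0) := by
    refine Finset.sum_congr rfl (fun x hx => ?_)
    simp only [Finset.mem_erase] at hx
    simp [hx.1, hx.2.1]
  rw [this]
  simp only [ne_eq, not_true_eq_false, false_and, and_false, if_false, add_zero]
  omega

lemma card_cut_set (H : E → Sym2 (Fin 10)) (T : Finset (Fin 10)) :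
    (cut H (T : Set (Fin 10))).card =
      ∑ l ∈ T, ∑ m ∈ Tᶜ, (univ.filter (fun e => H e = s(l, m))).card := by
  rw [← Finset.sum_product', ← Finset.card_biUnion]
  · congr 1
    ext e
    simp only [mem_cut, cr, Finset.mem_coe, Finset.mem_biUnion, Finset.mem_product,
      Finset.mem_compl, Finset.mem_filter, Finset.mem_univ, true_and, Prod.exists]
    constructor
    · rintro ⟨x, y, h, hx, hy⟩; exact ⟨x, y, ⟨hx, hy⟩, h⟩
    · rintro ⟨x, y, ⟨hx, hy⟩, h⟩; exact ⟨x, y, h, hx, hy⟩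
  · rintro ⟨x, y⟩ hx ⟨x', y'⟩ hy hxy
    simp only [Finset.coe_product, Set.mem_prod, Finset.mem_coe, Finset.mem_compl] at hx hy
    simp only [Function.onFun, Finset.disjoint_left, Finset.mem_filter, Finset.mem_univ, true_and]
    intro e h1 h2
    rw [h1] at h2
    rcases Sym2.eq_iff.1 h2 with ⟨rfl, rfl⟩ | ⟨rfl, rfl⟩
    · exact hxy rfl
    · exact hx.2 hy.1

/-- The quotient of `G` after undoing a split of a graph that maps onto the Petersen graph. -/
structure Sit (G : E → Sym2 V) (p : V → Fin 10) (a b : E) (i j k : Fin 10) : Prop where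
  ab : a ≠ b
  ha : gmap G p a = s(i, j)
  hb : gmap G p b = s(i, k)
  ij : i ≠ j
  ik : i ≠ k
  jk : k = j ∨ adj j k = true
  cnt : ∀ l m, l ≠ m → (univ.filter (fun e => e ≠ a ∧ e ≠ b ∧ gmap G p e = s(l, m))).card =
    if adj l m = true ∧ s(l, m) ≠ s(j, k) then 1 else 0

/-- The edge between two classes. -/
noncomputable def gE (G : E → Sym2 V) (p : V → Fin 10) (a b : E) (z : Sym2 (Fin 10)) : E :=
  if h : ∃ e, e ≠ a ∧ e ≠ b ∧ gmap G p e = z then h.choose else a

/-- The dart at class `l` towards class `m`. -/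
noncomputable def hE (G : E → Sym2 V) (p : V → Fin 10) (a b : E) (j k l m : Fin 10) : E :=
  if l = k ∧ m = j then b else gE G p a b s(l, m)

/-- Number of odd vertices in a class. -/
noncomputable def oN (G : E → Sym2 V) (p : V → Fin 10) (l : Fin 10) : ℕ :=
  ((Od G).filter (fun x => p x = l)).card

lemma oN_sum (G : E → Sym2 V) (p : V → Fin 10) (T : Finset (Fin 10)) :
    ((Od G).filter (fun x => p x ∈ T)).card = ∑ l ∈ T, oN G p l := by
  rw [Finset.card_eq_sum_card_fiberwise (f := p) (t := T) (fun x hx => by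
    simpa using (Finset.mem_filter.1 hx).2)]
  refine Finset.sum_congr rfl (fun l hl => ?_)
  simp only [oN, Finset.filter_filter]
  congr 1
  refine Finset.filter_congr (fun x _ => ?_)
  constructor
  · exact fun h => h.2
  · exact fun h => ⟨h ▸ hl, h⟩

namespace Sit

variable {G : E → Sym2 V} {p : V → Fin 10} {a b : E} {i j k : Fin 10}

lemma swap1 (h : Sit G p a b i j k) : Sit G p b a i k j where
  ab := h.ab.symm
  ha := h.hb
  hb := h.ha
  ij := h.ik
  ik := h.ij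
  jk := h.jk.imp Eq.symm (fun h => by rw [adj_symm]; exact h)
  cnt := fun l m hlm => by
    rw [Sym2.eq_swap (a := k), ← h.cnt l m hlm]
    congr 1
    refine Finset.filter_congr (fun x _ => ?_)
    tauto

lemma swap2 (h : Sit G p a b i j j) : Sit G p a b j i i where
  ab := h.ab
  ha := by rw [h.ha, Sym2.eq_swap]
  hb := by rw [h.hb, Sym2.eq_swap]
  ij := h.ij.symm
  ik := h.ij.symm
  jk := Or.inl rfl
  cnt := fun l m hlm => by
    rw [h.cnt l m hlm]
    have e1 : ∀ t, s(l, m) ≠ s(t, t) := fun t ht => by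
      rcases Sym2.eq_iff.1 ht with ⟨rfl, rfl⟩ | ⟨rfl, rfl⟩ <;> exact hlm rfl
    simp only [e1, ne_eq, not_false_eq_true]

lemma aut (h : Sit G p a b i j k) {σ : Fin 10 → Fin 10} (h1 : ∀ l m, σ l = σ m → l = m)
    (h2 : ∀ l m, adj (σ l) (σ m) = adj l m) : Sit G (σ ∘ p) a b (σ i) (σ j) (σ k) := by
  have inj : Function.Injective σ := fun l m => h1 l m
  have e0 : ∀ e, gmap G (σ ∘ p) e = (gmap G p e).map σ := fun e => by simp [gmap, Sym2.map_map]
  have e1 : ∀ (z : Sym2 (Fin 10)) l m, z.map σ = s(σ l, σ m) ↔ z = s(l, m) := fun z l m => by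
    rw [← Sym2.map_mk, (Sym2.map.injective inj).eq_iff]
  refine ⟨h.ab, by rw [e0, h.ha, Sym2.map_mk], by rw [e0, h.hb, Sym2.map_mk], inj.ne h.ij,
    inj.ne h.ik, h.jk.imp (congrArg σ) (fun t => by rw [h2]; exact t), fun l m hlm => ?_⟩
  obtain ⟨l, rfl⟩ := (Finite.injective_iff_surjective.1 inj) l
  obtain ⟨m, rfl⟩ := (Finite.injective_iff_surjective.1 inj) m
  have e2 : s(σ l, σ m) = s(σ j, σ k) ↔ s(l, m) = s(j, k) := e1 s(l, m) j k
  simp only [e0, e1, h2, ne_eq, e2]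
  exact h.cnt l m (fun t => hlm (congrArg σ t))

lemma card_cut (h : Sit G p a b i j k) (T : Finset (Fin 10)) :
    (cut G (p ⁻¹' (T : Set (Fin 10)))).card = cutN i j k T := by
  rw [← cut_gmap, card_cut_set, cutN]
  refine Finset.sum_congr rfl (fun l hl => Finset.sum_congr rfl (fun m hm => ?_))
  have hlm : l ≠ m := by
    rintro rfl
    exact (Finset.mem_compl.1 hm) hl
  rw [cnt_split _ h.ab, h.cnt l m hlm, h.ha, h.hb]

lemma card_cut1 (h : Sit G p a b i j k) (l : Fin 10) :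
    (cut G (p ⁻¹' {l})).card = if l = i ∨ (l = j ∧ k = j) then 5 else 3 := by
  rw [← cutN_single i j k h.ij h.ik h.jk l, ← h.card_cut]
  simp

lemma oN_pos (h : Sit G p a b i j k) (l : Fin 10) : 1 ≤ oN G p l := by
  obtain ⟨v, hv, hl⟩ := exists_odd_of_cut (G := G) (S := p ⁻¹' {l}) (by
    rw [h.card_cut1]; split_ifs <;> decide)
  exact Finset.card_pos.2 ⟨v, Finset.mem_filter.2 ⟨hv, hl⟩⟩

lemma oN_le (h : Sit G p a b i j k) (mc : MC G) (T : Finset (Fin 10)) :
    ∑ l ∈ T, oN G p l + Tᶜ.card ≤ 16 := by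
  have h1 := oN_sum G p univ
  simp only [Finset.mem_univ, Finset.filter_true] at h1
  have h2 := Finset.sum_add_sum_compl T (oN G p)
  have h3 : Tᶜ.card ≤ ∑ l ∈ Tᶜ, oN G p l := by
    rw [Finset.card_eq_sum_ones]
    exact Finset.sum_le_sum (fun l _ => h.oN_pos l)
  have := mc.od
  omega

lemma uniq (h : Sit G p a b i j k) {e : E} {l m : Fin 10} (h1 : e ≠ a) (h2 : e ≠ b)
    (he : gmap G p e = s(l, m)) (hlm : l ≠ m) :
    adj l m = true ∧ s(l, m) ≠ s(j, k) ∧ e = gE G p a b s(l, m) := by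
  have c := h.cnt l m hlm
  have m1 : e ∈ univ.filter (fun e => e ≠ a ∧ e ≠ b ∧ gmap G p e = s(l, m)) := by
    simp [h1, h2, he]
  have pos := Finset.card_pos.2 ⟨e, m1⟩
  split_ifs at c with hc
  · refine ⟨hc.1, hc.2, ?_⟩
    have ex : ∃ e, e ≠ a ∧ e ≠ b ∧ gmap G p e = s(l, m) := ⟨e, h1, h2, he⟩
    refine Finset.card_le_one.1 c.le _ m1 _ ?_
    simp only [gE, dif_pos ex, Finset.mem_filter, Finset.mem_univ, true_and]
    exact ex.choose_spec
  · omega

lemma dart (h : Sit G p a b i j k) {e : E} {l m : Fin 10} (hi : l ≠ i) (hj : l ≠ j)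
    (he : gmap G p e = s(l, m)) (hlm : l ≠ m) :
    ∃ m', adj l m' = true ∧ e = hE G p a b j k l m' ∧ (m = m' ∨ (m = i ∧ m' = j)) := by
  by_cases h1 : e = a
  · rw [h1, h.ha] at he
    rcases Sym2.eq_iff.1 he with ⟨rfl, rfl⟩ | ⟨rfl, rfl⟩
    · exact absurd rfl hi
    · exact absurd rfl hj
  by_cases h2 : e = b
  · rw [h2, h.hb] at he
    rcases Sym2.eq_iff.1 he with ⟨rfl, rfl⟩ | ⟨rfl, rfl⟩
    · exact absurd rfl hi
    · refine ⟨j, ?_, by simp [hE, h2], Or.inr ⟨rfl, rfl⟩⟩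
      rw [adj_symm]
      exact h.jk.resolve_left hj
  obtain ⟨k1, k2, k3⟩ := h.uniq h1 h2 he hlm
  refine ⟨m, k1, ?_, Or.inl rfl⟩
  rw [hE, if_neg, ← k3]
  rintro ⟨rfl, rfl⟩
  exact k2 Sym2.eq_swap

lemma cut_eq (h : Sit G p a b i j k) {l : Fin 10} (hi : l ≠ i) (hj : l ≠ j) :
    cut G (p ⁻¹' {l}) = (univ.filter (fun m => adj l m = true)).image (hE G p a b j k l) ∧
      Set.InjOn (hE G p a b j k l) (univ.filter (fun m => adj l m = true) : Finset (Fin 10)) := by
  have c3 : (cut G (p ⁻¹' {l})).card = 3 := by rw [h.card_cut1]; simp [hi, hj]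
  have sub : cut G (p ⁻¹' {l}) ⊆
      (univ.filter (fun m => adj l m = true)).image (hE G p a b j k l) := by
    intro e he
    rw [← cut_gmap] at he
    obtain ⟨m, hm, he⟩ := mem_cut_single.1 he
    obtain ⟨m', k1, k2, -⟩ := h.dart hi hj he hm.symm
    exact Finset.mem_image.2 ⟨m', by simpa using k1, k2.symm⟩
  have le1 := Finset.card_image_le (s := univ.filter (fun m => adj l m = true))
    (f := hE G p a b j k l)
  have le2 := Finset.card_le_card sub
  have := card_nbr l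
  exact ⟨Finset.eq_of_subset_of_card_le sub (by omega), Finset.card_image_iff.1 (by omega)⟩

lemma gmap_hE (h : Sit G p a b i j k) {l m : Fin 10} (hi : l ≠ i) (hj : l ≠ j)
    (hlm : adj l m = true) : gmap G p (hE G p a b j k l m) = s(l, m) ∨
      (m = j ∧ gmap G p (hE G p a b j k l m) = s(l, i)) := by
  obtain ⟨c1, c2⟩ := h.cut_eq hi hj
  have : hE G p a b j k l m ∈ cut G (p ⁻¹' {l}) := by
    rw [c1]; exact Finset.mem_image_of_mem _ (by simpa using hlm)
  rw [← cut_gmap] at this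
  obtain ⟨m0, hm, he⟩ := mem_cut_single.1 this
  obtain ⟨m', k1, k2, k3⟩ := h.dart hi hj he hm.symm
  have : m = m' := c2 (by simpa using hlm) (by simpa using k1) k2
  subst this
  rcases k3 with rfl | ⟨rfl, rfl⟩
  · exact Or.inl he
  · exact Or.inr ⟨rfl, he⟩

lemma inner_of (_h : Sit G p a b i j k) {e : E} {l m : Fin 10} (he : gmap G p e = s(l, m))
    (hlm : l ≠ m) {S : Set (Fin 10)} (hl : l ∈ S) (hm : m ∈ S) : Inner G (p ⁻¹' S) := by
  obtain ⟨x, y, hxy⟩ := exists_ends G e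
  rw [gmap_of p hxy] at he
  refine ⟨e, x, y, hxy, ?_, ?_⟩
  · rintro rfl
    rcases Sym2.eq_iff.1 he with ⟨rfl, h⟩ | ⟨rfl, h⟩
    · exact hlm h
    · exact hlm h.symm
  · rcases Sym2.eq_iff.1 he with ⟨rfl, rfl⟩ | ⟨rfl, rfl⟩
    · exact ⟨hl, hm⟩
    · exact ⟨hm, hl⟩

lemma apex (h : Sit G p a b i j k) (mc : MC0 G) {l : Fin 10} (hl : ¬ (l = i ∨ (l = j ∧ k = j))) :
    ∃ z, p z = l ∧ cut G {z} = cut G (p ⁻¹' {l}) ∧ ∀ x, p x = l → x ≠ z → cut G {x} = ∅ := by
  have c3 : (cut G (p ⁻¹' {l})).card = 3 := by rw [h.card_cut1, if_neg hl]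
  have hi : Inner G (p ⁻¹' {l})ᶜ := by
    rw [← Set.preimage_compl]
    by_cases hj : l = j
    · refine h.inner_of h.hb h.ik ?_ ?_
      · exact fun t => hl (Or.inl t.symm)
      · exact fun t => hl (Or.inr ⟨hj, t.trans hj⟩)
    · refine h.inner_of h.ha h.ij ?_ ?_
      · exact fun t => hl (Or.inl t.symm)
      · exact fun t => hj t.symm
  exact mc.apex c3 (fun t => mc.triv (Or.inl c3) t hi)

lemma oN_one (h : Sit G p a b i j k) (mc : MC0 G) {l : Fin 10}
    (hl : ¬ (l = i ∨ (l = j ∧ k = j))) : oN G p l ≤ 1 := by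
  obtain ⟨z, -, -, hz⟩ := h.apex mc hl
  refine le_trans (Finset.card_le_card (t := {z}) (fun x hx => ?_)) (by simp)
  simp only [Finset.mem_filter, mem_Od] at hx
  by_contra t
  rw [hz x hx.2 (by simpa using t)] at hx
  simp at hx

lemma extend (h : Sit G p a b i j k) (mc : MC0 G) {t : ℕ} (hi : ¬ t ≤ i.val) (hj : ¬ t ≤ j.val)
    {f : E → K} (f0 : ∀ e, f e ≠ 0) (hf : ∀ x, ¬ t ≤ (p x).val → bd G f x = 0) {r : Fin 10 → K}
    (hr : ∀ l m : Fin 10, t ≤ l.val → ¬ t ≤ m.val → adj l m = true →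
      f (hE G p a b j k l m) = r l) {n : ℕ} (hn : good t r n) : False := by
  let f' : E → K := fun e => Sym2.lift ⟨fun l m : Fin 10 =>
    if t ≤ l.val ∧ t ≤ m.val ∧ l ≠ m then cc n l m else f e, fun l m => by
      simp only [cc_symm n l m]
      congr 1
      apply propext
      constructor <;> rintro ⟨h1, h2, h3⟩ <;> exact ⟨h2, h1, h3.symm⟩⟩ (gmap G p e)
  have hf' : ∀ e l m, gmap G p e = s(l, m) →
      f' e = if t ≤ l.val ∧ t ≤ m.val ∧ l ≠ m then cc n l m else f e := fun e l m he => by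
    simp only [f', he, Sym2.lift_mk]
  have ni : ∀ l : Fin 10, t ≤ l.val → l ≠ i := by rintro l hl rfl; exact hi hl
  have nj : ∀ l : Fin 10, t ≤ l.val → l ≠ j := by rintro l hl rfl; exact hj hl
  refine mc.nf ⟨f', fun e => ?_, ?_⟩
  · obtain ⟨l, m, he⟩ := exists_ends (gmap G p) e
    rw [hf' e l m he]
    split_ifs with hc
    · obtain ⟨m', k1, -, k3⟩ := h.dart (ni l hc.1) (nj l hc.1) he hc.2.2
      rcases k3 with rfl | ⟨rfl, -⟩
      · exact hn.1 l m hc.1 hc.2.1 k1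
      · exact absurd hc.2.1 hi
    · exact f0 e
  · ext1 x
    by_cases hx : t ≤ (p x).val
    · obtain ⟨z, -, z1, z2⟩ := h.apex mc (l := p x) (by simp [ni _ hx, nj _ hx])
      by_cases hxz : x = z
      · obtain ⟨c1, c2⟩ := h.cut_eq (ni _ hx) (nj _ hx)
        rw [← hxz] at z1
        simp only [bd, Pi.zero_apply]
        rw [z1, c1, Finset.sum_image c2, ← hn.2 (p x) hx]
        refine Finset.sum_congr rfl (fun m hm => ?_)
        have hm' : adj (p x) m = true := by simpa using hm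
        have hne : p x ≠ m := by
          intro t
          rw [← t, adj_irrefl] at hm'
          exact absurd hm' (by simp)
        rcases h.gmap_hE (ni _ hx) (nj _ hx) hm' with k1 | ⟨k0, k1⟩
        · rw [hf' _ _ _ k1]
          by_cases hm2 : t ≤ m.val
          · simp [hx, hm2, hne]
          · simp [hm2, hr _ _ hx hm2 hm']
        · rw [hf' _ _ _ k1]
          have hm2 : ¬ t ≤ m.val := k0 ▸ hj
          simp [hi, hm2, hr _ _ hx hm2 hm']
      · simp [bd, z2 x rfl hxz]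
    · rw [Pi.zero_apply, ← hf x hx]
      refine bd_congr_at (fun e he => ?_)
      obtain ⟨y, -, he⟩ := mem_cut_single.1 he
      rw [hf' e _ _ (gmap_of p he)]
      simp [hx]

lemma cut_outer (h : Sit G p a b i j k) {t : ℕ} (hi : ¬ t ≤ i.val) (hj : ¬ t ≤ j.val) {e : E}
    (he : e ∈ cut G (p ⁻¹' {l : Fin 10 | t ≤ l.val})) :
    ∃ l m : Fin 10, t ≤ l.val ∧ ¬ t ≤ m.val ∧ adj l m = true ∧ e = hE G p a b j k l m := by
  rw [← cut_gmap] at he
  obtain ⟨l, m, he, hl, hm⟩ := mem_cut.1 he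
  obtain ⟨m', k1, k2, k3⟩ := h.dart (by rintro rfl; exact hi hl) (by rintro rfl; exact hj hl) he
    (by rintro rfl; exact hm hl)
  refine ⟨l, m', hl, ?_, k1, k2⟩
  rcases k3 with rfl | ⟨-, rfl⟩
  · exact hm
  · exact hj

end Sit

end Pool.Agent.MP_e6539c_co.h19
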